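import Pool.Agent.W674.LVF.Defs

/-! # Lipschitz-volume rigidity for Finsler masses: statements of the parts -/

set_option autoImplicit false

open MeasureTheory Set Filter Topology Asymptotics
open scoped ENNReal NNReal ContDiff
open Pool.Agent.W674.LVR

namespace Pool.Agent.W674.LVF

/-- the Busemann density is a volume functional -/
def S_bus : Prop := ∀ k : ℕ, VolFun k (busemann (k := k))

/-- the Holmes-Thompson density is a volume functional -/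
def S_ht : Prop := ∀ k : ℕ, VolFun k (holmesThompson (k := k))

/-- any two volume functionals are comparable -/
def S_cmp : Prop := ∀ (k : ℕ) (J₁ J₂ : Seminorm ℝ (Rn k) → ℝ≥0∞), VolFun k J₁ → VolFun k J₂ →
  ∃ C : ℝ≥0, ∀ N, IsNrm N → J₂ N ≤ C * J₁ N

/-- the Jacobian is a null Lagrangian -/
def S_ibp : Prop := ∀ (n : ℕ) (g : Rn (n + 1) → ℝ) (π : Fin n → Rn (n + 1) → ℝ), Lip g →
  HasCompactSupport g → (∀ i, Lip (π i)) →
  ∫ u, jac (Fin.cons g π : Fin (n + 1) → Rn (n + 1) → ℝ) u = 0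

/-- functions with bounded weak derivatives on a convex body are Lipschitz -/
def S_mol : Prop := ∀ (m : ℕ) (K : Set (Rn m)) (p : Seminorm ℝ (Rn m)) (H : Rn m → ℝ),
  IsCompact K → Convex ℝ K → (interior K).Nonempty → Measurable H → (∃ C, ∀ y, |H y| ≤ C) →
  (∀ (v : Rn m) (g : Rn m → ℝ), ContDiff ℝ ∞ g → HasCompactSupport g →
    tsupport g ⊆ interior K → (∀ y, 0 ≤ g y) →
    |∫ y, H y * fderiv ℝ g y v| ≤ p v * ∫ y, g y) →
  ∃ H' : Rn m → ℝ, (∀ x ∈ interior K, ∀ y ∈ interior K, |H' x - H' y| ≤ p (x - y)) ∧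
    ∀ᵐ x ∂(volume.restrict (interior K)), H' x = H x

/-- preimages of null sets under maps with nonzero Jacobian determinant -/
def S_null : Prop := ∀ (k : ℕ) (G : Rn k → Rn k) (G' : Rn k → Rn k →L[ℝ] Rn k)
  (s Z : Set (Rn k)), MeasurableSet s → volume Z = 0 →
  (∀ u ∈ s, HasFDerivWithinAt G (G' u) s u) →
  ∀ᵐ u ∂(volume.restrict s), G u ∈ Z → (G' u).det = 0

/-- change of variables for injective Lipschitz maps -/
def S_area : Prop := ∀ (k : ℕ) (τ : Rn k → Rn k) (s : Set (Rn k)) (g : Rn k → ℝ≥0∞),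
  (∃ C : ℝ≥0, LipschitzWith C τ) → MeasurableSet s → InjOn τ s → Measurable g →
  MeasurableSet (τ '' s) ∧
    ∫⁻ y in τ '' s, g y = ∫⁻ u in s, ENNReal.ofReal |(fderiv ℝ τ u).det| * g (τ u)

/-- a parametrisation of total multiplicity one is almost everywhere injective; functions of the
parameter factor through the map -/
def S_fac : Prop := ∀ (m : ℕ) (ι : Type) (_ : Countable ι) (A : ι → Set (Rn m))
  (Ψ : ι → Rn m → Rn m) (θ : ι → Rn m → ℤ) (K : Set (Rn m)) (h : ι → Rn m → ℝ),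
  (∀ i, MeasurableSet (A i)) → (∀ i, ∃ C : ℝ≥0, LipschitzWith C (Ψ i)) →
  (∀ i, Measurable (θ i)) → MeasurableSet K → volume K < ⊤ →
  (∀ B : Set (Rn m), MeasurableSet B →
    ∑' i, ∫⁻ u in A i ∩ Ψ i ⁻¹' B, ‖(θ i u : ℝ) * (fderiv ℝ (Ψ i) u).det‖ₑ = volume (B ∩ K)) →
  (∀ i, Measurable (h i)) → (∃ C, ∀ i u, |h i u| ≤ C) →
  ∃ H : Rn m → ℝ, Measurable H ∧ (∃ C, ∀ y, |H y| ≤ C) ∧
    ∀ i, ∀ᵐ u ∂(volume.restrict (A i)), θ i u ≠ 0 → (fderiv ℝ (Ψ i) u).det ≠ 0 →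
      H (Ψ i u) = h i u

/-- points of positive lower density belong to the support -/
def S_supp : Prop := ∀ (n : ℕ) (X : Type) (_ : MetricSpace X) (_ : MeasurableSpace X)
  (_ : BorelSpace X) (T : Fnl n X) (x : X), IsCurrent T → 0 < lowerDensity T x →
  ∀ r : ℝ, 0 < r → ∃ (f : X → ℝ) (π : Fin n → X → ℝ), BLip f ∧ (∀ i, Lip (π i)) ∧
    (∀ y, f y ≠ 0 → dist y x < r) ∧ T f π ≠ 0

/-- volume of small balls in a convex body -/
def S_vol : Prop := ∀ (m : ℕ) (K : Set (Rn m)) (p : Seminorm ℝ (Rn m)), IsCompact K →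
  Convex ℝ K → (interior K).Nonempty →
  ∃ c : ℝ, 0 < c ∧ ∀ y ∈ K, ∀ r : ℝ, 0 < r → r ≤ 1 →
    ENNReal.ofReal (c * r ^ m) ≤ volume (K ∩ {z | p (z - y) ≤ r})

/-- comparison of homogeneous functions at density points -/
def S_dens : Prop := ∀ (k : ℕ) (s : Set (Rn k)), MeasurableSet s →
  ∀ᵐ u ∂(volume.restrict s), ∀ a : Rn k → ℝ, Continuous a →
    (∀ (r : ℝ) (w : Rn k), 0 < r → a (r • w) = r * a w) →
    (∀ ε : ℝ, 0 < ε → ∀ᶠ w in 𝓝[s] u, a (w - u) ≤ ε * ‖w - u‖) → ∀ w, a w ≤ 0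

/-- decomposition of Lipschitz parametrisations into bi-Lipschitz ones -/
def S_pieces : Prop := ∀ (k m : ℕ) (p : Seminorm ℝ (Rn m)) (Y : Type) (_ : MetricSpace Y)
  (e : Y → Rn m) (J : Seminorm ℝ (Rn k) → ℝ≥0∞) (D : Param k Y) (T : Fnl k Y),
  IsNrm p → (∀ y y', dist y y' = p (e y - e y')) → VolFun k J →
  VolFun k (busemann (k := k)) → D.IsLip → D.cost busemann < ⊤ → D.Represents T →
  ∃ D' : Param k Y, D'.IsLip ∧ (∀ i, BiLipOn (D'.φ i) (D'.A i)) ∧ D'.Represents T ∧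
    D'.cost J ≤ D.cost J ∧ D'.cost busemann ≤ D.cost busemann

/-- bi-Lipschitz parametrisations can be made disjoint -/
def S_disj : Prop := ∀ (k : ℕ) (E : Type) (_ : MetricSpace E) (_ : MeasurableSpace E)
  (_ : BorelSpace E) (J : Seminorm ℝ (Rn k) → ℝ≥0∞) (D : Param k E) (T : Fnl k E),
  VolFun k J → VolFun k (busemann (k := k)) → D.IsLip → (∀ i, BiLipOn (D.φ i) (D.A i)) →
  D.cost busemann < ⊤ → D.Represents T → ∃ D' : Param k E, D'.IsRep T ∧ D'.cost J ≤ D.cost J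

end Pool.Agent.W674.LVF
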