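import Pool.Agent.W674.LVF.Body

/-! # The boundary of a convex body, and pushing forward representations -/

set_option autoImplicit false
set_option linter.unusedSectionVars false

open MeasureTheory Set Filter Topology
open scoped ENNReal NNReal
open Pool.Agent.W674.LVR

namespace Pool.Agent.W674.LVF

variable {m n : ℕ} {X Y : Type} [MetricSpace X] [MeasurableSpace X] [BorelSpace X]
  [MetricSpace Y] [MeasurableSpace Y] [BorelSpace Y]

/-- cut-off functions of an open set -/
noncomputable def cut (U : Set (Rn m)) (j : ℕ) (u : Rn m) : ℝ :=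
  min 1 (j * Metric.infDist u Uᶜ)

theorem cut_blip (U : Set (Rn m)) (j : ℕ) : BLip (cut U j) := by
  refine ⟨⟨j * 1, ?_⟩, 1, fun u => ?_⟩
  · refine LipschitzWith.const_min ?_ 1
    refine LipschitzWith.of_dist_le_mul fun u v => ?_
    have h1 := (Metric.lipschitz_infDist_pt (Uᶜ : Set (Rn m))).dist_le_mul u v
    rw [Real.dist_eq] at *
    rw [← mul_sub, abs_mul, Nat.abs_cast]
    push_cast at *
    rw [mul_assoc]
    exact mul_le_mul_of_nonneg_left h1 (Nat.cast_nonneg _)
  · unfold cut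
    rw [abs_of_nonneg]
    · exact min_le_left _ _
    · exact le_min zero_le_one (mul_nonneg (Nat.cast_nonneg _) Metric.infDist_nonneg)

theorem cut_le (U : Set (Rn m)) (j : ℕ) (u : Rn m) : |cut U j u| ≤ 1 := by
  unfold cut
  rw [abs_of_nonneg]
  · exact min_le_left _ _
  · exact le_min zero_le_one (mul_nonneg (Nat.cast_nonneg _) Metric.infDist_nonneg)

theorem cut_zero {U : Set (Rn m)} (j : ℕ) {u : Rn m} (hu : u ∉ U) : cut U j u = 0 := by
  unfold cut
  rw [Metric.infDist_zero_of_mem (show u ∈ Uᶜ from hu), mul_zero]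
  simp

theorem cut_tendsto {U : Set (Rn m)} (hU : IsOpen U) (hne : (Uᶜ : Set (Rn m)).Nonempty)
    (u : Rn m) : Tendsto (fun j => cut U j u) atTop (𝓝 (U.indicator (fun _ => (1 : ℝ)) u)) := by
  by_cases hu : u ∈ U
  · rw [indicator_of_mem hu]
    have hpos : 0 < Metric.infDist u Uᶜ := by
      rw [← hU.isClosed_compl.notMem_iff_infDist_pos hne]
      exact fun h => h hu
    obtain ⟨N, hN⟩ := exists_nat_gt (1 / Metric.infDist u Uᶜ)
    refine tendsto_const_nhds.congr' ?_
    filter_upwards [eventually_ge_atTop N] with j hj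
    unfold cut
    rw [min_eq_left]
    have h1 : (N : ℝ) ≤ j := by exact_mod_cast hj
    rw [div_lt_iff₀ hpos] at hN
    nlinarith
  · rw [indicator_of_notMem hu]
    refine tendsto_const_nhds.congr fun j => ?_
    rw [cut_zero j hu]

theorem lip_cons {E : Type} [PseudoMetricSpace E] {g : E → ℝ} (hg : Lip g) {π : Fin n → E → ℝ}
    (hπ : ∀ j, Lip (π j)) (j : Fin (n + 1)) : Lip ((Fin.cons g π : Fin (n + 1) → E → ℝ) j) := by
  refine Fin.cases ?_ (fun i => ?_) j
  · exact hg
  · exact hπ i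

/-- the boundary of the body vanishes in the interior -/
theorem IsBody.boundary_zero {p : Seminorm ℝ (Rn (n + 1))} {e : Y → Rn (n + 1)} (h : IsBody p e)
    (hd : S_dens) (hi : S_ibp) {χ : Rn (n + 1) → ℝ} (hχ : BLip χ)
    (h0 : ∀ u, u ∉ _root_.interior (range e) → χ u = 0) {g : Y → ℝ} (hg : BLip g)
    {π : Fin n → Y → ℝ} (hπ : ∀ j, Lip (π j)) :
    boundary (bodyCurrent e) (fun y => g y * χ (e y)) π = 0 := by
  obtain ⟨G, hG, hGe⟩ := h.exists_bext hg
  choose Q hQ hQe using fun j => h.exists_ext (hπ j)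
  set G1 : Rn (n + 1) → ℝ := fun u => G u * χ u with hG1
  have hG1b : BLip G1 := blip_mul hG hχ
  set P : Fin (n + 1) → Rn (n + 1) → ℝ := Fin.cons G1 Q with hP
  have hPl : ∀ j, Lip (P j) := lip_cons hG1b.1 hQ
  have hPe : ∀ (j : Fin (n + 1)) (y : Y),
      (Fin.cons (fun y => g y * χ (e y)) π : Fin (n + 1) → Y → ℝ) j y = P j (e y) := by
    intro j y
    refine Fin.cases ?_ (fun i => ?_) j
    · show g y * χ (e y) = G (e y) * χ (e y)
      rw [hGe]
    · show π i y = Q i (e y)
      exact hQe i y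
  have e1 : boundary (bodyCurrent e) (fun y => g y * χ (e y)) π = ∫ u in range e, jac P u := by
    unfold boundary bodyCurrent
    refine integral_congr_ae ?_
    filter_upwards [h.ae_jac hd hPl hPe, ae_restrict_mem h.measurableSet] with u h1 h2
    obtain ⟨y, rfl⟩ := h2
    rw [h1, h.exte_apply (fun _ => (1 : ℝ)), one_mul]
  rw [e1]
  have e2 : ∫ u in range e, jac P u = ∫ u, jac P u := by
    refine setIntegral_eq_integral_of_forall_compl_eq_zero fun u hu => ?_
    have hopen : IsOpen (range e)ᶜ := h.compact.isClosed.isOpen_compl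
    have h2 : G1 =ᶠ[𝓝 u] fun _ => 0 := by
      filter_upwards [hopen.mem_nhds hu] with v hv
      rw [hG1]
      simp only
      rw [h0 v (fun hvi => hv (_root_.interior_subset hvi)), mul_zero]
    unfold jac
    refine Matrix.det_eq_zero_of_row_eq_zero 0 fun j => ?_
    simp only [Matrix.of_apply]
    have h3 : P 0 = G1 := rfl
    rw [h3, h2.fderiv_eq]
    simp
  rw [e2]
  refine hi n G1 Q hG1b.1 ?_ hQ
  refine HasCompactSupport.of_support_subset_isCompact h.compact ?_
  intro u hu
  by_contra hcon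
  apply hu
  rw [hG1]
  simp only
  rw [h0 u (fun hvi => hcon (_root_.interior_subset hvi)), mul_zero]

theorem IsBody.compl_nonempty {p : Seminorm ℝ (Rn (n + 1))} {e : Y → Rn (n + 1)}
    (h : IsBody p e) : ((_root_.interior (range e))ᶜ : Set (Rn (n + 1))).Nonempty := by
  by_contra hcon
  rw [not_nonempty_iff_eq_empty, compl_empty_iff] at hcon
  have h1 : range e = univ := eq_univ_of_univ_subset (hcon ▸ _root_.interior_subset)
  have h2 := h.compact
  rw [h1] at h2
  exact noncompact_univ (Rn (n + 1)) h2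

/-- extension of the coordinates along the parametrisations -/
theorem exists_Psi {k : ℕ} {p : Seminorm ℝ (Rn m)} {e : Y → Rn m} (h : IsBody p e) {f : X → Y}
    (hf : LipschitzWith 1 f) {D : Param k X} (hD : D.IsLip) :
    ∃ Q : Fin m → D.ι → Rn k → ℝ, (∀ j i, Lip (Q j i)) ∧
      ∀ j i, ∀ u ∈ D.A i, e (f (D.φ i u)) j = Q j i u := by
  have hc : ∀ j, Lip (fun x => e (f x) j) := by
    intro j
    obtain ⟨C, hC⟩ := h.lip_coord j
    exact ⟨_, hC.comp hf⟩
  choose Q hQ hQe using fun j i => exists_ext (hD.lip i) (hc j)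
  exact ⟨Q, hQ, hQe⟩

/-- the vector valued extension -/
def vec {k : ℕ} (Q : Fin m → Rn k → ℝ) (u : Rn k) : Rn m := fun j => Q j u

theorem vec_diff {k : ℕ} {Q : Fin m → Rn k → ℝ} (hQ : ∀ j, Lip (Q j)) :
    ∀ᵐ u, DifferentiableAt ℝ (vec Q) u := by
  have h : ∀ᵐ u, ∀ j, DifferentiableAt ℝ (Q j) u := ae_all_iff.2 fun j => Lip.ae_diff (hQ j)
  filter_upwards [h] with u hu
  exact differentiableAt_pi.2 hu

theorem vec_lip {k : ℕ} {Q : Fin m → Rn k → ℝ} (hQ : ∀ j, Lip (Q j)) :
    ∃ C : ℝ≥0, LipschitzWith C (vec Q) := by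
  obtain ⟨L, -, hL⟩ := exists_common hQ
  refine ⟨L, LipschitzWith.of_dist_le_mul fun u v => ?_⟩
  rw [dist_pi_le_iff (by positivity)]
  exact fun j => (hL j).dist_le_mul u v

/-- the derivative of the coordinates is bounded by the metric derivative -/
theorem ae_Psi_le {k : ℕ} {p : Seminorm ℝ (Rn m)} {e : Y → Rn m} (h : IsBody p e)
    (hd : S_dens) {f : X → Y} (hf : LipschitzWith 1 f) {D : Param k X} (hD : D.IsLip) (i : D.ι)
    {Q : Fin m → Rn k → ℝ} (hQ : ∀ j, Lip (Q j))
    (hQe : ∀ j, ∀ u ∈ D.A i, e (f (D.φ i u)) j = Q j u) :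
    ∀ᵐ u ∂(volume.restrict (D.A i)), p.comp (fderiv ℝ (vec Q) u : Rn k →ₗ[ℝ] Rn m) ≤ D.N i u := by
  filter_upwards [ae_good hd (hD.measA i), hD.md i, ae_restrict_mem (hD.measA i),
    ae_restrict_of_ae (vec_diff hQ)] with u hg hm hu hdiff
  intro w
  have h1 := hg.le_of_isMD hm p (F := vec Q) hdiff.hasFDerivAt.hasFDerivWithinAt (L := 1) (by
    intro w hw
    have e1 : ∀ v ∈ D.A i, vec Q v = e (f (D.φ i v)) := by
      intro v hv
      ext j
      exact (hQe j v hv).symm
    rw [e1 w hw, e1 u hu, ← h.dist_eq]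
    exact hf.dist_le_mul _ _) w
  rw [one_mul] at h1
  exact h1

/-- the push-forward representation, restricted to the complement of the interior -/
noncomputable def Param.pushR {k : ℕ} (D : Param k X) (f : X → Y) (p : Seminorm ℝ (Rn m))
    (e : Y → Rn m) (Q : Fin m → D.ι → Rn k → ℝ) : Param k Y where
  ι := D.ι
  A := fun i => D.A i ∩ (fun u => e (f (D.φ i u))) ⁻¹' (interior (range e))ᶜ
  φ := fun i u => f (D.φ i u)
  θ := D.θ
  N := fun i u => p.comp (fderiv ℝ (vec fun j => Q j i) u : Rn k →ₗ[ℝ] Rn m)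

section

variable {k : ℕ} {p : Seminorm ℝ (Rn m)} {e : Y → Rn m} (h : IsBody p e) {f : X → Y}
  (hf : LipschitzWith 1 f) {D : Param k X} (hD : D.IsLip) {Q : Fin m → D.ι → Rn k → ℝ}
  (hQ : ∀ j i, Lip (Q j i)) (hQe : ∀ j i, ∀ u ∈ D.A i, e (f (D.φ i u)) j = Q j i u)

include h hf hD in
theorem contOn (i : D.ι) : ContinuousOn (fun u => e (f (D.φ i u))) (D.A i) := by
  obtain ⟨K, hK⟩ := hD.lip i
  obtain ⟨C, hC⟩ := h.lip_e
  exact (hC.continuous.comp hf.continuous).comp_continuousOn hK.continuousOn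

include h hf hD hQ hQe in
theorem pushR_isLip : (D.pushR f p e Q).IsLip := by
  refine ⟨hD.countable, fun i => ?_, fun i => ?_, hD.measθ, fun i w => ?_, fun i => ?_⟩
  · exact measurableSet_inter_preimage (contOn h hf hD i) (hD.measA i)
      isOpen_interior.measurableSet.compl
  · obtain ⟨K, hK⟩ := hD.lip i
    exact ⟨1 * K, (hf.comp_lipschitzOnWith hK).mono inter_subset_left⟩
  · exact (seminorm_continuous p).measurable.comp
      (measurable_fderiv_apply_const ℝ (vec fun j => Q j i) w)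
  · have hm : MeasurableSet (D.A i ∩ (fun u => e (f (D.φ i u))) ⁻¹' (interior (range e))ᶜ) :=
      measurableSet_inter_preimage (contOn h hf hD i) (hD.measA i)
        isOpen_interior.measurableSet.compl
    have h1 := ae_restrict_of_ae (μ := volume) (s := (D.pushR f p e Q).A i) (vec_diff (hQ · i))
    filter_upwards [h1, ae_restrict_mem hm] with u hu hu2
    refine isMD_of_hasFDerivWithinAt h.dist_eq ?_
    refine hu.hasFDerivAt.hasFDerivWithinAt.congr ?_ ?_
    · intro v hv
      ext j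
      exact hQe j i v hv.1
    · ext j
      exact hQe j i u hu2.1

include h hf hD hQ hQe in
theorem pushR_cost (hd : S_dens) {J : Seminorm ℝ (Rn k) → ℝ≥0∞} (hJ : VolFun k J) :
    (D.pushR f p e Q).cost J ≤
      ∫⁻ z, ((interior (range e))ᶜ).indicator 1 (e (f (D.φ z.1 z.2))) *
        (‖(D.θ z.1 z.2 : ℝ)‖ₑ * J (D.N z.1 z.2)) ∂D.μ := by
  rw [lintegral_om]
  refine ENNReal.tsum_le_tsum fun (i : D.ι) => ?_
  have hm : MeasurableSet (D.A i ∩ (fun u => e (f (D.φ i u))) ⁻¹' (interior (range e))ᶜ) :=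
      measurableSet_inter_preimage (contOn h hf hD i) (hD.measA i)
        isOpen_interior.measurableSet.compl
  have h1 := ae_Psi_le h hd hf hD i (hQ · i) (hQe · i)
  calc ∫⁻ u in (D.pushR f p e Q).A i, ‖((D.pushR f p e Q).θ i u : ℝ)‖ₑ *
        J ((D.pushR f p e Q).N i u)
      ≤ ∫⁻ u in D.A i ∩ (fun u => e (f (D.φ i u))) ⁻¹' (interior (range e))ᶜ,
        ((interior (range e))ᶜ).indicator 1 (e (f (D.φ i u))) *
        (‖(D.θ i u : ℝ)‖ₑ * J (D.N i u)) := by
        refine lintegral_mono_ae ?_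
        filter_upwards [ae_restrict_mem hm, ae_mono (Measure.restrict_mono inter_subset_left le_rfl)
          h1] with u hu hu2
        have hu' : e (f (D.φ i u)) ∈ (interior (range e))ᶜ := hu.2
        rw [indicator_of_mem hu', Pi.one_apply, one_mul]
        exact mul_le_mul' le_rfl (hJ.mono _ _ hu2)
    _ ≤ _ := lintegral_mono_set inter_subset_left

end

end Pool.Agent.W674.LVF
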