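import Pool.Agent.W674.LVF.Bd

/-! # The boundary current has no mass over the interior of the body -/

set_option autoImplicit false
set_option linter.unusedSectionVars false

open MeasureTheory Set Filter Topology
open scoped ENNReal NNReal
open Pool.Agent.W674.LVR

namespace Pool.Agent.W674.LVF

variable {n : ℕ} {X Y : Type} [MetricSpace X] [MeasurableSpace X] [BorelSpace X]
  [MetricSpace Y] [MeasurableSpace Y] [BorelSpace Y]
  {p : Seminorm ℝ (Rn (n + 1))} {e : Y → Rn (n + 1)}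

theorem aemeas_F {k : ℕ} (h : IsBody p e) {f : X → Y} (hf : LipschitzWith 1 f) {D : Param k X}
    (hD : D.IsLip) : AEMeasurable (fun z : D.ι × Rn k => e (f (D.φ z.1 z.2))) D.μ := by
  obtain ⟨C, hC⟩ := h.lip_e
  exact (hC.continuous.comp hf.continuous).measurable.comp_aemeasurable (aemeasurable_φ hD)

/-- the part over the interior vanishes -/
theorem interior_zero (h : IsBody p e) (hd : S_dens) (hi : S_ibp) {f : X → Y}
    (hf : LipschitzWith 1 f) {D : Param n X} (hD : D.IsLip)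
    {J : Seminorm ℝ (Rn n) → ℝ≥0∞} (hJ : VolFun n J) (hfin : D.cost J < ⊤)
    {S : Fnl n X} (hrep : D.Represents S)
    (hS : ∀ (g : Y → ℝ) (π : Fin n → Y → ℝ), BLip g → (∀ j, Lip (π j)) →
      S (fun x => g (f x)) (fun j x => π j (f x)) = boundary (bodyCurrent e) g π)
    {g : Y → ℝ} (hg : BLip g) {π : Fin n → Y → ℝ} (hπ : ∀ j, Lip (π j)) :
    ∫ z, (interior (range e)).indicator (fun _ => (1 : ℝ)) (e (f (D.φ z.1 z.2))) *
      (g (f (D.φ z.1 z.2)) * dens D (fun j x => π j (f x)) z) ∂D.μ = 0 := by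
  set U := interior (range e) with hU
  have hπf : ∀ j, Lip (fun x => π j (f x)) := fun j => by
    obtain ⟨K, hK⟩ := hπ j
    exact ⟨_, hK.comp hf⟩
  have hw := integrable_dens hd hJ hD hfin hπf
  obtain ⟨B, hB⟩ := hg.2
  have hgm : AEMeasurable (fun z : D.ι × Rn n => g (f (D.φ z.1 z.2))) D.μ :=
    (hg.measurable.comp hf.continuous.measurable).comp_aemeasurable (aemeasurable_φ hD)
  have hgw : Integrable (fun z => g (f (D.φ z.1 z.2)) * dens D (fun j x => π j (f x)) z) D.μ :=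
    hw.bdd_mul (c := B) hgm.aestronglyMeasurable (Filter.Eventually.of_forall fun z => hB _)
  have hFm := aemeas_F h hf hD
  have h0 : ∀ j : ℕ, ∫ z, cut U j (e (f (D.φ z.1 z.2))) *
      (g (f (D.φ z.1 z.2)) * dens D (fun j x => π j (f x)) z) ∂D.μ = 0 := by
    intro j
    have hq : BLip (fun y => g y * cut U j (e y)) := blip_mul hg (h.blip_comp (cut_blip U j))
    have hqf : BLip (fun x => g (f x) * cut U j (e (f x))) := by
      obtain ⟨⟨K, hK⟩, C, hC⟩ := hq
      exact ⟨⟨_, hK.comp hf⟩, C, fun x => hC _⟩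
    have e1 := hS _ π hq hπ
    rw [h.boundary_zero hd hi (cut_blip U j) (fun u hu => cut_zero j hu) hg hπ,
      Represents.eq_integral hd hJ hD hfin hrep hqf hπf] at e1
    rw [← e1]
    refine integral_congr_ae (Filter.Eventually.of_forall fun z => ?_)
    simp only
    ring
  have hlim : Tendsto (fun j : ℕ => ∫ z, cut U j (e (f (D.φ z.1 z.2))) *
      (g (f (D.φ z.1 z.2)) * dens D (fun j x => π j (f x)) z) ∂D.μ) atTop
      (𝓝 (∫ z, U.indicator (fun _ => (1 : ℝ)) (e (f (D.φ z.1 z.2))) *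
      (g (f (D.φ z.1 z.2)) * dens D (fun j x => π j (f x)) z) ∂D.μ)) := by
    refine tendsto_integral_of_dominated_convergence
      (fun z => ‖g (f (D.φ z.1 z.2)) * dens D (fun j x => π j (f x)) z‖) ?_ hgw.norm ?_ ?_
    · intro j
      refine AEStronglyMeasurable.mul ?_ hgw.1
      exact ((cut_blip U j).measurable.comp_aemeasurable hFm).aestronglyMeasurable
    · intro j
      refine Filter.Eventually.of_forall fun z => ?_
      rw [norm_mul]
      calc _ ≤ 1 * ‖g (f (D.φ z.1 z.2)) * dens D (fun j x => π j (f x)) z‖ := by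
            refine mul_le_mul_of_nonneg_right ?_ (norm_nonneg _)
            exact cut_le U j _
        _ = _ := one_mul _
    · refine Filter.Eventually.of_forall fun z => ?_
      exact (cut_tendsto isOpen_interior h.compl_nonempty _).mul_const _
  simp_rw [h0] at hlim
  exact (tendsto_nhds_unique hlim tendsto_const_nhds)

theorem pushR_represents (h : IsBody p e) (hd : S_dens) (hi : S_ibp) {f : X → Y}
    (hf : LipschitzWith 1 f) {D : Param n X} (hD : D.IsLip)
    {J : Seminorm ℝ (Rn n) → ℝ≥0∞} (hJ : VolFun n J) (hfin : D.cost J < ⊤)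
    {S : Fnl n X} (hrep : D.Represents S)
    (hS : ∀ (g : Y → ℝ) (π : Fin n → Y → ℝ), BLip g → (∀ j, Lip (π j)) →
      S (fun x => g (f x)) (fun j x => π j (f x)) = boundary (bodyCurrent e) g π)
    {Q : Fin (n + 1) → D.ι → Rn n → ℝ}
    (hQ : ∀ j i, Lip (Q j i)) (hQe : ∀ j i, ∀ u ∈ D.A i, e (f (D.φ i u)) j = Q j i u) :
    (D.pushR f p e Q).Represents (boundary (bodyCurrent e)) := by
  intro g π hg hπ
  have hz := interior_zero h hd hi hf hD hJ hfin hrep hS hg hπ
  set U := interior (range e) with hU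
  have hπf : ∀ j, Lip (fun x => π j (f x)) := fun j => by
    obtain ⟨K, hK⟩ := hπ j
    exact ⟨_, hK.comp hf⟩
  have hw := integrable_dens hd hJ hD hfin hπf
  obtain ⟨B, hB⟩ := hg.2
  have hgm : AEMeasurable (fun z : D.ι × Rn n => g (f (D.φ z.1 z.2))) D.μ :=
    (hg.measurable.comp hf.continuous.measurable).comp_aemeasurable (aemeasurable_φ hD)
  have hgw : Integrable (fun z => g (f (D.φ z.1 z.2)) * dens D (fun j x => π j (f x)) z) D.μ :=
    hw.bdd_mul (c := B) hgm.aestronglyMeasurable (Filter.Eventually.of_forall fun z => hB _)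
  have hFm := aemeas_F h hf hD
  have hgf : BLip (fun x => g (f x)) := by
    obtain ⟨⟨K, hK⟩, C, hC⟩ := hg
    exact ⟨⟨_, hK.comp hf⟩, C, fun x => hC _⟩
  have hUm : MeasurableSet U := isOpen_interior.measurableSet
  have hind : ∀ (W : Set (Rn (n + 1))), MeasurableSet W →
      Integrable (fun z => W.indicator (fun _ => (1 : ℝ)) (e (f (D.φ z.1 z.2))) *
      (g (f (D.φ z.1 z.2)) * dens D (fun j x => π j (f x)) z)) D.μ := by
    intro W hW
    refine hgw.bdd_mul (c := 1) ?_ (Filter.Eventually.of_forall fun z => ?_)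
    · exact ((measurable_const.indicator hW).comp_aemeasurable hFm).aestronglyMeasurable
    · by_cases hz : e (f (D.φ z.1 z.2)) ∈ W
      · rw [indicator_of_mem hz]
        simp
      · rw [indicator_of_notMem hz]
        simp
  have e1 : boundary (bodyCurrent e) g π =
      ∫ z, Uᶜ.indicator (fun _ => (1 : ℝ)) (e (f (D.φ z.1 z.2))) *
      (g (f (D.φ z.1 z.2)) * dens D (fun j x => π j (f x)) z) ∂D.μ := by
    rw [← hS g π hg hπ, Represents.eq_integral hd hJ hD hfin hrep hgf hπf]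
    have e2 := integral_add (hind U hUm) (hind Uᶜ hUm.compl)
    rw [hz, zero_add] at e2
    rw [← e2]
    refine integral_congr_ae (Filter.Eventually.of_forall fun z => ?_)
    simp only
    by_cases hz : e (f (D.φ z.1 z.2)) ∈ U
    · rw [indicator_of_mem hz, indicator_of_notMem (show e (f (D.φ z.1 z.2)) ∉ Uᶜ from fun h' => h' hz)]
      ring
    · rw [indicator_of_notMem hz, indicator_of_mem (show _ ∈ Uᶜ from hz)]
      ring
  rw [e1]
  refine HasSum.congr_fun (hasSum_om D (hind Uᶜ hUm.compl)) fun (i : D.ι) => ?_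
  choose R hR hRe using fun j => exists_ext (hD.lip i) (hπf j)
  have hDr := pushR_isLip h hf hD hQ hQe
  have hm : MeasurableSet ((D.pushR f p e Q).A i) := hDr.measA i
  have hsub : (D.pushR f p e Q).A i ⊆ D.A i := inter_subset_left
  have j1 := ae_jac hd hD i hπf hR hRe
  have j2 := ae_jac hd hDr i hπ hR (fun j u hu => hRe j u (hsub hu))
  have s1 : ∫ u in (D.pushR f p e Q).A i, ((D.pushR f p e Q).θ i u : ℝ) *
      g ((D.pushR f p e Q).φ i u) *
      jacW ((D.pushR f p e Q).A i) (fun j => π j ∘ (D.pushR f p e Q).φ i) u =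
      ∫ u in (D.pushR f p e Q).A i, g (f (D.φ i u)) * dens D (fun j x => π j (f x)) (i, u) := by
    refine integral_congr_ae ?_
    filter_upwards [j2, ae_mono (Measure.restrict_mono hsub le_rfl) j1] with u h1 h2
    rw [h1]
    unfold dens
    have h3 : jacW (D.A i) (fun j => (fun x => π j (f x)) ∘ D.φ i) u = jac R u := h2
    simp only
    rw [h3]
    show (D.θ i u : ℝ) * g (f (D.φ i u)) * jac R u = _
    ring
  rw [s1]
  have s2 : ∫ u in (D.pushR f p e Q).A i,
      g (f (D.φ i u)) * dens D (fun j x => π j (f x)) (i, u) =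
      ∫ u in D.A i, ((D.pushR f p e Q).A i).indicator
        (fun u => g (f (D.φ i u)) * dens D (fun j x => π j (f x)) (i, u)) u := by
    rw [integral_indicator hm, Measure.restrict_restrict_of_subset hsub]
  rw [s2]
  refine setIntegral_congr_fun (hD.measA i) fun u hu => ?_
  by_cases hW : e (f (D.φ i u)) ∈ Uᶜ
  · have hu' : u ∈ (D.pushR f p e Q).A i := ⟨hu, hW⟩
    simp only
    rw [indicator_of_mem hu', indicator_of_mem hW, one_mul]
  · have hu' : u ∉ (D.pushR f p e Q).A i := fun h => hW h.2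
    simp only
    rw [indicator_of_notMem hu', indicator_of_notMem hW, zero_mul]

theorem theta_zero (h : IsBody p e) (hd : S_dens) {f : X → Y}
    (hf : LipschitzWith 1 f) {D : Param n X} (hD : D.IsLip) (hbi : ∀ i, BiLipOn (D.φ i) (D.A i))
    {J : Seminorm ℝ (Rn n) → ℝ≥0∞} (hJ : VolFun n J) (hfin : D.cost J < ⊤)
    {Q : Fin (n + 1) → D.ι → Rn n → ℝ}
    (hQ : ∀ j i, Lip (Q j i)) (hQe : ∀ j i, ∀ u ∈ D.A i, e (f (D.φ i u)) j = Q j i u)
    (hle : D.cost J ≤ (D.pushR f p e Q).cost J) :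
    ∀ᵐ z ∂D.μ, e (f (D.φ z.1 z.2)) ∈ interior (range e) → D.θ z.1 z.2 = 0 := by
  set U := interior (range e) with hU
  have hUm : MeasurableSet U := isOpen_interior.measurableSet
  have hFm := aemeas_F h hf hD
  have hcm : AEMeasurable (fun z : D.ι × Rn n => ‖(D.θ z.1 z.2 : ℝ)‖ₑ * J (D.N z.1 z.2)) D.μ :=
    (((measurable_of_countable (fun z : ℤ => ‖(z : ℝ)‖ₑ)).comp (measurable_θ hD)).mul
        (measurable_N hD hJ)).aemeasurable
  have hindm : ∀ W : Set (Rn (n + 1)), MeasurableSet W →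
      AEMeasurable (fun z : D.ι × Rn n => W.indicator (1 : Rn (n + 1) → ℝ≥0∞)
        (e (f (D.φ z.1 z.2))) * (‖(D.θ z.1 z.2 : ℝ)‖ₑ * J (D.N z.1 z.2))) D.μ := by
    intro W hW
    exact ((measurable_one.indicator hW).comp_aemeasurable hFm).mul hcm
  have e1 : D.cost J = (∫⁻ z, U.indicator 1 (e (f (D.φ z.1 z.2))) *
        (‖(D.θ z.1 z.2 : ℝ)‖ₑ * J (D.N z.1 z.2)) ∂D.μ) +
      ∫⁻ z, Uᶜ.indicator 1 (e (f (D.φ z.1 z.2))) *
        (‖(D.θ z.1 z.2 : ℝ)‖ₑ * J (D.N z.1 z.2)) ∂D.μ := by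
    rw [cost_om, ← lintegral_add_left' (hindm U hUm)]
    refine lintegral_congr fun z => ?_
    by_cases hz : e (f (D.φ z.1 z.2)) ∈ U
    · rw [indicator_of_mem hz, indicator_of_notMem (show e (f (D.φ z.1 z.2)) ∉ Uᶜ from fun h' => h' hz)]
      simp
    · rw [indicator_of_notMem hz, indicator_of_mem (show _ ∈ Uᶜ from hz)]
      simp
  have h2 := pushR_cost h hf hD hQ hQe hd hJ
  set a := ∫⁻ z, U.indicator 1 (e (f (D.φ z.1 z.2))) *
        (‖(D.θ z.1 z.2 : ℝ)‖ₑ * J (D.N z.1 z.2)) ∂D.μ with ha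
  set b := ∫⁻ z, Uᶜ.indicator 1 (e (f (D.φ z.1 z.2))) *
        (‖(D.θ z.1 z.2 : ℝ)‖ₑ * J (D.N z.1 z.2)) ∂D.μ with hb
  have hb' : b ≠ ⊤ := (lt_of_le_of_lt (by rw [e1]; exact le_add_self) hfin).ne
  have h3 : a + b ≤ 0 + b := by
    rw [← e1, zero_add]
    exact hle.trans h2
  have h4 : a ≤ 0 := (ENNReal.add_le_add_iff_right hb').1 h3
  have h5 : a = 0 := le_antisymm h4 bot_le
  rw [ha, lintegral_eq_zero_iff' (hindm U hUm)] at h5
  have hgood : ∀ᵐ z ∂D.μ, IsNrm (D.N z.1 z.2) := by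
    rw [ae_om D hD.countable]
    intro i
    filter_upwards [ae_good hd (hD.measA i), hD.md i, ae_restrict_mem (hD.measA i)] with u g1 g2 g3
    exact g1.isNrm g3 g2 (hbi i)
  filter_upwards [h5, hgood] with z hz hn hzU
  rw [Pi.zero_apply, indicator_of_mem hzU, Pi.one_apply, one_mul, mul_eq_zero] at hz
  rcases hz with hz | hz
  · rw [enorm_eq_zero] at hz
    exact_mod_cast hz
  · exact absurd hz (hJ.pos _ hn).ne'

/-- the boundary functional vanishes on functions supported over the interior -/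
theorem bv (hd : S_dens) {f : X → Y} {D : Param n X} (hD : D.IsLip)
    {J : Seminorm ℝ (Rn n) → ℝ≥0∞} (hJ : VolFun n J) (hfin : D.cost J < ⊤)
    {S : Fnl n X} (hrep : D.Represents S)
    (hz : ∀ᵐ z ∂D.μ, e (f (D.φ z.1 z.2)) ∈ interior (range e) → D.θ z.1 z.2 = 0)
    {q : X → ℝ} (hq : BLip q) (hq0 : ∀ x, q x ≠ 0 → e (f x) ∈ interior (range e))
    {π : Fin n → X → ℝ} (hπ : ∀ j, Lip (π j)) : S q π = 0 := by
  rw [Represents.eq_integral hd hJ hD hfin hrep hq hπ]
  refine integral_eq_zero_of_ae ?_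
  filter_upwards [hz] with z hz
  by_cases h0 : q (D.φ z.1 z.2) = 0
  · simp [h0]
  · unfold dens
    rw [hz (hq0 _ h0)]
    simp

end Pool.Agent.W674.LVF
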