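import Pool.Agent.W674.LVF.Cost2

/-! # The current of integration over a convex body in a normed space -/

set_option autoImplicit false
set_option linter.unusedSectionVars false

open MeasureTheory Set Filter Topology
open scoped ENNReal NNReal
open Pool.Agent.W674.LVR

namespace Pool.Agent.W674.LVF

variable {m : ℕ} {Y : Type}

open Classical in
/-- a function on `Y` in the coordinates `e`, extended by `0` -/
noncomputable def exte (e : Y → Rn m) (q : Y → ℝ) (u : Rn m) : ℝ :=
  if h : ∃ y, e y = u then q h.choose else 0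

/-- the current of integration over the range of `e`:
`T(g, π) = ∫_{e(Y)} g(y) det D(π)(y) dy` in the coordinates `e` -/
noncomputable def bodyCurrent (e : Y → Rn m) : Fnl m Y := fun g π =>
  ∫ u in range e, exte e g u * jacW (range e) (fun j => exte e (π j)) u

/-- `e` is an isometry of `Y` onto a convex body of `ℝᵐ` with the norm `p` -/
structure IsBody [MetricSpace Y] (p : Seminorm ℝ (Rn m)) (e : Y → Rn m) : Prop where
  nrm : IsNrm p
  dist_eq : ∀ y y', dist y y' = p (e y - e y')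
  compact : IsCompact (range e)
  convex : Convex ℝ (range e)
  interior : (interior (range e)).Nonempty

theorem nrm_lower {p : Seminorm ℝ (Rn m)} (hp : IsNrm p) : ∃ C : ℝ, 0 < C ∧
    ∀ w, ‖w‖ ≤ C * p w := by
  rcases subsingleton_or_nontrivial (Rn m) with h | h
  · refine ⟨1, one_pos, fun w => ?_⟩
    have : w = 0 := Subsingleton.elim _ _
    simp [this]
  have hs : IsCompact (Metric.sphere (0 : Rn m) 1) := isCompact_sphere 0 1
  have hne : (Metric.sphere (0 : Rn m) 1).Nonempty := NormedSpace.sphere_nonempty.2 zero_le_one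
  obtain ⟨w0, hw0, hmin⟩ := hs.exists_isMinOn hne (seminorm_continuous p).continuousOn
  have hw0n : ‖w0‖ = 1 := by simpa using hw0
  have hpos : 0 < p w0 := by
    refine lt_of_le_of_ne (apply_nonneg p w0) fun h0 => ?_
    have := hp w0 h0.symm
    rw [this, norm_zero] at hw0n
    exact zero_ne_one hw0n
  refine ⟨(p w0)⁻¹, by positivity, fun w => ?_⟩
  rcases eq_or_ne w 0 with rfl | hw
  · simp
  have hwn : 0 < ‖w‖ := norm_pos_iff.2 hw
  have h1 : ‖w‖⁻¹ • w ∈ Metric.sphere (0 : Rn m) 1 := by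
    simp [norm_smul, hwn.ne']
  have h2 : p w0 ≤ p (‖w‖⁻¹ • w) := hmin h1
  rw [map_smul_eq_mul, norm_inv, norm_norm, ← div_eq_inv_mul, le_div_iff₀ hwn] at h2
  rw [inv_mul_eq_div, le_div_iff₀ hpos, mul_comm]
  exact h2

section

variable [MetricSpace Y] {p : Seminorm ℝ (Rn m)} {e : Y → Rn m}

theorem IsBody.inj (h : IsBody p e) : Function.Injective e := by
  intro y y' hy
  have := h.dist_eq y y'
  rw [hy, sub_self, map_zero] at this
  exact dist_eq_zero.1 this

theorem IsBody.exte_apply (h : IsBody p e) (q : Y → ℝ) (y : Y) : exte e q (e y) = q y := by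
  unfold exte
  have hex : ∃ y', e y' = e y := ⟨y, rfl⟩
  rw [dif_pos hex]
  congr 1
  exact h.inj hex.choose_spec

theorem IsBody.measurableSet (h : IsBody p e) : MeasurableSet (range e) :=
  h.compact.isClosed.measurableSet

theorem IsBody.volume_lt_top (h : IsBody p e) : volume (range e) < ⊤ := h.compact.measure_lt_top

theorem IsBody.lip_e (h : IsBody p e) : ∃ C : ℝ≥0, LipschitzWith C e := by
  obtain ⟨C, hC, hb⟩ := nrm_lower h.nrm
  refine ⟨C.toNNReal, LipschitzWith.of_dist_le_mul fun y y' => ?_⟩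
  rw [dist_eq_norm, h.dist_eq, Real.coe_toNNReal _ hC.le]
  exact hb _

theorem IsBody.lip_coord (h : IsBody p e) (j : Fin m) : Lip (fun y => e y j) := by
  obtain ⟨C, hC⟩ := h.lip_e
  refine ⟨C, LipschitzWith.of_dist_le_mul fun y y' => ?_⟩
  exact (dist_le_pi_dist (e y) (e y') j).trans (hC.dist_le_mul y y')

theorem IsBody.lip_comp (h : IsBody p e) {q : Rn m → ℝ} (hq : Lip q) : Lip (fun y => q (e y)) := by
  obtain ⟨C, hC⟩ := h.lip_e
  obtain ⟨L, hL⟩ := hq
  exact ⟨_, hL.comp hC⟩

theorem IsBody.blip_comp (h : IsBody p e) {q : Rn m → ℝ} (hq : BLip q) :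
    BLip (fun y => q (e y)) :=
  ⟨h.lip_comp hq.1, hq.2.imp fun _ hB y => hB _⟩

theorem IsBody.exists_ext (h : IsBody p e) {q : Y → ℝ} (hq : Lip q) :
    ∃ Q : Rn m → ℝ, Lip Q ∧ ∀ y, q y = Q (e y) := by
  obtain ⟨L, hL⟩ := hq
  obtain ⟨C, hC, hb⟩ := seminorm_bound p
  have hon : LipschitzOnWith (L * C.toNNReal) (exte e q) (range e) := by
    refine LipschitzOnWith.of_dist_le_mul ?_
    rintro _ ⟨y, rfl⟩ _ ⟨y', rfl⟩
    rw [h.exte_apply, h.exte_apply]
    refine (hL.dist_le_mul y y').trans ?_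
    rw [h.dist_eq, dist_eq_norm]
    push_cast
    rw [Real.coe_toNNReal _ hC.le, mul_assoc]
    exact mul_le_mul_of_nonneg_left (hb _) L.2
  obtain ⟨Q, hQ, hQe⟩ := hon.extend_real
  refine ⟨Q, ⟨_, hQ⟩, fun y => ?_⟩
  rw [← hQe ⟨y, rfl⟩, h.exte_apply]

/-- clamping -/
theorem clamp_blip {E : Type} [PseudoMetricSpace E] {Q : E → ℝ} (hQ : Lip Q) (B : ℝ) (hB : 0 ≤ B) :
    BLip (fun x => max (-B) (min B (Q x))) := by
  obtain ⟨L, hL⟩ := hQ
  refine ⟨⟨L, (hL.const_min B).const_max (-B)⟩, B, fun x => ?_⟩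
  rw [abs_le]
  exact ⟨le_max_left _ _, max_le (by linarith) (min_le_left _ _)⟩

theorem clamp_eq {a B : ℝ} (h : |a| ≤ B) : max (-B) (min B a) = a := by
  rw [abs_le] at h
  rw [min_eq_right h.2, max_eq_right h.1]

theorem IsBody.exists_bext (h : IsBody p e) {q : Y → ℝ} (hq : BLip q) :
    ∃ Q : Rn m → ℝ, BLip Q ∧ ∀ y, q y = Q (e y) := by
  obtain ⟨hq1, B, hB⟩ := hq
  obtain ⟨Q, hQ, hQe⟩ := h.exists_ext hq1
  refine ⟨_, clamp_blip hQ (max B 0) (le_max_right _ _), fun y => ?_⟩
  rw [← hQe, clamp_eq ((hB y).trans (le_max_left _ _))]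

theorem blip_mul {E : Type} [PseudoMetricSpace E] {f g : E → ℝ} (hf : BLip f) (hg : BLip g) :
    BLip (fun x => f x * g x) := by
  obtain ⟨⟨K, hK⟩, B, hB⟩ := hf
  obtain ⟨⟨L, hL⟩, C, hC⟩ := hg
  refine ⟨⟨B.toNNReal * L + C.toNNReal * K, LipschitzWith.of_dist_le_mul fun x y => ?_⟩,
    B * C, fun x => ?_⟩
  · have h1 := hK.dist_le_mul x y
    have h2 := hL.dist_le_mul x y
    rw [Real.dist_eq] at *
    have : f x * g x - f y * g y = f x * (g x - g y) + g y * (f x - f y) := by ring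
    rw [this]
    have hB0 : 0 ≤ B := (abs_nonneg _).trans (hB x)
    have hC0 : 0 ≤ C := (abs_nonneg _).trans (hC x)
    push_cast
    rw [Real.coe_toNNReal _ hB0, Real.coe_toNNReal _ hC0]
    calc _ ≤ |f x| * |g x - g y| + |g y| * |f x - f y| := by
          rw [← abs_mul, ← abs_mul]
          exact abs_add_le _ _
      _ ≤ B * (L * dist x y) + C * (K * dist x y) := by
          gcongr
          · exact hB x
          · exact hC y
      _ = _ := by ring
  · rw [abs_mul]
    exact mul_le_mul (hB x) (hC x) (abs_nonneg _) ((abs_nonneg _).trans (hB x))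

/-- the Jacobian within the body -/
theorem IsBody.ae_jac (h : IsBody p e) (hd : S_dens) {π : Fin m → Y → ℝ} {Q : Fin m → Rn m → ℝ}
    (hQ : ∀ j, Lip (Q j)) (hπQ : ∀ j y, π j y = Q j (e y)) :
    ∀ᵐ u ∂(volume.restrict (range e)), jacW (range e) (fun j => exte e (π j)) u = jac Q u := by
  have hdiff : ∀ᵐ u, ∀ j, DifferentiableAt ℝ (Q j) u := ae_all_iff.2 fun j => Lip.ae_diff (hQ j)
  filter_upwards [ae_good hd h.measurableSet, ae_restrict_mem h.measurableSet,
    ae_restrict_of_ae hdiff] with u h1 h2 h3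
  unfold jacW jac
  congr 1
  ext a b
  simp only [Matrix.of_apply]
  rw [h1.fderivWithin_eq (f := exte e (π a)) (Q := Q a) h2 ?_ (h3 a)]
  rintro _ ⟨y, rfl⟩
  rw [h.exte_apply, hπQ]

theorem jac_id (u : Rn m) : jac (fun j v => v j) u = 1 := by
  unfold jac
  have h2 : (Matrix.of fun i j => fderiv ℝ (fun v : Rn m => v i) u (Pi.single j 1)) =
      (1 : Matrix (Fin m) (Fin m) ℝ) := by
    ext a b
    simp only [Matrix.of_apply]
    have : fderiv ℝ (fun v : Rn m => v a) u = ContinuousLinearMap.proj a :=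
      (ContinuousLinearMap.proj (R := ℝ) (φ := fun _ : Fin m => ℝ) a).fderiv
    rw [this]
    simp [Matrix.one_apply, Pi.single_apply]
  rw [h2, Matrix.det_one]

/-- integration of functions -/
theorem IsBody.body_coord (h : IsBody p e) (hd : S_dens) (q : Rn m → ℝ) :
    bodyCurrent e (fun y => q (e y)) (fun j y => e y j) = ∫ u in range e, q u := by
  unfold bodyCurrent
  refine integral_congr_ae ?_
  have hQ : ∀ j : Fin m, Lip (fun u : Rn m => u j) := fun j =>
    ⟨1, LipschitzWith.of_dist_le_mul fun u v => by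
      rw [NNReal.coe_one, one_mul]
      exact dist_le_pi_dist u v j⟩
  filter_upwards [h.ae_jac hd (π := fun j y => e y j) (Q := fun j u => u j) hQ fun j y => rfl,
    ae_restrict_mem h.measurableSet] with u h1 h2
  obtain ⟨y, rfl⟩ := h2
  rw [h1, jac_id, h.exte_apply, mul_one]

end

end Pool.Agent.W674.LVF
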