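import Pool.Agent.W674.LVF.Ext

/-! # Extension of functionals from Lipschitz to Borel functions -/

set_option autoImplicit false
set_option linter.unusedSectionVars false

open MeasureTheory Set Filter Topology
open scoped ENNReal NNReal
open Pool.Agent.W674.LVR

namespace Pool.Agent.W674.LVF

section

variable {E : Type} [PseudoMetricSpace E] [MeasurableSpace E] [BorelSpace E]

theorem blip_approx {F : Set E} (hF : IsClosed F) : ∃ f : ℕ → E → ℝ, (∀ n, BLip (f n)) ∧
    (∀ n x, |f n x| ≤ 1) ∧
    ∀ x, Tendsto (fun n => f n x) atTop (𝓝 (F.indicator (fun _ => (1 : ℝ)) x)) := by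
  set δ : ℕ → ℝ := fun n => 1 / ((n : ℝ) + 1) with hδ
  have δpos : ∀ n, 0 < δ n := fun n => by positivity
  have δlim : Tendsto δ atTop (𝓝 0) := tendsto_one_div_add_atTop_nhds_zero_nat
  have fb : ∀ n x, |(thickenedIndicator (δpos n) F x : ℝ)| ≤ 1 := by
    intro n x
    rw [abs_of_nonneg (NNReal.coe_nonneg _)]
    exact_mod_cast thickenedIndicator_le_one (δpos n) F x
  refine ⟨fun n x => (thickenedIndicator (δpos n) F x : ℝ), fun n => ?_, fb, fun x => ?_⟩
  · refine ⟨⟨(δ n).toNNReal⁻¹, ?_⟩, 1, fb n⟩
    have h1 := lipschitzWith_thickenedIndicator (δpos n) F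
    refine LipschitzWith.of_dist_le_mul fun x y => ?_
    exact h1.dist_le_mul x y
  · have h1 := thickenedIndicator_tendsto_indicator_closure δpos δlim F
    rw [tendsto_pi_nhds] at h1
    have h2 := (NNReal.continuous_coe.tendsto _).comp (h1 x)
    rw [hF.closure_eq] at h2
    have h3 : ((F.indicator (fun _ => (1 : ℝ≥0)) x : ℝ≥0) : ℝ) =
        F.indicator (fun _ => (1 : ℝ)) x := by
      by_cases hx : x ∈ F <;> simp [hx]
    rw [h3] at h2
    exact h2

theorem _root_.Pool.Agent.W674.LVR.BLip.measurable {f : E → ℝ} (h : BLip f) : Measurable f :=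
  h.1.choose_spec.continuous.measurable

theorem ext_blip {μ ν : Measure E} [IsFiniteMeasure μ] [IsFiniteMeasure ν]
    (h : ∀ f : E → ℝ, BLip f → ∫ x, f x ∂μ = ∫ x, f x ∂ν) : μ = ν := by
  have key : ∀ F : Set E, IsClosed F → μ F = ν F := by
    intro F hF
    obtain ⟨f, fl, fb, flim⟩ := blip_approx hF
    have lim : ∀ κ : Measure E, IsFiniteMeasure κ →
        Tendsto (fun n => ∫ x, f n x ∂κ) atTop (𝓝 (κ.real F)) := by
      intro κ hκ
      have : κ.real F = ∫ x, F.indicator (fun _ => (1 : ℝ)) x ∂κ := by
        rw [integral_indicator hF.measurableSet]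
        simp
      rw [this]
      refine tendsto_integral_of_dominated_convergence (fun _ => 1) ?_ ?_ ?_ ?_
      · exact fun n => (fl n).measurable.aestronglyMeasurable
      · exact integrable_const _
      · exact fun n => Filter.Eventually.of_forall fun x => fb n x
      · exact Filter.Eventually.of_forall flim
    have h1 := (lim μ inferInstance).congr fun n => h _ (fl n)
    have h2 := tendsto_nhds_unique h1 (lim ν inferInstance)
    rw [Measure.real, Measure.real,
      ENNReal.toReal_eq_toReal_iff' (measure_ne_top _ _) (measure_ne_top _ _)] at h2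
    exact h2
  refine ext_of_generate_finite _ ?_ isPiSystem_isClosed key (key univ isClosed_univ)
  rw [BorelSpace.measurable_eq (α := E), borel_eq_generateFrom_isClosed]

end

section

variable {Ω Ω' E : Type} [MeasurableSpace Ω] [MeasurableSpace Ω'] [PseudoMetricSpace E]
  [MeasurableSpace E] [BorelSpace E]

/-- the push-forward of the positive part of `w μ` -/
noncomputable def ppos (F : Ω → E) (μ : Measure Ω) (w : Ω → ℝ) : Measure E :=
  (μ.withDensity (fun x => ENNReal.ofReal (w x))).map F

theorem ppos_finite {F : Ω → E} {μ : Measure Ω} {w : Ω → ℝ} (hw : Integrable w μ) :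
    IsFiniteMeasure (ppos F μ w) := by
  unfold ppos
  have : IsFiniteMeasure (μ.withDensity (fun x => ENNReal.ofReal (w x))) := by
    refine isFiniteMeasure_withDensity ?_
    exact (lt_of_le_of_lt (lintegral_mono fun x => Real.ofReal_le_enorm _) hw.2).ne
  infer_instance

theorem integral_ppos {F : Ω → E} {μ : Measure Ω} {w : Ω → ℝ} (hF : AEMeasurable F μ)
    (hw : Integrable w μ) {g : E → ℝ} (hg : Measurable g) :
    ∫ x, g x ∂(ppos F μ w) = ∫ x, g (F x) * max (w x) 0 ∂μ := by
  unfold ppos
  rw [integral_map (hF.mono_ac (withDensity_absolutelyContinuous _ _)) hg.aestronglyMeasurable,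
    integral_withDensity_eq_integral_toReal_smul₀]
  · refine integral_congr_ae (Filter.Eventually.of_forall fun x => ?_)
    simp only [smul_eq_mul, ENNReal.toReal_ofReal']
    ring
  · exact hw.1.aemeasurable.ennreal_ofReal
  · exact Filter.Eventually.of_forall fun x => ENNReal.ofReal_lt_top

theorem integral_sub_ppos {F : Ω → E} {μ : Measure Ω} {w : Ω → ℝ} (hF : AEMeasurable F μ)
    (hw : Integrable w μ) {g : E → ℝ} (hg : Measurable g) {B : ℝ} (hB : ∀ x, |g x| ≤ B) :
    ∫ x, g (F x) * w x ∂μ =
      ∫ x, g x ∂(ppos F μ w) - ∫ x, g x ∂(ppos F μ (fun x => -w x)) := by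
  have e2 := integral_ppos hF (w := fun x => -w x) hw.neg hg
  rw [integral_ppos hF hw hg, e2, ← integral_sub]
  · refine integral_congr_ae (Filter.Eventually.of_forall fun x => ?_)
    simp only
    rcases le_total 0 (w x) with h | h
    · rw [max_eq_left h, max_eq_right (by linarith)]
      ring
    · rw [max_eq_right h, max_eq_left (by linarith)]
      ring
  · refine Integrable.bdd_mul (c := B) hw.pos_part ?_ (Filter.Eventually.of_forall fun x => hB _)
    exact (hg.comp_aemeasurable hF).aestronglyMeasurable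
  · refine Integrable.bdd_mul (c := B) hw.neg.pos_part ?_
      (Filter.Eventually.of_forall fun x => hB _)
    exact (hg.comp_aemeasurable hF).aestronglyMeasurable

theorem borel_ext {μ : Measure Ω} {μ' : Measure Ω'} {F : Ω → E} {F' : Ω' → E}
    (hF : AEMeasurable F μ) (hF' : AEMeasurable F' μ') {w : Ω → ℝ} {w' : Ω' → ℝ}
    (hw : Integrable w μ) (hw' : Integrable w' μ')
    (h : ∀ f : E → ℝ, BLip f → ∫ x, f (F x) * w x ∂μ = ∫ x, f (F' x) * w' x ∂μ')
    {g : E → ℝ} (hg : Measurable g) {B : ℝ} (hB : ∀ x, |g x| ≤ B) :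
    ∫ x, g (F x) * w x ∂μ = ∫ x, g (F' x) * w' x ∂μ' := by
  have f1 := ppos_finite (F := F) hw
  have f2 := ppos_finite (F := F) (w := fun x => -w x) hw.neg
  have f3 := ppos_finite (F := F') hw'
  have f4 := ppos_finite (F := F') (w := fun x => -w' x) hw'.neg
  have hi : ∀ {q : E → ℝ} (_ : Measurable q) {C : ℝ} (_ : ∀ x, |q x| ≤ C) (κ : Measure E)
      [IsFiniteMeasure κ], Integrable q κ := by
    intro q hq C hC κ _
    exact Integrable.of_bound hq.aestronglyMeasurable C (Filter.Eventually.of_forall hC)
  have key : ppos F μ w + ppos F' μ' (fun x => -w' x) =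
      ppos F' μ' w' + ppos F μ (fun x => -w x) := by
    refine ext_blip fun f hf => ?_
    obtain ⟨C, hC⟩ := hf.2
    rw [integral_add_measure (hi hf.measurable hC _) (hi hf.measurable hC _),
      integral_add_measure (hi hf.measurable hC _) (hi hf.measurable hC _)]
    have e := h f hf
    rw [integral_sub_ppos hF hw hf.measurable hC, integral_sub_ppos hF' hw' hf.measurable hC] at e
    linarith
  have e := congrArg (fun κ : Measure E => ∫ x, g x ∂κ) key
  rw [integral_add_measure (hi hg hB _) (hi hg hB _),
    integral_add_measure (hi hg hB _) (hi hg hB _)] at e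
  rw [integral_sub_ppos hF hw hg hB, integral_sub_ppos hF' hw' hg hB]
  linarith

end

end Pool.Agent.W674.LVF
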