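import Pool.Agent.W674.LVF.Weak

/-! # Rigidity from the case of equality -/

set_option autoImplicit false
set_option linter.unusedSectionVars false

open MeasureTheory Set Filter Topology
open scoped ENNReal NNReal ContDiff
open Pool.Agent.W674.LVR

namespace Pool.Agent.W674.LVF

variable {n : ℕ} {X Y : Type} [MetricSpace X] [MeasurableSpace X] [BorelSpace X]
  [MetricSpace Y] [MeasurableSpace Y] [BorelSpace Y]

variable {p : Seminorm ℝ (Rn (n + 1))} {e : Y → Rn (n + 1)} {f : X → Y} {TX : Fnl (n + 1) X}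
  {J : Seminorm ℝ (Rn (n + 1)) → ℝ≥0∞} {D : Param (n + 1) X}
  {Q : Fin (n + 1) → D.ι → Rn (n + 1) → ℝ}

/-- `x` belongs to the support of the functional -/
def InSupp {k : ℕ} {E : Type} [PseudoMetricSpace E] (T : Fnl k E) (x : E) : Prop :=
  ∀ r : ℝ, 0 < r → ∃ (q : E → ℝ) (π : Fin k → E → ℝ), BLip q ∧ (∀ i, Lip (π i)) ∧
    (∀ y, q y ≠ 0 → dist y x < r) ∧ T q π ≠ 0

theorem Setup.exists_near (s : Setup p e f TX J D Q) {x : X} (hx : InSupp TX x) {r : ℝ}
    (hr : 0 < r) {G : D.ι × Rn (n + 1) → Prop} (hG : ∀ᵐ z ∂D.μ, G z) :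
    ∃ z, G z ∧ D.θ z.1 z.2 ≠ 0 ∧ dist (D.φ z.1 z.2) x < r := by
  obtain ⟨q, π, hq, hπ, hsupp, hne⟩ := hx r hr
  rw [Represents.eq_integral s.dens s.vol s.isLip s.finite s.rep hq hπ] at hne
  by_contra hcon
  push Not at hcon
  apply hne
  refine integral_eq_zero_of_ae ?_
  filter_upwards [hG] with z hz
  by_cases hθ : D.θ z.1 z.2 = 0
  · unfold LVF.dens
    simp [hθ]
  · have h1 := hcon z hz hθ
    have h2 : q (D.φ z.1 z.2) = 0 := by
      by_contra h0
      exact absurd (hsupp _ h0) (not_lt.2 h1)
    simp [h2]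

/-- null sets of the body are not seen -/
theorem Setup.ae_notMem (s : Setup p e f TX J D Q) {N : Set (Rn (n + 1))}
    (hN : volume (N ∩ range e) = 0) : ∀ᵐ z ∂D.μ, D.θ z.1 z.2 ≠ 0 → Ps Q z ∉ N ∩ range e := by
  set M := toMeasurable volume (N ∩ range e) with hM
  have hMm : MeasurableSet M := measurableSet_toMeasurable _ _
  have hM0 : volume M = 0 := by rw [hM, measure_toMeasurable, hN]
  have h1 := s.integral_eq (q := M.indicator fun _ => 1) (measurable_const.indicator hMm) (B := 1)
    (fun u => by by_cases hu : u ∈ M <;> simp [hu])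
  have e1 : ∫ u in range e, M.indicator (fun _ => (1 : ℝ)) u = 0 := by
    rw [integral_indicator hMm, Measure.restrict_restrict hMm]
    have : (volume : Measure (Rn (n + 1))).restrict (M ∩ range e) = 0 := by
      rw [Measure.restrict_eq_zero]
      exact measure_mono_null inter_subset_left hM0
    rw [this, integral_zero_measure]
  rw [e1, integral_eq_zero_iff_of_nonneg_ae] at h1
  · filter_upwards [h1, s.equality.2] with z hz h2 hθ hmem
    have h3 : Ps Q z ∈ M := subset_toMeasurable _ _ hmem
    simp only [Pi.zero_apply] at hz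
    rw [indicator_of_mem h3, one_mul, mul_eq_zero] at hz
    rcases hz with hz | hz
    · exact hθ (by exact_mod_cast hz)
    · exact (h2 hθ).1 hz
  · filter_upwards [s.equality.1] with z hz
    by_cases hu : Ps Q z ∈ M
    · simp [hu, hz]
    · simp [hu]
  · refine s.integrable.bdd_mul (c := 1) ?_ (Filter.Eventually.of_forall fun z => ?_)
    · exact ((measurable_const.indicator hMm).comp s.measurable_Ps).aestronglyMeasurable
    · by_cases hu : Ps Q z ∈ M <;> simp [hu]

theorem Setup.core (s : Setup p e f TX J D Q) (hnb : NoBd e f TX) (hfac : S_fac) (hmol : S_mol)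
    (hsupp : ∀ x, InSupp TX x) (x x' : X) : dist x x' ≤ dist (f x) (f x') := by
  set d := dist x x' with hd
  have hd0 : 0 ≤ d := dist_nonneg
  set h : X → ℝ := fun y => min (dist x y) d with hh
  have hl : LipschitzWith 1 h := (LipschitzWith.dist_right x).min_const d
  have hb : ∀ y, |h y| ≤ d := by
    intro y
    rw [abs_of_nonneg (le_min dist_nonneg hd0)]
    exact min_le_right _ _
  choose R hR hRB hRe using fun i => exists_bext (s.isLip.lip i) ⟨1, hl⟩ hb hd0
  obtain ⟨H, hHm, ⟨C, hHb⟩, hHe⟩ := hfac (n + 1) D.ι s.isLip.countable D.A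
    (fun i => vec fun j => Q j i) D.θ (range e) R s.isLip.measA (fun i => vec_lip (s.lipQ · i))
    s.isLip.measθ s.body.measurableSet s.body.volume_lt_top (fun B hB => s.lintegral_eq hB)
    (fun i => (hR i).measurable) ⟨d, hRB⟩
  have hfacz : ∀ᵐ z ∂D.μ, D.θ z.1 z.2 ≠ 0 → del Q z ≠ 0 → H (Ps Q z) = R z.1 z.2 := by
    rw [ae_om D s.isLip.countable]
    exact hHe
  obtain ⟨H', hH'l, hH'e⟩ := hmol (n + 1) (range e) p H s.body.compact s.body.convex
    s.body.interior hHm ⟨C, hHb⟩ (fun v g hg hgc hgs hg0 =>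
      s.weak hnb hl hb hd0 hR hRB hRe hHm hHb hfacz v hg hgc hgs hg0)
  -- the bad set
  set N : Set (Rn (n + 1)) := {u | ¬ (u ∈ interior (range e) ∧ H' u = H u)} with hN
  have hN0 : volume (N ∩ range e) = 0 := by
    have h1 : volume (frontier (range e)) = 0 := s.body.convex.addHaar_frontier volume
    rw [ae_restrict_iff' isOpen_interior.measurableSet] at hH'e
    have h2 : volume {u | ¬ (u ∈ interior (range e) → H' u = H u)} = 0 := hH'e
    refine measure_mono_null ?_ (measure_union_null h1 h2)
    rintro u ⟨hu, hue⟩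
    by_cases hi : u ∈ interior (range e)
    · right
      intro hcon
      exact hu ⟨hi, hcon hi⟩
    · left
      exact ⟨subset_closure hue, hi⟩
  have hgood : ∀ᵐ z ∂D.μ, D.θ z.1 z.2 ≠ 0 → e (f (D.φ z.1 z.2)) ∈ interior (range e) ∧
      H' (e (f (D.φ z.1 z.2))) = h (D.φ z.1 z.2) := by
    have hRz : ∀ᵐ z ∂D.μ, h (D.φ z.1 z.2) = R z.1 z.2 := by
      rw [ae_om D s.isLip.countable]
      intro i
      filter_upwards [ae_restrict_mem (s.isLip.measA i)] with u hu
      exact hRe i u hu
    filter_upwards [s.ae_notMem hN0, s.ae_Ps, hfacz, s.equality.2, hRz] with z h1 h2 h3 h4 h5 hθ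
    have h6 := h1 hθ
    rw [h2] at h6
    have h7 : e (f (D.φ z.1 z.2)) ∉ N := fun h => h6 ⟨h, ⟨_, rfl⟩⟩
    rw [hN] at h7
    simp only [mem_ofPred_eq, not_not] at h7
    refine ⟨h7.1, ?_⟩
    rw [h7.2, h5, ← h3 hθ (h4 hθ).1, h2]
  refine le_of_forall_pos_le_add fun ε hε => ?_
  set r := ε / 4 with hr
  have hr0 : 0 < r := by positivity
  obtain ⟨z, hz, hzθ, hzx⟩ := s.exists_near (hsupp x) hr0 hgood
  obtain ⟨z', hz', hzθ', hzx'⟩ := s.exists_near (hsupp x') hr0 hgood
  obtain ⟨i1, i2⟩ := hz hzθ
  obtain ⟨j1, j2⟩ := hz' hzθ'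
  set a := D.φ z.1 z.2 with ha
  set b := D.φ z'.1 z'.2 with hbdef
  have k1 : |h b - h a| ≤ dist (f b) (f a) := by
    rw [← i2, ← j2, s.body.dist_eq]
    exact hH'l _ j1 _ i1
  have k2 : h a ≤ r := by
    refine (min_le_left _ _).trans ?_
    rw [dist_comm]
    exact hzx.le
  have k3 : d - r ≤ h b := by
    refine le_min ?_ (by linarith)
    have := dist_triangle x b x'
    linarith
  have k4 : dist (f b) (f a) ≤ dist (f x) (f x') + 2 * r := by
    have t1 := dist_triangle4 (f b) (f x') (f x) (f a)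
    have t2 : dist (f b) (f x') ≤ r := by
      have := s.lip.dist_le_mul b x'
      rw [NNReal.coe_one, one_mul] at this
      linarith
    have t3 : dist (f x) (f a) ≤ r := by
      have := s.lip.dist_le_mul x a
      rw [NNReal.coe_one, one_mul, dist_comm x a] at this
      linarith
    rw [dist_comm (f x') (f x)] at t1
    linarith
  have k5 := le_abs_self (h b - h a)
  rw [hr] at *
  linarith

/-- surjectivity -/
theorem Setup.surj [CompleteSpace X] (s : Setup p e f TX J D Q) (hiso : Isometry f) :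
    Function.Surjective f := by
  have hcl : IsClosed (range f) := hiso.isClosedEmbedding.isClosed_range
  intro y
  by_contra hcon
  have hy : y ∈ (range f)ᶜ := fun h => hcon h
  obtain ⟨r, hr, hball⟩ := Metric.isOpen_iff.1 hcl.isOpen_compl y hy
  -- a bump function
  obtain ⟨C, hC, hb⟩ := seminorm_bound p
  set g : Rn (n + 1) → ℝ := fun u => max 0 (r - C * dist u (e y)) with hg
  have hgl : Lip g := by
    refine ⟨C.toNNReal, LipschitzWith.const_max ?_ 0⟩
    refine LipschitzWith.of_dist_le_mul fun u v => ?_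
    rw [Real.dist_eq, Real.coe_toNNReal _ hC.le]
    have h1 : r - C * dist u (e y) - (r - C * dist v (e y)) =
        C * (dist v (e y) - dist u (e y)) := by ring
    rw [h1, abs_mul, abs_of_pos hC]
    refine mul_le_mul_of_nonneg_left ?_ hC.le
    rw [dist_comm u v]
    exact abs_dist_sub_le v u (e y)
  have hg0 : ∀ u, 0 ≤ g u := fun u => le_max_left _ _
  have hgr : ∀ u, |g u| ≤ r := by
    intro u
    rw [abs_of_nonneg (hg0 u)]
    refine max_le hr.le ?_
    have := mul_nonneg hC.le (dist_nonneg (x := u) (y := e y))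
    linarith
  have hgm : Measurable g := hgl.choose_spec.continuous.measurable
  have h1 := s.integral_eq hgm hgr
  have h2 : ∫ z, g (Ps Q z) * ((D.θ z.1 z.2 : ℝ) * del Q z) ∂D.μ = 0 := by
    refine integral_eq_zero_of_ae ?_
    filter_upwards [s.ae_Ps] with z hz
    have h3 : g (Ps Q z) = 0 := by
      rw [hz, hg]
      simp only
      refine max_eq_left ?_
      have h4 : f (D.φ z.1 z.2) ∉ Metric.ball y r := fun h => hball h ⟨_, rfl⟩
      rw [Metric.mem_ball, not_lt, s.body.dist_eq] at h4
      have h5 := hb (e (f (D.φ z.1 z.2)) - e y)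
      rw [← dist_eq_norm] at h5
      linarith
    simp [h3]
  rw [h2] at h1
  have h3 : IntegrableOn g (range e) :=
    Integrable.mono' (g := fun _ => r)
      (integrableOn_const (hs := s.body.volume_lt_top.ne)) hgm.aestronglyMeasurable
      (Filter.Eventually.of_forall hgr)
  have h4 := (setIntegral_eq_zero_iff_of_nonneg_ae (Filter.Eventually.of_forall hg0) h3).1 h1.symm
  -- the ball around `e y` meets the interior
  have h5 : e y ∈ closure (interior (range e)) := by
    rw [s.body.convex.closure_interior_eq_closure_of_nonempty_interior s.body.interior]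
    exact subset_closure ⟨y, rfl⟩
  rw [Metric.mem_closure_iff] at h5
  obtain ⟨u, hu, hud⟩ := h5 (r / (2 * C)) (by positivity)
  set O := interior (range e) ∩ Metric.ball (e y) (r / (2 * C)) with hO
  have hOo : IsOpen O := isOpen_interior.inter Metric.isOpen_ball
  have hOne : O.Nonempty := ⟨u, hu, by rw [Metric.mem_ball, dist_comm]; exact hud⟩
  have hOpos : 0 < volume O := hOo.measure_pos volume hOne
  have hOsub : O ⊆ range e := inter_subset_left.trans interior_subset
  have h6 : ∀ v ∈ O, g v ≠ 0 := by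
    rintro v ⟨-, hv⟩
    rw [Metric.mem_ball, lt_div_iff₀ (by positivity)] at hv
    have : 0 < g v := by
      rw [hg]
      simp only
      rw [lt_max_iff]
      right
      nlinarith
    exact this.ne'
  rw [Filter.EventuallyEq, ae_restrict_iff' s.body.measurableSet] at h4
  have h7 : volume O = 0 := by
    refine measure_mono_null ?_ h4
    intro v hv hcon
    exact h6 v hv (hcon (hOsub hv))
  exact hOpos.ne' h7

end Pool.Agent.W674.LVF
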