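import Pool.Agent.W674.LVF.Borel

/-! # Comparison of representations of the same current -/

set_option autoImplicit false
set_option linter.unusedSectionVars false

open MeasureTheory Set Filter Topology
open scoped ENNReal NNReal
open Pool.Agent.W674.LVR

namespace Pool.Agent.W674.LVF

variable {k : ℕ} {E : Type}

theorem jac_eq_det {Q : Fin k → Rn k → ℝ} {u : Rn k} (h : ∀ j, DifferentiableAt ℝ (Q j) u) :
    jac Q u = (fderiv ℝ (fun v j => Q j v) u).det := by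
  have h1 : HasFDerivAt (fun v j => Q j v)
      (ContinuousLinearMap.pi fun j => fderiv ℝ (Q j) u) u :=
    hasFDerivAt_pi.2 fun j => (h j).hasFDerivAt
  rw [h1.fderiv]
  unfold jac
  rw [ContinuousLinearMap.det, ← LinearMap.det_toMatrix']
  rfl

theorem exists_inv [PseudoMetricSpace E] {ψ : Rn k → E} {B : Set (Rn k)} (h : BiLipOn ψ B) :
    ∃ π : Fin k → E → ℝ, (∀ j, Lip (π j)) ∧ ∀ v ∈ B, ∀ j, π j (ψ v) = v j := by
  obtain ⟨K, hK⟩ := h
  have hmem : ∀ v ∈ B, Function.invFunOn ψ B (ψ v) ∈ B ∧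
      ψ (Function.invFunOn ψ B (ψ v)) = ψ v := fun v hv =>
    Function.invFunOn_pos ⟨v, hv, rfl⟩
  have hinv : ∀ v ∈ B, Function.invFunOn ψ B (ψ v) = v := by
    intro v hv
    have h1 := hmem v hv
    have h2 := (hK _ h1.1 v hv).2
    rw [h1.2, dist_self, mul_zero] at h2
    exact dist_le_zero.1 h2
  have hon : ∀ j, LipschitzOnWith K (fun e => Function.invFunOn ψ B e j) (ψ '' B) := by
    intro j
    refine LipschitzOnWith.of_dist_le_mul ?_
    rintro _ ⟨v, hv, rfl⟩ _ ⟨w, hw, rfl⟩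
    simp only [hinv v hv, hinv w hw]
    exact (dist_le_pi_dist v w j).trans (hK v hv w hw).2
  choose π hπ heq using fun j => (hon j).extend_real
  refine ⟨π, fun j => ⟨K, hπ j⟩, fun v hv j => ?_⟩
  rw [← heq j ⟨v, hv, rfl⟩]
  simp only [hinv v hv]

theorem _root_.Pool.Agent.W674.LVR.BiLipOn.injOn [MetricSpace E] {ψ : Rn k → E} {B : Set (Rn k)} (h : BiLipOn ψ B) :
    InjOn ψ B := by
  obtain ⟨K, hK⟩ := h
  intro u hu v hv huv
  have := (hK u hu v hv).2
  rw [huv, dist_self, mul_zero] at this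
  exact dist_le_zero.1 this

theorem _root_.Pool.Agent.W674.LVR.BiLipOn.continuousOn [PseudoMetricSpace E] {ψ : Rn k → E} {B : Set (Rn k)}
    (h : BiLipOn ψ B) : ContinuousOn ψ B := by
  obtain ⟨K, hK⟩ := h
  exact (LipschitzOnWith.of_dist_le_mul fun u hu v hv => (hK u hu v hv).1).continuousOn

section

variable [MetricSpace E] [MeasurableSpace E] [BorelSpace E]

/-- the pointwise identity of the densities -/
theorem ae_density (hd : S_dens) (hn : S_null) {J : Seminorm ℝ (Rn k) → ℝ≥0∞}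
    (hJ : VolFun k J) {ψ : Rn k → E} {B : Set (Rn k)} {N' : Rn k → Seminorm ℝ (Rn k)}
    (hB : MeasurableSet B) (hbi : BiLipOn ψ B)
    (hmd' : ∀ᵐ v ∂(volume.restrict B), IsMD ψ B v (N' v)) {D : Param k E} (hD : D.IsLip)
    (i : D.ι) {π : Fin k → E → ℝ} (hπ : ∀ j, Lip (π j)) (hπψ : ∀ v ∈ B, ∀ j, π j (ψ v) = v j) :
    ∀ᵐ u ∂(volume.restrict (D.A i)), D.φ i u ∈ ψ '' B →
      ‖jacW (D.A i) (fun j => π j ∘ D.φ i) u‖ₑ * J (N' (fun j => π j (D.φ i u))) ≤
        J (D.N i u) := by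
  obtain ⟨K, hK⟩ := hD.lip i
  have hW : MeasurableSet (ψ '' B) := hB.image_of_continuousOn_injOn hbi.continuousOn hbi.injOn
  set s := D.A i ∩ D.φ i ⁻¹' (ψ '' B) with hs
  have hsm : MeasurableSet s := measurableSet_inter_preimage hK.continuousOn (hD.measA i) hW
  choose Q hQ hQe using fun j => exists_ext (hD.lip i) (hπ j)
  set G : Rn k → Rn k := fun v j => Q j v with hG
  have hGs : ∀ u ∈ s, G u ∈ B ∧ D.φ i u = ψ (G u) := by
    rintro u ⟨hu, v, hv, hvu⟩
    have : G u = v := by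
      ext j
      show Q j u = v j
      rw [← hQe j u hu, ← hvu, hπψ v hv]
    rw [this]
    exact ⟨hv, hvu.symm⟩
  set Z : Set (Rn k) := {v | v ∈ B ∧ ¬ (IsMD ψ B v (N' v) ∧ IsNrm (N' v))} with hZ
  have hZ0 : volume Z = 0 := by
    have h1 : ∀ᵐ v ∂(volume.restrict B), IsMD ψ B v (N' v) ∧ IsNrm (N' v) := by
      filter_upwards [hmd', ae_good hd hB, ae_restrict_mem hB] with v h1 h2 h3
      exact ⟨h1, h2.isNrm h3 h1 hbi⟩
    rw [ae_restrict_iff' hB] at h1
    have h2 : volume {v | ¬ (v ∈ B → IsMD ψ B v (N' v) ∧ IsNrm (N' v))} = 0 := h1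
    refine measure_mono_null ?_ h2
    rintro v ⟨h3, h4⟩ h5
    exact h4 (h5 h3)
  set s1 := s ∩ {u | DifferentiableAt ℝ G u} with hs1
  have hs1m : MeasurableSet s1 := hsm.inter (measurableSet_of_differentiableAt ℝ G)
  have hnull := hn k G (fderiv ℝ G) s1 Z hs1m hZ0 fun u hu => hu.2.hasFDerivAt.hasFDerivWithinAt
  have hdiff : ∀ᵐ u, ∀ j, DifferentiableAt ℝ (Q j) u := ae_all_iff.2 fun j => Lip.ae_diff (hQ j)
  have hjac := ae_jac hd hD i hπ hQ hQe
  have hgood := ae_good hd hsm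
  rw [ae_restrict_iff' hs1m] at hnull
  rw [ae_restrict_iff' hsm] at hgood
  have hmd := hD.md i
  filter_upwards [hjac, hmd, ae_restrict_mem (hD.measA i), ae_restrict_of_ae hnull,
    ae_restrict_of_ae hgood, ae_restrict_of_ae hdiff] with u h1 h2 h3 h4 h5 h6 h7
  have hus : u ∈ s := ⟨h3, h7⟩
  have hGd : DifferentiableAt ℝ G u := differentiableAt_pi.2 h6
  have hdet : jacW (D.A i) (fun j => π j ∘ D.φ i) u = (fderiv ℝ G u).det := by
    rw [h1, jac_eq_det h6]
  have hGu : (fun j => π j (D.φ i u)) = G u := by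
    ext j
    exact hQe j u h3
  rw [hdet, hGu]
  by_cases h0 : (fderiv ℝ G u).det = 0
  · simp [h0]
  have hnZ : G u ∉ Z := fun hZu => h0 (h4 ⟨hus, hGd⟩ hZu)
  have hgb := hGs u hus
  have hpair : IsMD ψ B (G u) (N' (G u)) ∧ IsNrm (N' (G u)) := by
    by_contra hcon
    exact hnZ ⟨hgb.1, hcon⟩
  have hm1 : IsMD (D.φ i) s u ((N' (G u)).comp (fderiv ℝ G u : Rn k →ₗ[ℝ] Rn k)) :=
    IsMD.comp hGd.hasFDerivAt.hasFDerivWithinAt hus (fun v hv => (hGs v hv).1)
      (fun v hv => (hGs v hv).2) hpair.1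
  have hm2 : IsMD (D.φ i) s u (D.N i u) := h2.mono inter_subset_left
  rw [(h5 hus).isMD_unique hm2 hm1]
  have hc := hJ.comp (N' (G u)) (fderiv ℝ G u : Rn k →ₗ[ℝ] Rn k) hpair.2 h0
  rw [hc, Real.enorm_eq_ofReal_abs]

theorem jac_inv (hd : S_dens) {ψ : Rn k → E} {B : Set (Rn k)} (hB : MeasurableSet B)
    {π : Fin k → E → ℝ} (hπψ : ∀ v ∈ B, ∀ j, π j (ψ v) = v j) :
    ∀ᵐ v ∂(volume.restrict B), jacW B (fun j => π j ∘ ψ) v = 1 := by
  filter_upwards [ae_good hd hB, ae_restrict_mem hB] with v hg hv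
  have h1 : ∀ j, fderivWithin ℝ (π j ∘ ψ) B v = ContinuousLinearMap.proj j := by
    intro j
    have e := hg.fderivWithin_eq (f := π j ∘ ψ) (Q := fun v => v j) hv (fun w hw => hπψ w hw j)
      (by fun_prop)
    rw [e]
    exact (ContinuousLinearMap.proj (R := ℝ) (φ := fun _ : Fin k => ℝ) j).fderiv
  unfold jacW
  have h2 : (Matrix.of fun i j => fderivWithin ℝ (π i ∘ ψ) B v (Pi.single j 1)) =
      (1 : Matrix (Fin k) (Fin k) ℝ) := by
    ext a b
    simp only [Matrix.of_apply]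
    rw [h1 a]
    simp [Matrix.one_apply, Pi.single_apply]
  rw [h2, Matrix.det_one]

end

end Pool.Agent.W674.LVF
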