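import Pool.Agent.W674.LVF.Cost

/-! # The Finsler mass does not depend on the representation -/

set_option autoImplicit false
set_option linter.unusedSectionVars false

open MeasureTheory Set Filter Topology
open scoped ENNReal NNReal
open Pool.Agent.W674.LVR

namespace Pool.Agent.W674.LVF

variable {k : ℕ} {E : Type}

theorem integrableOn_om {D : Param k E} {f : D.ι × Rn k → ℝ} (hf : Integrable f D.μ) (i : D.ι) :
    IntegrableOn (fun u => f (i, u)) (D.A i) := by
  have h1 : Integrable f ((volume.restrict (D.A i)).map (Prod.mk i)) :=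
    hf.mono_measure (Measure.le_sum (fun i => (volume.restrict (D.A i)).map (Prod.mk i)) i)
  exact (emb_mk D i).integrable_map_iff.1 h1

variable [MetricSpace E] [MeasurableSpace E] [BorelSpace E]

/-- the estimate for one chart, with truncation -/
theorem chart_le (hd : S_dens) (hn : S_null) {J J₀ : Seminorm ℝ (Rn k) → ℝ≥0∞}
    (hJ : VolFun k J) (hJ₀ : VolFun k J₀) {T : Fnl k E} {D' D : Param k E}
    (hD' : D'.IsLip) (hbi : ∀ i, BiLipOn (D'.φ i) (D'.A i))
    (hdis : Pairwise fun i j => Disjoint (D'.φ i '' D'.A i) (D'.φ j '' D'.A j))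
    (hrep' : D'.Represents T) (hfin : D'.cost J₀ < ⊤)
    (hD : D.IsLip) (hrep : D.Represents T) (hf : D.cost J < ⊤) (κ : D'.ι) (M : ℕ) :
    ∫⁻ v in D'.A κ, ‖(D'.θ κ v : ℝ)‖ₑ * min (J (D'.N κ v)) M ≤
      ∫⁻ z, (D'.φ κ '' D'.A κ).indicator 1 (D.φ z.1 z.2) *
        (‖(D.θ z.1 z.2 : ℝ)‖ₑ * J (D.N z.1 z.2)) ∂D.μ := by
  set B := D'.A κ with hBdef
  set ψ := D'.φ κ with hψ
  set θ' := D'.θ κ with hθ'
  set N' := D'.N κ with hN'
  have hB : MeasurableSet B := hD'.measA κ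
  obtain ⟨π, hπ, hπψ⟩ := exists_inv (hbi κ)
  set W := ψ '' B with hWdef
  have hW : MeasurableSet W :=
    hB.image_of_continuousOn_injOn (hbi κ).continuousOn (hbi κ).injOn
  have hJN : Measurable fun v => J (N' v) := hJ.meas _ (hD'.measN κ)
  have hmin : ∀ v, min (J (N' v)) (M : ℝ≥0∞) ≠ ⊤ := fun v =>
    (lt_of_le_of_lt (min_le_right _ _) (ENNReal.natCast_lt_top M)).ne
  have hminM : ∀ v, (min (J (N' v)) (M : ℝ≥0∞)).toReal ≤ M := by
    intro v
    have h1 := ENNReal.toReal_mono (ENNReal.natCast_ne_top M) (min_le_right (J (N' v)) (M : ℝ≥0∞))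
    simpa using h1
  set γ : Rn k → ℝ := fun v =>
    (SignType.sign (θ' v) : ℝ) * (min (J (N' v)) (M : ℝ≥0∞)).toReal with hγ
  have hγm : Measurable γ := by
    refine Measurable.mul ?_ (hJN.min measurable_const).ennreal_toReal
    exact (measurable_of_countable (fun z : ℤ => (SignType.sign z : ℝ))).comp (hD'.measθ κ)
  have hsign : ∀ z : ℤ, |(SignType.sign z : ℝ)| ≤ 1 := by
    intro z
    rcases lt_trichotomy z 0 with h | h | h <;> simp [h]
  have hγb : ∀ v, |γ v| ≤ M := by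
    intro v
    rw [hγ]
    simp only
    rw [abs_mul, abs_of_nonneg ENNReal.toReal_nonneg]
    calc _ ≤ 1 * (M : ℝ) := mul_le_mul (hsign _) (hminM v) ENNReal.toReal_nonneg zero_le_one
      _ = M := one_mul _
  set g : E → ℝ := W.indicator (fun e => γ (fun j => π j e)) with hg
  have hπm : Measurable fun e => (fun j => π j e : Rn k) :=
    measurable_pi_lambda _ fun j => (hπ j).choose_spec.continuous.measurable
  have hgm : Measurable g := (hγm.comp hπm).indicator hW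
  have hgb : ∀ e, |g e| ≤ M := by
    intro e
    rw [hg]
    by_cases he : e ∈ W
    · rw [indicator_of_mem he]
      exact hγb _
    · rw [indicator_of_notMem he, abs_zero]
      positivity
  have i1 := integrable_dens hd hJ hD hf hπ
  have i2 := integrable_dens hd hJ₀ hD' hfin hπ
  have key := borel_ext (aemeasurable_φ hD) (aemeasurable_φ hD') i1 i2 (fun f hf' => by
    rw [← Represents.eq_integral hd hJ hD hf hrep hf' hπ,
      ← Represents.eq_integral hd hJ₀ hD' hfin hrep' hf' hπ]) hgm hgb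
  -- the right hand side
  have i3 : Integrable (fun z : D'.ι × Rn k => g (D'.φ z.1 z.2) * dens D' π z) D'.μ := by
    refine i2.bdd_mul (c := M) ?_ (Filter.Eventually.of_forall fun z => hgb _)
    exact (hgm.comp_aemeasurable (aemeasurable_φ hD')).aestronglyMeasurable
  have hs := hasSum_om D' i3
  have hs2 : HasSum (fun i => ∫ u in D'.A i, g (D'.φ i u) * dens D' π (i, u))
      (∫ u in D'.A κ, g (D'.φ κ u) * dens D' π (κ, u)) := by
    refine hasSum_single κ fun i hi => ?_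
    refine setIntegral_eq_zero_of_forall_eq_zero fun u hu => ?_
    have : D'.φ i u ∉ W := fun h =>
      Set.disjoint_left.1 (hdis hi) ⟨u, hu, rfl⟩ h
    rw [hg, indicator_of_notMem this, zero_mul]
  have e1 := hs.unique hs2
  have hae : ∀ᵐ v ∂(volume.restrict B), g (ψ v) * dens D' π (κ, v) =
      |(θ' v : ℝ)| * (min (J (N' v)) (M : ℝ≥0∞)).toReal := by
    filter_upwards [jac_inv hd hB hπψ, ae_restrict_mem hB] with v h1 h2
    have h3 : ψ v ∈ W := ⟨v, h2, rfl⟩
    have h4 : (fun j => π j (ψ v)) = v := by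
      ext j
      exact hπψ v h2 j
    unfold dens
    simp only
    rw [hg, indicator_of_mem h3, h4]
    have h5 : jacW (D'.A κ) (fun j => π j ∘ D'.φ κ) v = 1 := h1
    rw [h5, hγ, mul_one]
    have h6 : (SignType.sign (θ' v) : ℝ) * (θ' v : ℝ) = |(θ' v : ℝ)| := by
      rcases lt_trichotomy (θ' v) 0 with h | h | h
      · have h' : ((θ' v : ℤ) : ℝ) < 0 := by exact_mod_cast h
        rw [sign_neg h, abs_of_neg h']
        simp
      · simp [h]
      · have h' : (0 : ℝ) < ((θ' v : ℤ) : ℝ) := by exact_mod_cast h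
        rw [sign_pos h, abs_of_pos h']
        simp
    calc _ = ((SignType.sign (θ' v) : ℝ) * (θ' v : ℝ)) * (min (J (N' v)) (M : ℝ≥0∞)).toReal := by
          simp only
          ring
      _ = _ := by rw [h6]
  have i4 : IntegrableOn (fun v => |(θ' v : ℝ)| * (min (J (N' v)) (M : ℝ≥0∞)).toReal) B := by
    refine (integrableOn_om i3 κ).congr ?_
    exact hae
  have e2 : ∫⁻ v in B, ‖(θ' v : ℝ)‖ₑ * min (J (N' v)) M =
      ENNReal.ofReal (∫ v in B, |(θ' v : ℝ)| * (min (J (N' v)) (M : ℝ≥0∞)).toReal) := by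
    rw [ofReal_integral_eq_lintegral_ofReal i4
      (Filter.Eventually.of_forall fun v => mul_nonneg (abs_nonneg _) ENNReal.toReal_nonneg)]
    refine lintegral_congr fun v => ?_
    rw [ENNReal.ofReal_mul (abs_nonneg _), ENNReal.ofReal_toReal (hmin v),
      Real.enorm_eq_ofReal_abs]
  have e3 : ∫ v in B, |(θ' v : ℝ)| * (min (J (N' v)) (M : ℝ≥0∞)).toReal =
      ∫ z, g (D.φ z.1 z.2) * dens D π z ∂D.μ := by
    rw [key, e1]
    exact (integral_congr_ae hae).symm
  rw [e2, e3]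
  refine (Real.ofReal_le_enorm _).trans ((enorm_integral_le_lintegral_enorm _).trans ?_)
  refine lintegral_mono_ae ?_
  rw [ae_om D hD.countable]
  intro i
  filter_upwards [ae_density hd hn hJ hB (hbi κ) (hD'.md κ) hD i hπ hπψ] with u hu
  by_cases hFW : D.φ i u ∈ W
  · rw [indicator_of_mem hFW, Pi.one_apply, one_mul]
    have h1 : g (D.φ i u) = γ (fun j => π j (D.φ i u)) := by
      rw [hg, indicator_of_mem hFW]
    have h2 : ‖γ (fun j => π j (D.φ i u))‖ₑ ≤ J (N' (fun j => π j (D.φ i u))) := by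
      rw [hγ]
      simp only
      rw [enorm_mul]
      have a1 : ‖(SignType.sign (θ' fun j => π j (D.φ i u)) : ℝ)‖ₑ ≤ 1 := by
        rw [Real.enorm_eq_ofReal_abs, ← ENNReal.ofReal_one]
        exact ENNReal.ofReal_le_ofReal (hsign _)
      have a2 : ‖(min (J (N' (fun j => π j (D.φ i u)))) (M : ℝ≥0∞)).toReal‖ₑ ≤
          J (N' (fun j => π j (D.φ i u))) := by
        rw [Real.enorm_eq_ofReal_abs, abs_of_nonneg ENNReal.toReal_nonneg,
          ENNReal.ofReal_toReal (hmin _)]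
        exact min_le_left _ _
      calc _ ≤ 1 * J (N' (fun j => π j (D.φ i u))) := mul_le_mul' a1 a2
        _ = _ := one_mul _
    have h4 : ‖dens D π (i, u)‖ₑ = ‖(D.θ i u : ℝ)‖ₑ *
        ‖jacW (D.A i) (fun j => π j ∘ D.φ i) u‖ₑ := enorm_mul _ _
    rw [h1, enorm_mul, h4]
    calc _ ≤ J (N' (fun j => π j (D.φ i u))) * (‖(D.θ i u : ℝ)‖ₑ *
          ‖jacW (D.A i) (fun j => π j ∘ D.φ i) u‖ₑ) := mul_le_mul' h2 le_rfl
      _ = ‖(D.θ i u : ℝ)‖ₑ * (‖jacW (D.A i) (fun j => π j ∘ D.φ i) u‖ₑ *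
          J (N' (fun j => π j (D.φ i u)))) := by ring
      _ ≤ _ := mul_le_mul' le_rfl (hu hFW)
  · have h1 : g (D.φ i u) = 0 := by
      rw [hg, indicator_of_notMem hFW]
    rw [h1, zero_mul, enorm_zero]
    exact zero_le

/-- any Lipschitz representation costs at least as much as a disjoint bi-Lipschitz one -/
theorem cost_le (hd : S_dens) (hn : S_null) {J J₀ : Seminorm ℝ (Rn k) → ℝ≥0∞}
    (hJ : VolFun k J) (hJ₀ : VolFun k J₀) {T : Fnl k E} {D' D : Param k E}
    (hD' : D'.IsLip) (hbi : ∀ i, BiLipOn (D'.φ i) (D'.A i))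
    (hdis : Pairwise fun i j => Disjoint (D'.φ i '' D'.A i) (D'.φ j '' D'.A j))
    (hrep' : D'.Represents T) (hfin : D'.cost J₀ < ⊤)
    (hD : D.IsLip) (hrep : D.Represents T) (hf : D.cost J < ⊤) : D'.cost J ≤ D.cost J := by
  have hcount := hD'.countable
  have hW : ∀ κ, MeasurableSet (D'.φ κ '' D'.A κ) := fun κ =>
    (hD'.measA κ).image_of_continuousOn_injOn (hbi κ).continuousOn (hbi κ).injOn
  have h1 : ∀ κ, ∫⁻ v in D'.A κ, ‖(D'.θ κ v : ℝ)‖ₑ * J (D'.N κ v) ≤
      ∫⁻ z, (D'.φ κ '' D'.A κ).indicator 1 (D.φ z.1 z.2) *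
        (‖(D.θ z.1 z.2 : ℝ)‖ₑ * J (D.N z.1 z.2)) ∂D.μ := by
    intro κ
    have hJN : Measurable fun v => J (D'.N κ v) := hJ.meas _ (hD'.measN κ)
    have hθm : Measurable fun v => ‖(D'.θ κ v : ℝ)‖ₑ :=
      (measurable_of_countable (fun z : ℤ => ‖(z : ℝ)‖ₑ)).comp (hD'.measθ κ)
    have e1 : ∀ v, ‖(D'.θ κ v : ℝ)‖ₑ * J (D'.N κ v) =
        ⨆ M : ℕ, ‖(D'.θ κ v : ℝ)‖ₑ * min (J (D'.N κ v)) M := by
      intro v
      rw [← ENNReal.mul_iSup, ← inf_iSup_eq, ENNReal.iSup_natCast, inf_top_eq]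
    simp_rw [e1]
    rw [lintegral_iSup]
    · exact iSup_le fun M => chart_le hd hn hJ hJ₀ hD' hbi hdis hrep' hfin hD hrep hf κ M
    · exact fun M => hθm.mul (hJN.min measurable_const)
    · intro M M' hM v
      simp only
      gcongr
  have hcm : AEMeasurable (fun z : D.ι × Rn k => ‖(D.θ z.1 z.2 : ℝ)‖ₑ * J (D.N z.1 z.2)) D.μ :=
    (((measurable_of_countable (fun z : ℤ => ‖(z : ℝ)‖ₑ)).comp (measurable_θ hD)).mul
        (measurable_N hD hJ)).aemeasurable
  calc D'.cost J ≤ ∑' κ, ∫⁻ z, (D'.φ κ '' D'.A κ).indicator 1 (D.φ z.1 z.2) *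
        (‖(D.θ z.1 z.2 : ℝ)‖ₑ * J (D.N z.1 z.2)) ∂D.μ := ENNReal.tsum_le_tsum h1
    _ = ∫⁻ z, ∑' κ, (D'.φ κ '' D'.A κ).indicator 1 (D.φ z.1 z.2) *
        (‖(D.θ z.1 z.2 : ℝ)‖ₑ * J (D.N z.1 z.2)) ∂D.μ := by
      refine (lintegral_tsum fun κ => ?_).symm
      refine AEMeasurable.mul ?_ hcm
      exact ((measurable_one.indicator (hW κ)).comp_aemeasurable (aemeasurable_φ hD))
    _ ≤ ∫⁻ z, ‖(D.θ z.1 z.2 : ℝ)‖ₑ * J (D.N z.1 z.2) ∂D.μ := by
      refine lintegral_mono fun z => ?_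
      rw [ENNReal.tsum_mul_right]
      have h2 : ∑' κ, (D'.φ κ '' D'.A κ).indicator (1 : E → ℝ≥0∞) (D.φ z.1 z.2) ≤ 1 := by
        by_cases hex : ∃ κ, D.φ z.1 z.2 ∈ D'.φ κ '' D'.A κ
        · obtain ⟨κ, hκ⟩ := hex
          rw [tsum_eq_single κ]
          · rw [indicator_of_mem hκ]
            rfl
          · intro i hi
            rw [indicator_of_notMem]
            exact fun h => Set.disjoint_left.1 (hdis hi) h hκ
        · push Not at hex
          have : ∀ κ, (D'.φ κ '' D'.A κ).indicator (1 : E → ℝ≥0∞) (D.φ z.1 z.2) = 0 :=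
            fun κ => indicator_of_notMem (hex κ) _
          simp [this]
      calc _ ≤ 1 * (‖(D.θ z.1 z.2 : ℝ)‖ₑ * J (D.N z.1 z.2)) := mul_le_mul' h2 le_rfl
        _ = _ := one_mul _
    _ = D.cost J := (cost_om D J).symm

end Pool.Agent.W674.LVF
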