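import Pool.Agent.W674.LVR.Defs

/-!
# Finsler masses of integral currents in metric spaces: definitions

Metric currents (Ambrosio and Kirchheim) as in `Pool.Agent.W674.LVR.Defs`. Integer rectifiable
currents are given by countably many bi-Lipschitz parametrisations, with pairwise disjoint images,
of Borel subsets of `ℝᵏ`, together with integer multiplicities; the approximate tangent norms are
the metric derivatives (Kirchheim) of the parametrisations.
-/

set_option autoImplicit false

open MeasureTheory Set Filter Topology Asymptotics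
open scoped ENNReal NNReal
open Pool.Agent.W674.LVR

namespace Pool.Agent.W674.LVF

/-- `ℝᵏ` -/
abbrev Rn (k : ℕ) : Type := Fin k → ℝ

/-- the seminorm `N` on `ℝᵏ` is the metric derivative at `u` of the map `φ` on the set `A`:
`d(φ(w), φ(u)) = N(w - u) + o(|w - u|)` for `w → u`, `w ∈ A` -/
def IsMD {k : ℕ} {E : Type} [PseudoMetricSpace E] (φ : Rn k → E) (A : Set (Rn k)) (u : Rn k)
    (N : Seminorm ℝ (Rn k)) : Prop :=
  (fun w => dist (φ w) (φ u) - N (w - u)) =o[𝓝[A] u] (fun w => w - u)

/-- the seminorm is a norm -/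
def IsNrm {k : ℕ} (N : Seminorm ℝ (Rn k)) : Prop := ∀ w, N w = 0 → w = 0

/-- parametrisation data: index set, domains, parametrisations, multiplicities, and a seminorm at
every point of the domains (to be the metric derivative) -/
structure Param (k : ℕ) (E : Type) where
  /-- the index set -/
  ι : Type
  /-- the domains -/
  A : ι → Set (Rn k)
  /-- the parametrisations -/
  φ : ι → Rn k → E
  /-- the multiplicities -/
  θ : ι → Rn k → ℤ
  /-- the metric derivatives -/
  N : ι → Rn k → Seminorm ℝ (Rn k)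

/-- countably many Lipschitz maps on Borel sets, Borel multiplicities, and Borel measurable metric
derivatives almost everywhere (they exist by Kirchheim's theorem) -/
structure Param.IsLip {k : ℕ} {E : Type} [PseudoMetricSpace E] (D : Param k E) : Prop where
  countable : Countable D.ι
  measA : ∀ i, MeasurableSet (D.A i)
  lip : ∀ i, ∃ K : ℝ≥0, LipschitzOnWith K (D.φ i) (D.A i)
  measθ : ∀ i, Measurable (D.θ i)
  measN : ∀ i w, Measurable fun u => D.N i u w
  md : ∀ i, ∀ᵐ u ∂(volume.restrict (D.A i)), IsMD (D.φ i) (D.A i) u (D.N i u)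

/-- the functional `T` is the countable sum of the push-forwards of the currents `θᵢ dx` on `Aᵢ`:
`T(f, π) = ∑ᵢ ∫_{Aᵢ} θᵢ f(φᵢ) det D(π ∘ φᵢ)` -/
def Param.Represents {k : ℕ} {E : Type} [PseudoMetricSpace E] (D : Param k E) (T : Fnl k E) :
    Prop :=
  ∀ (f : E → ℝ) (π : Fin k → E → ℝ), BLip f → (∀ j, Lip (π j)) →
    HasSum (fun i => ∫ u in D.A i, (D.θ i u : ℝ) * f (D.φ i u) *
      jacW (D.A i) (fun j => π j ∘ D.φ i) u) (T f π)

/-- `∑ᵢ ∫_{Aᵢ} |θᵢ(u)| J(Nᵢ(u)) du` -/
noncomputable def Param.cost {k : ℕ} {E : Type} (J : Seminorm ℝ (Rn k) → ℝ≥0∞) (D : Param k E) :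
    ℝ≥0∞ :=
  ∑' i, ∫⁻ u in D.A i, ‖(D.θ i u : ℝ)‖ₑ * J (D.N i u)

/-- the volume `ωₖ` of the Euclidean unit ball -/
noncomputable def omega (k : ℕ) : ℝ≥0∞ := volume (Metric.ball (0 : EuclideanSpace ℝ (Fin k)) 1)

/-- the density, with respect to the Lebesgue measure of `ℝᵏ`, of the Haar measure which gives
the unit ball of the norm `N` the volume `ωₖ` (Busemann) -/
noncomputable def busemann {k : ℕ} (N : Seminorm ℝ (Rn k)) : ℝ≥0∞ :=
  omega k / volume {w : Rn k | N w ≤ 1}

/-- the polar of the unit ball -/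
def polar {k : ℕ} (N : Seminorm ℝ (Rn k)) : Set (Rn k) :=
  {y : Rn k | ∀ w : Rn k, N w ≤ 1 → |∑ i, y i * w i| ≤ 1}

/-- the density, with respect to the Lebesgue measure of `ℝᵏ`, of the Haar measure which gives
the unit ball `B` of the norm `N` the volume `vol(B) vol(B°) / ωₖ` (Holmes and Thompson) -/
noncomputable def holmesThompson {k : ℕ} (N : Seminorm ℝ (Rn k)) : ℝ≥0∞ :=
  volume (polar N) / omega k

/-- `D` is a representation of `T` as an integer rectifiable current: bi-Lipschitz
parametrisations with pairwise disjoint images, and integrable multiplicity (finite mass) -/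
structure Param.IsRep {k : ℕ} {E : Type} [PseudoMetricSpace E] (D : Param k E) (T : Fnl k E) :
    Prop where
  isLip : D.IsLip
  biLip : ∀ i, BiLipOn (D.φ i) (D.A i)
  disj : Pairwise fun i j => Disjoint (D.φ i '' D.A i) (D.φ j '' D.A j)
  represents : D.Represents T
  finite : D.cost busemann < ⊤

/-- the Finsler mass with density `J`: `∑ᵢ ∫_{Aᵢ} |θᵢ(u)| J(Nᵢ(u)) du` for any representation of
the current (the value does not depend on the representation) -/
noncomputable def finslerMass {k : ℕ} {E : Type} [PseudoMetricSpace E]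
    (J : Seminorm ℝ (Rn k) → ℝ≥0∞) (T : Fnl k E) : ℝ≥0∞ :=
  ⨅ (D : Param k E) (_ : D.IsRep T), D.cost J

/-- the properties of the volume densities which are used -/
structure VolFun (k : ℕ) (J : Seminorm ℝ (Rn k) → ℝ≥0∞) : Prop where
  comp : ∀ (N : Seminorm ℝ (Rn k)) (L : Rn k →ₗ[ℝ] Rn k), IsNrm N → LinearMap.det L ≠ 0 →
    J (N.comp L) = ENNReal.ofReal |LinearMap.det L| * J N
  mono : ∀ N N' : Seminorm ℝ (Rn k), N ≤ N' → J N ≤ J N'
  pos : ∀ N, IsNrm N → 0 < J N
  lt_top : ∀ N, J N < ⊤
  strict : ∀ N N', IsNrm N → IsNrm N' → N ≤ N' → J N' ≤ J N → N = N'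
  meas : ∀ N : Rn k → Seminorm ℝ (Rn k), (∀ w, Measurable fun u => N u w) →
    Measurable fun u => J (N u)

end Pool.Agent.W674.LVF
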