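import Pool.Agent.W674.LVF.Bd2

/-! # The case of equality of the masses -/

set_option autoImplicit false
set_option linter.unusedSectionVars false

open MeasureTheory Set Filter Topology
open scoped ENNReal NNReal
open Pool.Agent.W674.LVR

namespace Pool.Agent.W674.LVF

variable {m : ℕ} {X Y : Type} [MetricSpace X] [MeasurableSpace X] [BorelSpace X]
  [MetricSpace Y] [MeasurableSpace Y] [BorelSpace Y]

/-- the coordinates of the image, as a function on the parameter space -/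
def Ps {k : ℕ} {D : Param k X} (Q : Fin m → D.ι → Rn k → ℝ) (z : D.ι × Rn k) : Rn m :=
  vec (fun j => Q j z.1) z.2

/-- the Jacobian determinant of the image, as a function on the parameter space -/
noncomputable def del {D : Param m X} (Q : Fin m → D.ι → Rn m → ℝ) (z : D.ι × Rn m) : ℝ :=
  (fderiv ℝ (vec fun j => Q j z.1) z.2).det

/-- the standing assumptions -/
structure Setup {m : ℕ} {X Y : Type} [MetricSpace X] [MetricSpace Y]
    (p : Seminorm ℝ (Rn m)) (e : Y → Rn m) (f : X → Y) (TX : Fnl m X)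
    (J : Seminorm ℝ (Rn m) → ℝ≥0∞) (D : Param m X) (Q : Fin m → D.ι → Rn m → ℝ) : Prop where
  body : IsBody p e
  dens : S_dens
  lip : LipschitzWith 1 f
  vol : VolFun m J
  isLip : D.IsLip
  biLip : ∀ i, BiLipOn (D.φ i) (D.A i)
  rep : D.Represents TX
  finite : D.cost J < ⊤
  cost : D.cost J ≤ J p * volume (range e)
  push : ∀ (g : Y → ℝ) (π : Fin m → Y → ℝ), BLip g → (∀ j, Lip (π j)) →
    TX (fun x => g (f x)) (fun j x => π j (f x)) = bodyCurrent e g π
  lipQ : ∀ j i, Lip (Q j i)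
  eqQ : ∀ j i, ∀ u ∈ D.A i, e (f (D.φ i u)) j = Q j i u

section

variable {p : Seminorm ℝ (Rn m)} {e : Y → Rn m} {f : X → Y} {TX : Fnl m X}
  {J : Seminorm ℝ (Rn m) → ℝ≥0∞} {D : Param m X} {Q : Fin m → D.ι → Rn m → ℝ}

theorem Setup.lip_c (s : Setup p e f TX J D Q) (j : Fin m) : Lip (fun x => e (f x) j) := by
  obtain ⟨C, hC⟩ := s.body.lip_coord j
  exact ⟨_, hC.comp s.lip⟩

theorem Setup.ae_dens (s : Setup p e f TX J D Q) :
    ∀ᵐ z ∂D.μ, LVF.dens D (fun j x => e (f x) j) z = (D.θ z.1 z.2 : ℝ) * del Q z := by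
  rw [ae_om D s.isLip.countable]
  intro i
  have hdiff : ∀ᵐ u ∂(volume.restrict (D.A i)), ∀ j, DifferentiableAt ℝ (Q j i) u :=
    ae_restrict_of_ae (ae_all_iff.2 fun j => Lip.ae_diff (s.lipQ j i))
  filter_upwards [LVF.ae_jac s.dens s.isLip i s.lip_c (s.lipQ · i) (s.eqQ · i), hdiff]
    with u h1 h2
  unfold LVF.dens del
  simp only
  rw [h1, jac_eq_det h2]
  rfl

theorem Setup.ae_Ps (s : Setup p e f TX J D Q) :
    ∀ᵐ z ∂D.μ, Ps Q z = e (f (D.φ z.1 z.2)) := by
  rw [ae_om D s.isLip.countable]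
  intro i
  filter_upwards [ae_restrict_mem (s.isLip.measA i)] with u hu
  ext j
  exact (s.eqQ j i u hu).symm

theorem Setup.measurable_Ps (s : Setup p e f TX J D Q) : Measurable (Ps Q) := by
  refine measurable_om D s.isLip.countable fun i => ?_
  obtain ⟨C, hC⟩ := vec_lip (s.lipQ · i)
  exact hC.continuous.measurable

theorem Setup.measurable_del (s : Setup p e f TX J D Q) : Measurable (del Q) := by
  refine measurable_om D s.isLip.countable fun i => ?_
  have h1 : Measurable fun u => fderiv ℝ (vec fun j => Q j i) u := measurable_fderiv ℝ _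
  exact ContinuousLinearMap.continuous_det.measurable.comp h1

theorem Setup.integrable (s : Setup p e f TX J D Q) :
    Integrable (fun z => (D.θ z.1 z.2 : ℝ) * del Q z) D.μ :=
  (integrable_dens s.dens s.vol s.isLip s.finite s.lip_c).congr s.ae_dens

/-- the measure identity -/
theorem Setup.integral_eq (s : Setup p e f TX J D Q) {q : Rn m → ℝ} (hq : Measurable q) {B : ℝ}
    (hB : ∀ u, |q u| ≤ B) :
    ∫ z, q (Ps Q z) * ((D.θ z.1 z.2 : ℝ) * del Q z) ∂D.μ = ∫ u in range e, q u := by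
  have hfin : IsFiniteMeasure ((volume : Measure (Rn m)).restrict (range e)) :=
    ⟨by rw [Measure.restrict_apply_univ]; exact s.body.volume_lt_top⟩
  have key := borel_ext (μ := D.μ) (μ' := (volume : Measure (Rn m)).restrict (range e))
    (F := Ps Q) (F' := fun u : Rn m => u) s.measurable_Ps.aemeasurable aemeasurable_id
    (w := fun z => (D.θ z.1 z.2 : ℝ) * del Q z) (w' := fun _ => 1) s.integrable
    (integrable_const _) (fun g hg => ?_) hq hB
  · simpa using key
  · have hg1 : BLip (fun y => g (e y)) := s.body.blip_comp hg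
    have hg2 : BLip (fun x => g (e (f x))) := by
      obtain ⟨⟨K, hK⟩, C, hC⟩ := hg1
      exact ⟨⟨_, hK.comp s.lip⟩, C, fun x => hC _⟩
    have e1 := s.push (fun y => g (e y)) (fun j y => e y j) hg1 s.body.lip_coord
    rw [s.body.body_coord s.dens, Represents.eq_integral s.dens s.vol s.isLip s.finite s.rep
      hg2 s.lip_c] at e1
    simp only [mul_one]
    rw [← e1]
    refine integral_congr_ae ?_
    filter_upwards [s.ae_Ps, s.ae_dens] with z h1 h2
    rw [h1, h2]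

theorem Setup.integral_one (s : Setup p e f TX J D Q) :
    ∫ z, (D.θ z.1 z.2 : ℝ) * del Q z ∂D.μ = (volume (range e)).toReal := by
  have h := s.integral_eq (q := fun _ => 1) measurable_const (B := 1) (by simp)
  simp only [one_mul] at h
  rw [h]
  simp [Measure.real]

theorem ae_isNrm (hd : S_dens) {k : ℕ} {D : Param k X} (hD : D.IsLip)
    (hbi : ∀ i, BiLipOn (D.φ i) (D.A i)) : ∀ᵐ z ∂D.μ, IsNrm (D.N z.1 z.2) := by
  rw [ae_om D hD.countable]
  intro i
  filter_upwards [ae_good hd (hD.measA i), hD.md i, ae_restrict_mem (hD.measA i)] with u g1 g2 g3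
  exact g1.isNrm g3 g2 (hbi i)

theorem Setup.ae_le (s : Setup p e f TX J D Q) :
    ∀ᵐ z ∂D.μ, p.comp (fderiv ℝ (vec fun j => Q j z.1) z.2 : Rn m →ₗ[ℝ] Rn m) ≤ D.N z.1 z.2 := by
  rw [ae_om D s.isLip.countable]
  intro i
  exact ae_Psi_le s.body s.dens s.lip s.isLip i (s.lipQ · i) (s.eqQ · i)

theorem Setup.J_le (s : Setup p e f TX J D Q) {z : D.ι × Rn m}
    (h : p.comp (fderiv ℝ (vec fun j => Q j z.1) z.2 : Rn m →ₗ[ℝ] Rn m) ≤ D.N z.1 z.2) :
    J p * ‖del Q z‖ₑ ≤ J (D.N z.1 z.2) := by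
  by_cases h0 : del Q z = 0
  · simp [h0]
  · have h1 := s.vol.comp p (fderiv ℝ (vec fun j => Q j z.1) z.2 : Rn m →ₗ[ℝ] Rn m)
      s.body.nrm h0
    have h2 := s.vol.mono _ _ h
    rw [h1] at h2
    rw [Real.enorm_eq_ofReal_abs, mul_comm]
    exact h2

theorem Setup.cost_meas (s : Setup p e f TX J D Q) :
    Measurable (fun z : D.ι × Rn m => ‖(D.θ z.1 z.2 : ℝ)‖ₑ * J (D.N z.1 z.2)) :=
  ((measurable_of_countable (fun z : ℤ => ‖(z : ℝ)‖ₑ)).comp (measurable_θ s.isLip)).mul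
        (measurable_N s.isLip s.vol)

/-- the equality case -/
theorem Setup.equality (s : Setup p e f TX J D Q) :
    (∀ᵐ z ∂D.μ, 0 ≤ (D.θ z.1 z.2 : ℝ) * del Q z) ∧
    ∀ᵐ z ∂D.μ, D.θ z.1 z.2 ≠ 0 → del Q z ≠ 0 ∧
      p.comp (fderiv ℝ (vec fun j => Q j z.1) z.2 : Rn m →ₗ[ℝ] Rn m) = D.N z.1 z.2 := by
  have hJp0 : J p ≠ 0 := (s.vol.pos p s.body.nrm).ne'
  have hJpt : J p ≠ ⊤ := (s.vol.lt_top p).ne
  set w : D.ι × Rn m → ℝ := fun z => (D.θ z.1 z.2 : ℝ) * del Q z with hw
  have hwi : Integrable w D.μ := s.integrable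
  have hint : ∫ z, w z ∂D.μ = (volume (range e)).toReal := s.integral_one
  have hvol : volume (range e) = ENNReal.ofReal (∫ z, w z ∂D.μ) := by
    rw [hint, ENNReal.ofReal_toReal s.body.volume_lt_top.ne]
  have hle1 : ENNReal.ofReal (∫ z, w z ∂D.μ) ≤ ∫⁻ z, ‖w z‖ₑ ∂D.μ :=
    (Real.ofReal_le_enorm _).trans (enorm_integral_le_lintegral_enorm _)
  have hpt : ∀ᵐ z ∂D.μ, J p * ‖w z‖ₑ ≤ ‖(D.θ z.1 z.2 : ℝ)‖ₑ * J (D.N z.1 z.2) := by
    filter_upwards [s.ae_le] with z hz
    rw [hw]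
    simp only
    rw [enorm_mul]
    calc _ = ‖(D.θ z.1 z.2 : ℝ)‖ₑ * (J p * ‖del Q z‖ₑ) := by ring
      _ ≤ _ := mul_le_mul' le_rfl (s.J_le hz)
  have hle2 : J p * ∫⁻ z, ‖w z‖ₑ ∂D.μ ≤ D.cost J := by
    rw [cost_om, ← lintegral_const_mul' _ _ hJpt]
    exact lintegral_mono_ae hpt
  have hle3 : D.cost J ≤ J p * ENNReal.ofReal (∫ z, w z ∂D.μ) := by
    rw [← hvol]
    exact s.cost
  -- the first equality
  have heq1 : ∫⁻ z, ‖w z‖ₑ ∂D.μ = ENNReal.ofReal (∫ z, w z ∂D.μ) := by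
    refine le_antisymm ?_ hle1
    exact (ENNReal.mul_le_mul_iff_right hJp0 hJpt).1 (hle2.trans hle3)
  constructor
  · have h1 : ∫⁻ z, ‖w z‖ₑ ∂D.μ = ENNReal.ofReal (∫ z, |w z| ∂D.μ) := by
      rw [ofReal_integral_eq_lintegral_ofReal hwi.abs
        (Filter.Eventually.of_forall fun z => abs_nonneg _)]
      refine lintegral_congr fun z => ?_
      rw [Real.enorm_eq_ofReal_abs]
    rw [h1] at heq1
    have h2 : 0 ≤ ∫ z, w z ∂D.μ := by
      rw [hint]
      exact ENNReal.toReal_nonneg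
    have h3 : ∫ z, |w z| ∂D.μ = ∫ z, w z ∂D.μ :=
      (ENNReal.ofReal_eq_ofReal_iff (integral_nonneg fun z => abs_nonneg _) h2).1 heq1
    have h4 : ∫ z, (|w z| - w z) ∂D.μ = 0 := by
      rw [integral_sub hwi.abs hwi, h3, sub_self]
    have hsub : Integrable (fun z => |w z| - w z) D.μ := hwi.abs.sub hwi
    rw [integral_eq_zero_iff_of_nonneg (fun z => sub_nonneg.2 (le_abs_self (w z))) hsub] at h4
    filter_upwards [h4] with z hz
    simp only [Pi.zero_apply] at hz
    have := abs_nonneg (w z)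
    linarith
  · have h1 : (fun z => J p * ‖w z‖ₑ) =ᵐ[D.μ]
        fun z => ‖(D.θ z.1 z.2 : ℝ)‖ₑ * J (D.N z.1 z.2) := by
      refine ae_eq_of_ae_le_of_lintegral_le hpt ?_ s.cost_meas.aemeasurable ?_
      · rw [lintegral_const_mul' _ _ hJpt]
        exact (lt_of_le_of_lt hle2 s.finite).ne
      · rw [← cost_om, lintegral_const_mul' _ _ hJpt, heq1]
        exact hle3
    filter_upwards [h1, s.ae_le, ae_isNrm s.dens s.isLip s.biLip] with z hz hle hn hθ
    have hθ' : ‖(D.θ z.1 z.2 : ℝ)‖ₑ ≠ 0 := by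
      rw [enorm_ne_zero]
      exact_mod_cast hθ
    have e1 : J p * ‖del Q z‖ₑ = J (D.N z.1 z.2) := by
      have e2 : ‖(D.θ z.1 z.2 : ℝ)‖ₑ * (J p * ‖del Q z‖ₑ) =
          ‖(D.θ z.1 z.2 : ℝ)‖ₑ * J (D.N z.1 z.2) := by
        rw [← hz, hw]
        simp only
        rw [enorm_mul]
        ring
      exact (ENNReal.mul_right_inj hθ' enorm_ne_top).1 e2
    have h0 : del Q z ≠ 0 := by
      intro h0
      rw [h0, enorm_zero, mul_zero] at e1
      exact (s.vol.pos _ hn).ne e1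
    refine ⟨h0, s.vol.strict _ _ ?_ hn hle ?_⟩
    · intro v hv
      have h2 : (fderiv ℝ (vec fun j => Q j z.1) z.2 : Rn m →ₗ[ℝ] Rn m) v = 0 := s.body.nrm _ hv
      have h3 : Function.Injective (fderiv ℝ (vec fun j => Q j z.1) z.2 : Rn m →ₗ[ℝ] Rn m) :=
        (LinearMap.equivOfDetNeZero _ h0).injective
      exact h3 (by rw [h2, map_zero])
    · have h1 := s.vol.comp p (fderiv ℝ (vec fun j => Q j z.1) z.2 : Rn m →ₗ[ℝ] Rn m)
        s.body.nrm h0
      rw [h1, ← e1, Real.enorm_eq_ofReal_abs, mul_comm]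
      rfl

/-- the hypothesis of the factorisation lemma -/
theorem Setup.lintegral_eq (s : Setup p e f TX J D Q) {B : Set (Rn m)} (hB : MeasurableSet B) :
    ∑' i, ∫⁻ u in D.A i ∩ (vec fun j => Q j i) ⁻¹' B,
      ‖(D.θ i u : ℝ) * (fderiv ℝ (vec fun j => Q j i) u).det‖ₑ = volume (B ∩ range e) := by
  have h1 := s.integral_eq (q := B.indicator fun _ => 1) (measurable_const.indicator hB) (B := 1)
    (fun u => by by_cases hu : u ∈ B <;> simp [hu])
  have e1 : ∫ u in range e, B.indicator (fun _ => (1 : ℝ)) u = (volume (B ∩ range e)).toReal := by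
    rw [integral_indicator hB, Measure.restrict_restrict hB]
    simp [Measure.real]
  rw [e1] at h1
  have hi : Integrable (fun z => B.indicator (fun _ => (1 : ℝ)) (Ps Q z) *
      ((D.θ z.1 z.2 : ℝ) * del Q z)) D.μ := by
    refine s.integrable.bdd_mul (c := 1) ?_ (Filter.Eventually.of_forall fun z => ?_)
    · exact ((measurable_const.indicator hB).comp s.measurable_Ps).aestronglyMeasurable
    · by_cases hu : Ps Q z ∈ B <;> simp [hu]
  have h2 : volume (B ∩ range e) = ENNReal.ofReal (∫ z, B.indicator (fun _ => (1 : ℝ)) (Ps Q z) *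
      ((D.θ z.1 z.2 : ℝ) * del Q z) ∂D.μ) := by
    rw [h1, ENNReal.ofReal_toReal]
    exact ((measure_mono inter_subset_right).trans_lt s.body.volume_lt_top).ne
  rw [h2, ofReal_integral_eq_lintegral_ofReal hi (by
    filter_upwards [s.equality.1] with z hz
    by_cases hu : Ps Q z ∈ B <;> simp [hu, hz])]
  rw [lintegral_om]
  refine tsum_congr fun i => ?_
  have hΨ : MeasurableSet ((vec fun j => Q j i) ⁻¹' B) := by
    obtain ⟨C, hC⟩ := vec_lip (s.lipQ · i)
    exact hC.continuous.measurable hB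
  rw [inter_comm, ← Measure.restrict_restrict hΨ, ← lintegral_indicator hΨ]
  have h3 := s.equality.1
  rw [ae_om D s.isLip.countable] at h3
  refine lintegral_congr_ae ?_
  filter_upwards [h3 i] with u hu
  by_cases hub : u ∈ (vec fun j => Q j i) ⁻¹' B
  · have hub' : Ps Q (i, u) ∈ B := hub
    rw [indicator_of_mem hub, indicator_of_mem hub', one_mul, Real.enorm_eq_ofReal_abs]
    have h4 : (D.θ i u : ℝ) * (fderiv ℝ (vec fun j => Q j i) u).det =
      (D.θ (i, u).1 (i, u).2 : ℝ) * del Q (i, u) := rfl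
    rw [h4, abs_of_nonneg hu]
  · have hub' : Ps Q (i, u) ∉ B := hub
    rw [indicator_of_notMem hub, indicator_of_notMem hub', zero_mul, ENNReal.ofReal_zero]

end

end Pool.Agent.W674.LVF
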