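import Pool.Agent.W674.LVF.Om

/-! # Jacobians along Lipschitz parametrisations -/

set_option autoImplicit false

open MeasureTheory Set Filter Topology Asymptotics
open scoped ENNReal NNReal
open Pool.Agent.W674.LVR

namespace Pool.Agent.W674.LVF

variable {k : ℕ} {E : Type}

theorem measurable_det {α : Type} [MeasurableSpace α] {M : α → Matrix (Fin k) (Fin k) ℝ}
    (h : ∀ i j, Measurable fun a => M a i j) : Measurable fun a => (M a).det := by
  simp_rw [Matrix.det_apply]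
  refine Finset.measurable_sum _ fun σ _ => ?_
  refine Measurable.const_smul ?_ _
  exact Finset.measurable_prod _ fun i _ => h _ _

theorem measurable_jac (Q : Fin k → Rn k → ℝ) : Measurable (jac Q) := by
  unfold jac
  exact measurable_det fun i j => measurable_fderiv_apply_const ℝ (Q i) _

theorem norm_isNrm : IsNrm (normSeminorm ℝ (Rn k)) := by
  intro w hw
  exact norm_eq_zero.1 hw

theorem det_le {J : Seminorm ℝ (Rn k) → ℝ≥0∞} (hJ : VolFun k J) : ∃ C : ℝ≥0,
    ∀ (N : Seminorm ℝ (Rn k)) (M : Matrix (Fin k) (Fin k) ℝ) (L : ℝ≥0), 0 < L →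
      (∀ i w, |∑ j, M i j * w j| ≤ L * N w) → ‖M.det‖ₑ ≤ L ^ k * C * J N := by
  set S := normSeminorm ℝ (Rn k) with hS
  have hS1 : IsNrm S := norm_isNrm
  have hpos := hJ.pos S hS1
  have hlt := hJ.lt_top S
  refine ⟨(J S)⁻¹.toNNReal, fun N M L hL h => ?_⟩
  by_cases hdet : M.det = 0
  · simp [hdet]
  set T : Rn k →ₗ[ℝ] Rn k := Matrix.toLin' M with hT
  have hTdet : LinearMap.det T = M.det := LinearMap.det_toLin' M
  have hTw : ∀ w i, T w i = ∑ j, M i j * w j := by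
    intro w i
    rw [hT, Matrix.toLin'_apply]
    rfl
  have hle : ∀ w, ‖T w‖ ≤ L * N w := by
    intro w
    rw [pi_norm_le_iff_of_nonneg (by positivity)]
    intro i
    rw [hTw, Real.norm_eq_abs]
    exact h i w
  have hinj : ∀ w, T w = 0 → w = 0 := by
    intro w hw
    have := Matrix.eq_zero_of_mulVec_eq_zero hdet (v := w) (by rw [← Matrix.toLin'_apply]; exact hw)
    exact this
  have hN : IsNrm N := by
    intro w hw
    have := hle w
    rw [hw, mul_zero] at this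
    exact hinj w (norm_le_zero_iff.1 this)
  have e1 := hJ.comp S T hS1 (by rw [hTdet]; exact hdet)
  have e2 := hJ.comp N ((L : ℝ) • LinearMap.id) hN (by
    rw [LinearMap.det_smul, LinearMap.det_id, mul_one]
    have : (L : ℝ) ≠ 0 := by exact_mod_cast hL.ne'
    exact pow_ne_zero _ this)
  have e3 : J (S.comp T) ≤ J (N.comp ((L : ℝ) • LinearMap.id)) := by
    refine hJ.mono _ _ fun w => ?_
    show ‖T w‖ ≤ N ((L : ℝ) • w)
    rw [map_smul_eq_mul, Real.norm_of_nonneg (NNReal.coe_nonneg L)]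
    exact hle w
  rw [e1, e2, LinearMap.det_smul, LinearMap.det_id, mul_one, hTdet] at e3
  have e4 : ENNReal.ofReal |(L : ℝ) ^ Module.finrank ℝ (Rn k)| = (L : ℝ≥0∞) ^ k := by
    rw [Module.finrank_fin_fun, abs_of_nonneg (by positivity), ENNReal.ofReal_pow (NNReal.coe_nonneg L)]
    simp
  rw [e4] at e3
  have hc : ((J S)⁻¹.toNNReal : ℝ≥0∞) = (J S)⁻¹ :=
    ENNReal.coe_toNNReal (ENNReal.inv_ne_top.2 hpos.ne')
  rw [hc, Real.enorm_eq_ofReal_abs]
  calc ENNReal.ofReal |M.det| = ENNReal.ofReal |M.det| * J S * (J S)⁻¹ := by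
        rw [mul_assoc, ENNReal.mul_inv_cancel hpos.ne' hlt.ne, mul_one]
    _ ≤ (L : ℝ≥0∞) ^ k * J N * (J S)⁻¹ := by gcongr
    _ = _ := by ring

/-- a Lipschitz extension of `q ∘ φᵢ` -/
theorem exists_ext [PseudoMetricSpace E] {φ : Rn k → E} {A : Set (Rn k)}
    (hφ : ∃ K : ℝ≥0, LipschitzOnWith K φ A) {q : E → ℝ} (hq : Lip q) :
    ∃ Q : Rn k → ℝ, Lip Q ∧ ∀ u ∈ A, q (φ u) = Q u := by
  obtain ⟨K, hK⟩ := hφ
  obtain ⟨L, hL⟩ := hq
  obtain ⟨Q, hQ, h⟩ := (hL.comp_lipschitzOnWith hK).extend_real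
  exact ⟨Q, ⟨_, hQ⟩, h⟩

theorem Lip.ae_diff {Q : Rn k → ℝ} (h : Lip Q) : ∀ᵐ u, DifferentiableAt ℝ Q u :=
  h.choose_spec.ae_differentiableAt

/-- the facts at almost every point of a domain -/
theorem ae_facts [PseudoMetricSpace E] (hd : S_dens) {D : Param k E} (hD : D.IsLip) (i : D.ι)
    {q : E → ℝ} {L : ℝ≥0} (hq : LipschitzWith L q) {Q : Rn k → ℝ} (hQ : Lip Q)
    (h : ∀ u ∈ D.A i, q (D.φ i u) = Q u) :
    ∀ᵐ u ∂(volume.restrict (D.A i)), DifferentiableAt ℝ Q u ∧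
      fderivWithin ℝ (q ∘ D.φ i) (D.A i) u = fderiv ℝ Q u ∧
      ∀ w, |fderiv ℝ Q u w| ≤ L * D.N i u w := by
  filter_upwards [ae_good hd (hD.measA i), hD.md i, ae_restrict_mem (hD.measA i),
    ae_restrict_of_ae (Lip.ae_diff hQ)] with u hg hm hu hdiff
  refine ⟨hdiff, hg.fderivWithin_eq hu h hdiff, ?_⟩
  refine hg.abs_le_of_isMD hm hdiff.hasFDerivAt.hasFDerivWithinAt ?_
  intro w hw
  rw [← h w hw, ← h u hu, ← Real.dist_eq]
  exact hq.dist_le_mul _ _

theorem sum_fderiv (f : Rn k →L[ℝ] ℝ) (w : Rn k) : ∑ j, f (Pi.single j 1) * w j = f w := by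
  have h1 : w = ∑ i, w i • (Pi.single i (1 : ℝ) : Rn k) := by
    ext j
    simp [Finset.sum_apply, Pi.single_apply]
  conv_rhs => rw [h1, map_sum]
  refine Finset.sum_congr rfl fun i _ => ?_
  rw [map_smul, smul_eq_mul, mul_comm]

theorem exists_common {m : ℕ} {π : Fin m → E → ℝ} [PseudoMetricSpace E] (hπ : ∀ j, Lip (π j)) :
    ∃ L : ℝ≥0, 0 < L ∧ ∀ j, LipschitzWith L (π j) := by
  choose K hK using hπ
  refine ⟨1 + ∑ j, K j, by positivity, fun j => (hK j).weaken ?_⟩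
  calc K j ≤ ∑ j, K j := Finset.single_le_sum (fun _ _ => zero_le) (Finset.mem_univ j)
    _ ≤ _ := le_add_self

/-- the Jacobian within the domain: representation by extensions, and bound -/
theorem ae_jac [PseudoMetricSpace E] (hd : S_dens) {D : Param k E} (hD : D.IsLip) (i : D.ι)
    {π : Fin k → E → ℝ} (hπ : ∀ j, Lip (π j)) {Q : Fin k → Rn k → ℝ} (hQ : ∀ j, Lip (Q j))
    (h : ∀ j, ∀ u ∈ D.A i, π j (D.φ i u) = Q j u) :
    ∀ᵐ u ∂(volume.restrict (D.A i)), jacW (D.A i) (fun j => π j ∘ D.φ i) u = jac Q u := by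
  choose K hK using hπ
  have := fun j => ae_facts hd hD i (hK j) (hQ j) (h j)
  rw [← ae_all_iff] at this
  filter_upwards [this] with u hu
  unfold jacW jac
  congr 1
  ext a b
  simp only [Matrix.of_apply]
  rw [(hu a).2.1]

theorem ae_jac_le [PseudoMetricSpace E] (hd : S_dens) {J : Seminorm ℝ (Rn k) → ℝ≥0∞}
    (hJ : VolFun k J) {D : Param k E} (hD : D.IsLip)
    {π : Fin k → E → ℝ} (hπ : ∀ j, Lip (π j)) :
    ∃ C : ℝ≥0, ∀ i, ∀ᵐ u ∂(volume.restrict (D.A i)),
      ‖jacW (D.A i) (fun j => π j ∘ D.φ i) u‖ₑ ≤ C * J (D.N i u) := by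
  obtain ⟨L, hL, hπL⟩ := exists_common hπ
  obtain ⟨C, hC⟩ := det_le hJ
  refine ⟨L ^ k * C, fun i => ?_⟩
  choose Q hQ h using fun j => exists_ext (hD.lip i) (hπ j)
  have := fun j => ae_facts hd hD i (hπL j) (hQ j) (h j)
  rw [← ae_all_iff] at this
  filter_upwards [this] with u hu
  push_cast
  refine hC _ _ L hL fun a w => ?_
  simp only [Matrix.of_apply]
  rw [sum_fderiv, (hu a).2.1]
  exact (hu a).2.2 w

theorem aemeasurable_jac [PseudoMetricSpace E] (hd : S_dens) {D : Param k E} (hD : D.IsLip)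
    {π : Fin k → E → ℝ} (hπ : ∀ j, Lip (π j)) :
    AEMeasurable (fun z : D.ι × Rn k => jacW (D.A z.1) (fun j => π j ∘ D.φ z.1) z.2) D.μ := by
  refine aemeasurable_om D hD.countable fun i => ?_
  choose Q hQ h using fun j => exists_ext (hD.lip i) (hπ j)
  exact ⟨jac Q, measurable_jac Q, ae_jac hd hD i hπ hQ h⟩

theorem aemeasurable_φ [PseudoMetricSpace E] [MeasurableSpace E] [BorelSpace E] {D : Param k E}
    (hD : D.IsLip) : AEMeasurable (fun z : D.ι × Rn k => D.φ z.1 z.2) D.μ := by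
  refine aemeasurable_om D hD.countable fun i => ?_
  obtain ⟨K, hK⟩ := hD.lip i
  exact hK.continuousOn.aemeasurable (hD.measA i)

theorem measurable_θ [PseudoMetricSpace E] {D : Param k E} (hD : D.IsLip) :
    Measurable (fun z : D.ι × Rn k => D.θ z.1 z.2) :=
  measurable_om D hD.countable fun i => hD.measθ i

theorem measurable_N [PseudoMetricSpace E] {D : Param k E} (hD : D.IsLip)
    {J : Seminorm ℝ (Rn k) → ℝ≥0∞} (hJ : VolFun k J) :
    Measurable (fun z : D.ι × Rn k => J (D.N z.1 z.2)) :=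
  measurable_om D hD.countable fun i => hJ.meas _ (hD.measN i)

/-- the density of the functional on the parameter space -/
noncomputable def dens (D : Param k E) (π : Fin k → E → ℝ) (z : D.ι × Rn k) : ℝ :=
  (D.θ z.1 z.2 : ℝ) * jacW (D.A z.1) (fun j => π j ∘ D.φ z.1) z.2

theorem integrable_dens [PseudoMetricSpace E] (hd : S_dens) {J : Seminorm ℝ (Rn k) → ℝ≥0∞}
    (hJ : VolFun k J) {D : Param k E} (hD : D.IsLip) (hf : D.cost J < ⊤)
    {π : Fin k → E → ℝ} (hπ : ∀ j, Lip (π j)) : Integrable (dens D π) D.μ := by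
  refine ⟨?_, ?_⟩
  · have h1 : Measurable (fun z : D.ι × Rn k => (D.θ z.1 z.2 : ℝ)) :=
      (measurable_of_countable (fun z : ℤ => (z : ℝ))).comp (measurable_θ hD)
    exact (h1.aemeasurable.mul (aemeasurable_jac hd hD hπ)).aestronglyMeasurable
  · obtain ⟨C, hC⟩ := ae_jac_le hd hJ hD hπ
    rw [hasFiniteIntegral_iff_enorm]
    have h1 : ∫⁻ z, ‖dens D π z‖ₑ ∂D.μ ≤ ∫⁻ z, C * (‖(D.θ z.1 z.2 : ℝ)‖ₑ * J (D.N z.1 z.2)) ∂D.μ := by
      refine lintegral_mono_ae ?_
      rw [ae_om D hD.countable]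
      intro i
      filter_upwards [hC i] with u hu
      unfold dens
      rw [enorm_mul]
      calc _ ≤ ‖(D.θ i u : ℝ)‖ₑ * (C * J (D.N i u)) := by gcongr
        _ = _ := by ring
    refine h1.trans_lt ?_
    have h2 : Measurable (fun z : D.ι × Rn k => ‖(D.θ z.1 z.2 : ℝ)‖ₑ * J (D.N z.1 z.2)) :=
      ((measurable_of_countable (fun z : ℤ => ‖(z : ℝ)‖ₑ)).comp (measurable_θ hD)).mul
        (measurable_N hD hJ)
    rw [lintegral_const_mul _ h2, ← cost_om]
    exact ENNReal.mul_lt_top ENNReal.coe_lt_top hf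

/-- the functional is an integral on the parameter space -/
theorem Represents.eq_integral [PseudoMetricSpace E] [MeasurableSpace E] [BorelSpace E]
    (hd : S_dens) {J : Seminorm ℝ (Rn k) → ℝ≥0∞}
    (hJ : VolFun k J) {D : Param k E} (hD : D.IsLip) (hf : D.cost J < ⊤) {T : Fnl k E}
    (hT : D.Represents T) {f : E → ℝ} {π : Fin k → E → ℝ} (hb : BLip f) (hπ : ∀ j, Lip (π j)) :
    T f π = ∫ z, f (D.φ z.1 z.2) * dens D π z ∂D.μ := by
  have h1 := integrable_dens hd hJ hD hf hπ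
  obtain ⟨⟨K, hK⟩, B, hB⟩ := hb
  have h2 : Integrable (fun z : D.ι × Rn k => f (D.φ z.1 z.2) * dens D π z) D.μ := by
    refine h1.bdd_mul (c := B) ?_ (Filter.Eventually.of_forall fun z => hB _)
    exact (hK.continuous.measurable.comp_aemeasurable (aemeasurable_φ hD)).aestronglyMeasurable
  refine (hT f π ⟨⟨K, hK⟩, B, hB⟩ hπ).unique ?_
  refine HasSum.congr_fun (hasSum_om D h2) fun i => ?_
  refine integral_congr_ae (Filter.Eventually.of_forall fun u => ?_)
  simp only [dens]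
  ring

end Pool.Agent.W674.LVF
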