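import Pool.Agent.W674.LVF.Eq

/-! # Linear algebra -/

set_option autoImplicit false
set_option linter.unusedSectionVars false

open MeasureTheory Set Filter Topology
open scoped ENNReal NNReal
open Pool.Agent.W674.LVR

namespace Pool.Agent.W674.LVF

variable {n : ℕ}

theorem sum_updateRow {m : ℕ} (M : Matrix (Fin m) (Fin m) ℝ) (a w : Fin m → ℝ) :
    ∑ j, (M.mulVec w) j * (M.updateRow j a).det = M.det * ∑ b, a b * w b := by
  have h1 : ∀ j, (M.updateRow j a).det = Matrix.cramer M.transpose a j := fun j =>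
    (Matrix.cramer_transpose_apply M a j).symm
  simp_rw [h1]
  have h2 := Matrix.mulVec_cramer M.transpose a
  have h3 : ∑ j, (M.mulVec w) j * Matrix.cramer M.transpose a j =
      dotProduct (M.mulVec w) (Matrix.cramer M.transpose a) := rfl
  rw [h3, dotProduct_comm, Matrix.dotProduct_mulVec, ← Matrix.mulVec_transpose, h2,
    smul_dotProduct, Matrix.det_transpose, smul_eq_mul]
  rfl

theorem det_cons (M : Matrix (Fin (n + 1)) (Fin (n + 1)) ℝ) (a : Fin (n + 1) → ℝ)
    (j : Fin (n + 1)) : (M.updateRow j a).det = (Equiv.Perm.sign j.cycleRange : ℤ) *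
      (Matrix.of (Fin.cons a (fun i => M (j.succAbove i)) : Fin (n + 1) → Fin (n + 1) → ℝ)).det := by
  rw [← Matrix.det_permute]
  congr 1
  ext r b
  rw [Matrix.submatrix_apply, Matrix.of_apply, id]
  rcases eq_or_ne r j with rfl | hr
  · rw [Matrix.updateRow_self, Fin.cycleRange_self]
    rfl
  · obtain ⟨i, rfl⟩ := Fin.exists_succAbove_eq hr
    rw [Matrix.updateRow_ne (Fin.succAbove_ne j i), Fin.cycleRange_succAbove]
    rfl

end Pool.Agent.W674.LVF
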