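import Pool.Agent.W674.LVF.Tool

/-! # The parameter space of a parametrised current -/

set_option autoImplicit false

open MeasureTheory Set Filter Topology Asymptotics
open scoped ENNReal NNReal
open Pool.Agent.W674.LVR

namespace Pool.Agent.W674.LVF

variable {k : ℕ} {E : Type}

instance instMeasι (D : Param k E) : MeasurableSpace D.ι := ⊤

instance instMeasι' (D : Param k E) : DiscreteMeasurableSpace D.ι := ⟨fun _ => trivial⟩

/-- the parameter measure -/
noncomputable def Param.μ (D : Param k E) : Measure (D.ι × Rn k) :=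
  Measure.sum fun i => (volume.restrict (D.A i)).map (Prod.mk i)

theorem emb_mk (D : Param k E) (i : D.ι) :
    MeasurableEmbedding (Prod.mk i : Rn k → D.ι × Rn k) :=
  measurableEmbedding_prodMk_left i

theorem measurable_om (D : Param k E) (hc : Countable D.ι) {β : Type} [MeasurableSpace β]
    {f : D.ι × Rn k → β} (h : ∀ i, Measurable fun u => f (i, u)) : Measurable f :=
  measurable_from_prod_countable_right h

theorem ae_om (D : Param k E) (hc : Countable D.ι) {P : D.ι × Rn k → Prop} :
    (∀ᵐ z ∂D.μ, P z) ↔ ∀ i, ∀ᵐ u ∂(volume.restrict (D.A i)), P (i, u) := by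
  unfold Param.μ
  rw [Measure.ae_sum_iff]
  refine forall_congr' fun i => ?_
  exact (emb_mk D i).ae_map_iff

theorem lintegral_om (D : Param k E) (f : D.ι × Rn k → ℝ≥0∞) :
    ∫⁻ z, f z ∂D.μ = ∑' i, ∫⁻ u in D.A i, f (i, u) := by
  unfold Param.μ
  rw [lintegral_sum_measure]
  refine tsum_congr fun i => ?_
  exact (emb_mk D i).lintegral_map _

theorem aemeasurable_om (D : Param k E) (hc : Countable D.ι) {β : Type} [MeasurableSpace β]
    {f : D.ι × Rn k → β} (h : ∀ i, AEMeasurable (fun u => f (i, u)) (volume.restrict (D.A i))) :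
    AEMeasurable f D.μ := by
  unfold Param.μ
  rw [aemeasurable_sum_measure_iff]
  intro i
  exact (emb_mk D i).aemeasurable_map_iff.2 (h i)

theorem hasSum_om (D : Param k E) {f : D.ι × Rn k → ℝ} (hf : Integrable f D.μ) :
    HasSum (fun i => ∫ u in D.A i, f (i, u)) (∫ z, f z ∂D.μ) := by
  have h := hasSum_integral_measure (μ := fun i => (volume.restrict (D.A i)).map (Prod.mk i)) hf
  refine HasSum.congr_fun h fun i => ?_
  exact ((emb_mk D i).integral_map f).symm

/-- restriction of the domains -/
def Param.restr (D : Param k E) (S : Set (D.ι × Rn k)) : Param k E where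
  ι := D.ι
  A := fun i => D.A i ∩ {u | (i, u) ∈ S}
  φ := D.φ
  θ := D.θ
  N := D.N

theorem cost_om (D : Param k E) (J : Seminorm ℝ (Rn k) → ℝ≥0∞) :
    D.cost J = ∫⁻ z, ‖(D.θ z.1 z.2 : ℝ)‖ₑ * J (D.N z.1 z.2) ∂D.μ := by
  rw [lintegral_om]
  rfl

theorem sigmaFinite_om (D : Param k E) (hc : Countable D.ι) : SFinite D.μ := by
  unfold Param.μ
  infer_instance

theorem measurableSet_inter_preimage {α β : Type} [MeasurableSpace α] [TopologicalSpace α]
    [OpensMeasurableSpace α] [TopologicalSpace β] [MeasurableSpace β] [BorelSpace β]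
    {f : α → β} {A : Set α} {W : Set β} (hf : ContinuousOn f A) (hA : MeasurableSet A)
    (hW : MeasurableSet W) : MeasurableSet (A ∩ f ⁻¹' W) := by
  have h1 : Measurable (A.domRestrict f) := (continuousOn_iff_continuous_domRestrict.1 hf).measurable
  have h2 : A ∩ f ⁻¹' W = Subtype.val '' (A.domRestrict f ⁻¹' W) := by
    ext x
    simp only [mem_inter_iff, mem_preimage, mem_image, Subtype.exists, domRestrict_apply]
    constructor
    · rintro ⟨h, h'⟩
      exact ⟨x, h, h', rfl⟩
    · rintro ⟨y, h, h', rfl⟩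
      exact ⟨h, h'⟩
  rw [h2]
  exact MeasurableSet.subtype_image hA (h1 hW)

theorem measurableSet_in {D : Param k E} (hc : Countable D.ι) {S : Set (D.ι × Rn k)}
    (h : ∀ i, MeasurableSet {u | (i, u) ∈ S}) : MeasurableSet S := by
  have h1 : S = ⋃ i, (Prod.mk i) '' {u | (i, u) ∈ S} := by
    ext ⟨i, u⟩
    simp only [mem_iUnion, mem_image]
    constructor
    · intro h
      exact ⟨i, u, h, rfl⟩
    · rintro ⟨j, v, hv, h⟩
      rw [← h]
      exact hv
  rw [h1]
  exact MeasurableSet.iUnion fun i => (emb_mk D i).measurableSet_image.2 (h i)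

end Pool.Agent.W674.LVF
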