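import Pool.Agent.W674.LVF.Stm3
import Pool.Agent.W674.LVF.Bd

/-! # The radial retraction onto a convex body -/

set_option autoImplicit false

open MeasureTheory Set Filter Topology Asymptotics
open scoped ENNReal NNReal
open Pool.Agent.W674.LVR

namespace Pool.Agent.W674.LVF

variable {m : ℕ}

/-- radial retraction onto `K`, a neighbourhood of `0` -/
noncomputable def rr (K : Set (Rn m)) (v : Rn m) : Rn m := (max 1 (gauge K v))⁻¹ • v

theorem rr_pos (K : Set (Rn m)) (v : Rn m) : 0 < max 1 (gauge K v) :=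
  lt_of_lt_of_le one_pos (le_max_left _ _)

theorem rr_mem {K : Set (Rn m)} (hc : IsCompact K) (hK : Convex ℝ K) (h0 : K ∈ 𝓝 0) (v : Rn m) :
    rr K v ∈ K := by
  have h1 : gauge K (rr K v) ≤ 1 := by
    unfold rr
    rw [gauge_smul_of_nonneg (inv_nonneg.2 (rr_pos K v).le), smul_eq_mul,
      inv_mul_le_iff₀ (rr_pos K v), mul_one]
    exact le_max_right _ _
  have := (gauge_le_one_iff_mem_closure hK h0).1 h1
  rwa [hc.isClosed.closure_eq] at this

theorem rr_id {K : Set (Rn m)} {v : Rn m} (hv : v ∈ K) : rr K v = v := by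
  unfold rr
  rw [max_eq_left (gauge_le_one_of_mem hv), inv_one, one_smul]

theorem rr_lip {K : Set (Rn m)} (hc : IsCompact K) (hK : Convex ℝ K) (h0 : K ∈ 𝓝 0) :
    ∃ C : ℝ≥0, LipschitzWith C (rr K) := by
  obtain ⟨L, hL⟩ := hK.lipschitz_gauge h0
  obtain ⟨R, hR⟩ := hc.isBounded.exists_norm_le
  have hR0 : 0 ≤ R := le_trans (norm_nonneg _) (hR 0 (mem_of_mem_nhds h0))
  refine ⟨1 + R.toNNReal * L, LipschitzWith.of_dist_le_mul fun v w => ?_⟩
  have hM : |max 1 (gauge K w) - max 1 (gauge K v)| ≤ L * dist v w := by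
    have h1 : LipschitzWith L (fun v => max 1 (gauge K v)) := by
      have := (LipschitzWith.const (α := Rn m) (1 : ℝ)).max hL
      simpa using this
    have := h1.dist_le_mul w v
    rwa [Real.dist_eq, dist_comm w v] at this
  set a := max 1 (gauge K v) with ha
  set b := max 1 (gauge K w) with hb
  have ha1 : 1 ≤ a := le_max_left _ _
  have hb1 : 1 ≤ b := le_max_left _ _
  have e1 : rr K v - rr K w = a⁻¹ • (v - w) + (a⁻¹ * (b - a)) • rr K w := by
    unfold rr
    rw [← ha, ← hb]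
    ext j
    simp only [Pi.sub_apply, Pi.smul_apply, Pi.add_apply, smul_eq_mul]
    field_simp
    ring
  rw [dist_eq_norm, e1, dist_eq_norm]
  rw [dist_eq_norm] at hM
  have h2 : ‖a⁻¹ • (v - w)‖ ≤ ‖v - w‖ := by
    rw [norm_smul, norm_inv, Real.norm_of_nonneg (by linarith)]
    exact mul_le_of_le_one_left (norm_nonneg _) (inv_le_one_of_one_le₀ ha1)
  have h3 : ‖(a⁻¹ * (b - a)) • rr K w‖ ≤ (L * ‖v - w‖) * R := by
    rw [norm_smul]
    refine mul_le_mul ?_ (hR _ (rr_mem hc hK h0 w)) (norm_nonneg _) (by positivity)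
    rw [norm_mul, norm_inv, Real.norm_of_nonneg (r := a) (by linarith), Real.norm_eq_abs]
    exact le_trans (mul_le_of_le_one_left (abs_nonneg _) (inv_le_one_of_one_le₀ ha1)) hM
  refine (norm_add_le _ _).trans ((add_le_add h2 h3).trans (le_of_eq ?_))
  push_cast
  rw [Real.coe_toNNReal _ hR0]
  ring

theorem rr_ray {K : Set (Rn m)} {v : Rn m} (hv : 1 < gauge K v) {t : ℝ}
    (ht : 1 ≤ (1 + t) * gauge K v) (ht1 : 0 < 1 + t) : rr K (v + t • v) = rr K v := by
  have e : v + t • v = (1 + t) • v := by rw [add_smul, one_smul]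
  rw [e]
  unfold rr
  rw [gauge_smul_of_nonneg ht1.le, smul_eq_mul, max_eq_right ht, max_eq_right hv.le, smul_smul]
  congr 1
  field_simp

theorem S_retr_proof : S_retr := by
  intro m K hc hK hi
  obtain ⟨u0, hu0⟩ := hi
  set K0 : Set (Rn m) := (fun v => u0 + v) ⁻¹' K with hK0
  have hmem : ∀ v, v ∈ K0 ↔ u0 + v ∈ K := fun v => Iff.rfl
  have hc0 : IsCompact K0 := by
    have : K0 = (Homeomorph.addLeft u0) ⁻¹' K := rfl
    rw [this]
    exact (Homeomorph.addLeft u0).isCompact_preimage.2 hc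
  have hK0c : Convex ℝ K0 := hK.translate_preimage_right u0
  have h00 : K0 ∈ 𝓝 (0 : Rn m) := by
    have hcont : ContinuousAt (fun v : Rn m => u0 + v) 0 := by fun_prop
    refine hcont ?_
    show K ∈ 𝓝 (u0 + 0)
    rw [add_zero]
    exact mem_interior_iff_mem_nhds.1 hu0
  obtain ⟨C, hC⟩ := rr_lip hc0 hK0c h00
  refine ⟨fun u => u0 + rr K0 (u - u0), ⟨C, ?_⟩, ?_, ?_, ?_⟩
  · refine LipschitzWith.of_dist_le_mul fun u v => ?_
    rw [dist_add_left]
    refine (hC.dist_le_mul _ _).trans (le_of_eq ?_)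
    rw [dist_sub_right]
  · intro u hu
    show u0 + rr K0 (u - u0) = u
    rw [rr_id ((hmem _).2 (by simpa using hu))]
    simp
  · intro u
    exact (hmem _).1 (rr_mem hc0 hK0c h00 _)
  · intro G hG
    have hPl : LipschitzWith C (fun u => u0 + rr K0 (u - u0)) := by
      refine LipschitzWith.of_dist_le_mul fun u v => ?_
      rw [dist_add_left]
      refine (hC.dist_le_mul _ _).trans (le_of_eq ?_)
      rw [dist_sub_right]
    have hlip : ∀ j, Lip (fun v => G j (u0 + rr K0 (v - u0))) := fun j => by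
      obtain ⟨A, hA⟩ := hG j
      exact ⟨_, hA.comp hPl⟩
    have hd : ∀ᵐ u, ∀ j, DifferentiableAt ℝ (fun v => G j (u0 + rr K0 (v - u0))) u :=
      ae_all_iff.2 fun j => Lip.ae_diff (hlip j)
    filter_upwards [ae_restrict_of_ae hd, ae_restrict_mem hc.measurableSet.compl] with u h1 h2
    have hg : 1 < gauge K0 (u - u0) := by
      by_contra hcon
      have := (gauge_le_one_iff_mem_closure hK0c h00).1 (not_lt.1 hcon)
      rw [hc0.isClosed.closure_eq, hmem] at this
      exact h2 (by simpa using this)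
    have hne : u - u0 ≠ 0 := by
      intro h
      rw [h, gauge_zero] at hg
      exact absurd hg (by norm_num)
    unfold jac
    refine Matrix.exists_mulVec_eq_zero_iff.1 ⟨u - u0, hne, ?_⟩
    ext j
    have e1 : (Matrix.of fun i j => fderiv ℝ (fun v => G i (u0 + rr K0 (v - u0))) u
        (Pi.single j 1)).mulVec (u - u0) j =
        fderiv ℝ (fun v => G j (u0 + rr K0 (v - u0))) u (u - u0) := by
      rw [Matrix.mulVec, dotProduct]
      conv_rhs => rw [pi_eq_sum_univ' (u - u0)]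
      rw [map_sum]
      refine Finset.sum_congr rfl fun i _ => ?_
      rw [map_smul, smul_eq_mul, mul_comm]
      rfl
    rw [e1, Pi.zero_apply]
    have h3 := (h1 j).hasFDerivAt.hasLineDerivAt (u - u0)
    have h4 : HasDerivAt (fun t : ℝ => G j (u0 + rr K0 (u + t • (u - u0) - u0)))
        (fderiv ℝ (fun v => G j (u0 + rr K0 (v - u0))) u (u - u0)) 0 := h3
    have h5 : (fun t : ℝ => G j (u0 + rr K0 (u + t • (u - u0) - u0))) =ᶠ[𝓝 0]
        fun _ => G j (u0 + rr K0 (u - u0)) := by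
      have c1 : ContinuousAt (fun t : ℝ => (1 + t) * gauge K0 (u - u0)) 0 := by fun_prop
      have c2 : ContinuousAt (fun t : ℝ => 1 + t) 0 := by fun_prop
      have ev1 : ∀ᶠ t in 𝓝 (0 : ℝ), 1 < (1 + t) * gauge K0 (u - u0) :=
        c1.eventually (lt_mem_nhds (by simpa using hg))
      have ev2 : ∀ᶠ t in 𝓝 (0 : ℝ), 0 < 1 + t :=
        c2.eventually (lt_mem_nhds (by simp))
      filter_upwards [ev1, ev2] with t t1 t2
      have e2 : u + t • (u - u0) - u0 = (u - u0) + t • (u - u0) := by abel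
      rw [e2, rr_ray hg t1.le t2]
    have h6 : HasDerivAt (fun t : ℝ => G j (u0 + rr K0 (u + t • (u - u0) - u0))) 0 0 :=
      (hasDerivAt_const (0 : ℝ) (G j (u0 + rr K0 (u - u0)))).congr_of_eventuallyEq h5
    exact h4.unique h6

end Pool.Agent.W674.LVF
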