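import Pool.Agent.W674.LVF.Defs

/-! # Kirchheim's theorem: statements of the parts -/

set_option autoImplicit false

open MeasureTheory Set Filter Topology Asymptotics
open scoped ENNReal NNReal
open Pool.Agent.W674.LVR

namespace Pool.Agent.W674.LVF

/-- equi-Lipschitz sequences of functions: uniform one-sided bound of the difference quotients in
a fixed direction -/
def S_kdir : Prop := ∀ (k : ℕ) (φ : ℕ → Rn k → ℝ) (L : ℝ≥0) (v : Rn k),
  (∀ j, LipschitzWith L (φ j)) →
  ∀ᵐ u, ∀ ε : ℝ, 0 < ε → ∀ᶠ t in 𝓝[>] (0 : ℝ), ∀ j,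
    |φ j (u + t • v) - φ j u| ≤ ((⨆ i, |lineDeriv ℝ (φ i) u v|) + ε) * t

/-- Kirchheim's theorem: Lipschitz maps of subsets of `ℝᵏ` to metric spaces are metrically
differentiable almost everywhere -/
def S_kir : Prop := ∀ (k : ℕ) (E : Type) (_ : MetricSpace E) (φ : Rn k → E) (A : Set (Rn k)),
  MeasurableSet A → (∃ K : ℝ≥0, LipschitzOnWith K φ A) →
  ∃ N : Rn k → Seminorm ℝ (Rn k), (∀ w, Measurable fun u => N u w) ∧
    ∀ᵐ u ∂(volume.restrict A), IsMD φ A u (N u)

end Pool.Agent.W674.LVF
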