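import Pool.Agent.W674.LVF.Stm

/-! # The boundary of a convex body is rectifiable: statements of the parts -/

set_option autoImplicit false

open MeasureTheory Set Filter Topology Asymptotics
open scoped ENNReal NNReal
open Pool.Agent.W674.LVR

namespace Pool.Agent.W674.LVF

/-- the cube `[-r, r]ᵐ` -/
def cube (m : ℕ) (r : ℝ) : Set (Rn m) := Icc (fun _ => -r) (fun _ => r)

/-- Stokes' theorem on a cube, for Lipschitz functions -/
def S_stokes : Prop := ∀ (n : ℕ) (r : ℝ) (g : Rn (n + 1) → ℝ) (π : Fin n → Rn (n + 1) → ℝ),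
  0 < r → Lip g → (∀ j, Lip (π j)) →
  ∫ u in cube (n + 1) r, jac (Fin.cons g π : Fin (n + 1) → Rn (n + 1) → ℝ) u =
    ∑ i : Fin (n + 1), (-1 : ℝ) ^ (i : ℕ) *
      ((∫ w in cube n r, g (i.insertNth r w) *
          jac (fun j (v : Rn n) => π j (i.insertNth r v)) w) -
        ∫ w in cube n r, g (i.insertNth (-r) w) *
          jac (fun j (v : Rn n) => π j (i.insertNth (-r) v)) w)

/-- a Lipschitz retraction onto a convex body which is degenerate outside the body -/
def S_retr : Prop := ∀ (m : ℕ) (K : Set (Rn m)), IsCompact K → Convex ℝ K →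
  (interior K).Nonempty →
  ∃ P : Rn m → Rn m, (∃ C : ℝ≥0, LipschitzWith C P) ∧ (∀ u ∈ K, P u = u) ∧ (∀ u, P u ∈ K) ∧
    ∀ G : Fin m → Rn m → ℝ, (∀ j, Lip (G j)) →
      ∀ᵐ u ∂(volume.restrict Kᶜ), jac (fun j v => G j (P v)) u = 0

end Pool.Agent.W674.LVF
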