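import Pool.Agent.W674.LVF.Stm

/-! # Pointwise tools: density points and metric derivatives -/

set_option autoImplicit false

open MeasureTheory Set Filter Topology Asymptotics
open scoped ENNReal NNReal
open Pool.Agent.W674.LVR

namespace Pool.Agent.W674.LVF

/-- `u` is a point of `s` at which one may compare homogeneous functions -/
def Good {k : ℕ} (s : Set (Rn k)) (u : Rn k) : Prop :=
  ∀ a : Rn k → ℝ, Continuous a →
    (∀ (r : ℝ) (w : Rn k), 0 < r → a (r • w) = r * a w) →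
    (∀ ε : ℝ, 0 < ε → ∀ᶠ w in 𝓝[s] u, a (w - u) ≤ ε * ‖w - u‖) → ∀ w, a w ≤ 0

section

variable {k : ℕ}

theorem ae_good (hd : S_dens) {s : Set (Rn k)} (hs : MeasurableSet s) :
    ∀ᵐ u ∂(volume.restrict s), Good s u := hd k s hs

/-- every seminorm on `ℝᵏ` is bounded by a multiple of the norm -/
theorem seminorm_bound (N : Seminorm ℝ (Rn k)) : ∃ C : ℝ, 0 < C ∧ ∀ w, N w ≤ C * ‖w‖ := by
  refine ⟨1 + ∑ i, N (Pi.single i 1), ?_, fun w => ?_⟩
  · have : 0 ≤ ∑ i, N (Pi.single i (1 : ℝ) : Rn k) := Finset.sum_nonneg fun i _ => apply_nonneg _ _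
    linarith
  · have h1 : w = ∑ i, w i • (Pi.single i (1 : ℝ) : Rn k) := by
      ext j
      simp [Finset.sum_apply, Pi.single_apply]
    have h2 : N w ≤ ∑ i, N (w i • (Pi.single i (1 : ℝ) : Rn k)) := by
      conv_lhs => rw [h1]
      exact Finset.le_sum_of_subadditive N (map_zero N).le (fun x y => map_add_le_add N x y) _ _
    refine h2.trans ?_
    have h3 : ∀ i, N (w i • (Pi.single i (1 : ℝ) : Rn k)) ≤ ‖w‖ * N (Pi.single i 1) := by
      intro i
      rw [map_smul_eq_mul]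
      gcongr
      exact norm_le_pi_norm w i
    refine (Finset.sum_le_sum fun i _ => h3 i).trans ?_
    rw [← Finset.mul_sum]
    have := norm_nonneg w
    nlinarith [this]

theorem seminorm_continuous (N : Seminorm ℝ (Rn k)) : Continuous N := by
  obtain ⟨C, hC, h⟩ := seminorm_bound N
  have h1 : LipschitzWith C.toNNReal N := by
    refine LipschitzWith.of_dist_le_mul fun x y => ?_
    rw [Real.dist_eq, dist_eq_norm, Real.coe_toNNReal _ hC.le]
    exact (abs_sub_map_le_sub N x y).trans (h _)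
  exact h1.continuous

theorem Good.core {s : Set (Rn k)} {u : Rn k} (hg : Good s u) {a b : Rn k → ℝ} {α β : Rn k → ℝ}
    (ca : Continuous a) (cb : Continuous b)
    (ha : ∀ (r : ℝ) (w : Rn k), 0 < r → a (r • w) = r * a w)
    (hb : ∀ (r : ℝ) (w : Rn k), 0 < r → b (r • w) = r * b w)
    (oa : (fun w => α w - a (w - u)) =o[𝓝[s] u] (fun w => w - u))
    (ob : (fun w => β w - b (w - u)) =o[𝓝[s] u] (fun w => w - u))
    (hαβ : ∀ w ∈ s, α w ≤ β w) (w : Rn k) : a w ≤ b w := by
  have h := hg (fun w => a w - b w) (ca.sub cb) (fun r w hr => by rw [ha r w hr, hb r w hr]; ring)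
    (fun ε hε => ?_) w
  · simpa using h
  · have h1 := oa.def (c := ε / 2) (by positivity)
    have h2 := ob.def (c := ε / 2) (by positivity)
    filter_upwards [h1, h2, self_mem_nhdsWithin] with v e1 e2 hv
    rw [Real.norm_eq_abs, abs_le] at e1 e2
    have := hαβ v hv
    linarith [e1.1, e1.2, e2.1, e2.2]

theorem Good.eq_of_hasFDerivWithinAt {s : Set (Rn k)} {u : Rn k} (hg : Good s u) {F : Type}
    [NormedAddCommGroup F] [NormedSpace ℝ F] {f : Rn k → F} {f₁ f₂ : Rn k →L[ℝ] F}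
    (h₁ : HasFDerivWithinAt f f₁ s u) (h₂ : HasFDerivWithinAt f f₂ s u) : f₁ = f₂ := by
  have h : (fun w => f₁ (w - u) - f₂ (w - u)) =o[𝓝[s] u] (fun w => w - u) := by
    have := (h₂.isLittleO.sub h₁.isLittleO)
    refine this.congr_left fun w => ?_
    abel
  have key := fun w => hg (fun w => ‖f₁ w - f₂ w‖) (by fun_prop)
    (fun r w hr => by
      rw [map_smul, map_smul, ← smul_sub, norm_smul, Real.norm_of_nonneg hr.le])
    (fun ε hε => by
      filter_upwards [h.def hε] with v hv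
      exact hv) w
  ext1 w
  exact sub_eq_zero.1 (norm_le_zero_iff.1 (key w))

theorem Good.fderivWithin_eq {s : Set (Rn k)} {u : Rn k} (hg : Good s u) {F : Type}
    [NormedAddCommGroup F] [NormedSpace ℝ F] {f Q : Rn k → F} (hu : u ∈ s)
    (hfQ : ∀ v ∈ s, f v = Q v) (hQ : DifferentiableAt ℝ Q u) :
    fderivWithin ℝ f s u = fderiv ℝ Q u := by
  have h1 : HasFDerivWithinAt f (fderiv ℝ Q u) s u :=
    hQ.hasFDerivAt.hasFDerivWithinAt.congr hfQ (hfQ u hu)
  exact hg.eq_of_hasFDerivWithinAt h1.differentiableWithinAt.hasFDerivWithinAt h1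

theorem IsMD.mono {E : Type} [PseudoMetricSpace E] {φ : Rn k → E} {A B : Set (Rn k)} {u : Rn k}
    {N : Seminorm ℝ (Rn k)} (h : IsMD φ A u N) (hBA : B ⊆ A) : IsMD φ B u N :=
  Asymptotics.IsLittleO.mono h (nhdsWithin_mono u hBA)

/-- comparison of a derivative and a metric derivative -/
theorem Good.le_of_isMD {E : Type} [PseudoMetricSpace E] {φ : Rn k → E} {s : Set (Rn k)}
    {u : Rn k} (hg : Good s u) {N : Seminorm ℝ (Rn k)} (hN : IsMD φ s u N) {m : ℕ}
    (p : Seminorm ℝ (Rn m)) {F : Rn k → Rn m} {F' : Rn k →L[ℝ] Rn m}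
    (hF : HasFDerivWithinAt F F' s u) {L : ℝ}
    (h : ∀ w ∈ s, p (F w - F u) ≤ L * dist (φ w) (φ u)) (w : Rn k) : p (F' w) ≤ L * N w := by
  obtain ⟨C, hC, hb⟩ := seminorm_bound p
  refine hg.core (a := fun w => p (F' w)) (b := fun w => L * N w)
    (α := fun w => p (F w - F u)) (β := fun w => L * dist (φ w) (φ u))
    ((seminorm_continuous p).comp F'.continuous) (continuous_const.mul (seminorm_continuous N))
    (fun r w hr => by rw [map_smul, map_smul_eq_mul, Real.norm_of_nonneg hr.le])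
    (fun r w hr => by rw [map_smul_eq_mul, Real.norm_of_nonneg hr.le]; ring) ?_ ?_ h w
  · have h1 := hF.isLittleO
    rw [isLittleO_iff] at h1 ⊢
    intro c hc
    filter_upwards [h1 (div_pos hc hC)] with v hv
    rw [Real.norm_eq_abs]
    refine (abs_sub_map_le_sub p _ _).trans ((hb _).trans ?_)
    calc C * ‖F v - F u - F' (v - u)‖ ≤ C * (c / C * ‖v - u‖) := by gcongr
      _ = c * ‖v - u‖ := by field_simp
  · have h1 : (fun w => L * (dist (φ w) (φ u) - N (w - u))) =o[𝓝[s] u] (fun w => w - u) :=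
      hN.const_mul_left L
    refine h1.congr_left fun w => ?_
    ring

/-- real valued version -/
theorem Good.abs_le_of_isMD {E : Type} [PseudoMetricSpace E] {φ : Rn k → E} {s : Set (Rn k)}
    {u : Rn k} (hg : Good s u) {N : Seminorm ℝ (Rn k)} (hN : IsMD φ s u N)
    {F : Rn k → ℝ} {F' : Rn k →L[ℝ] ℝ} (hF : HasFDerivWithinAt F F' s u) {L : ℝ}
    (h : ∀ w ∈ s, |F w - F u| ≤ L * dist (φ w) (φ u)) (w : Rn k) : |F' w| ≤ L * N w := by
  refine hg.core (a := fun w => |F' w|) (b := fun w => L * N w)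
    (α := fun w => |F w - F u|) (β := fun w => L * dist (φ w) (φ u))
    (by fun_prop) (continuous_const.mul (seminorm_continuous N))
    (fun r w hr => by rw [map_smul, smul_eq_mul, abs_mul, abs_of_pos hr])
    (fun r w hr => by rw [map_smul_eq_mul, Real.norm_of_nonneg hr.le]; ring) ?_ ?_ h w
  · have h1 := hF.isLittleO
    rw [isLittleO_iff] at h1 ⊢
    intro c hc
    filter_upwards [h1 hc] with v hv
    rw [Real.norm_eq_abs] at hv ⊢
    exact (abs_abs_sub_abs_le _ _).trans hv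
  · have h1 : (fun w => L * (dist (φ w) (φ u) - N (w - u))) =o[𝓝[s] u] (fun w => w - u) :=
      hN.const_mul_left L
    refine h1.congr_left fun w => ?_
    ring

/-- the metric derivative of a differentiable map -/
theorem isMD_of_hasFDerivWithinAt {Y : Type} [PseudoMetricSpace Y] {m : ℕ} {e : Y → Rn m}
    {p : Seminorm ℝ (Rn m)} (he : ∀ y y', dist y y' = p (e y - e y')) {φ : Rn k → Y}
    {s : Set (Rn k)} {u : Rn k} {F' : Rn k →L[ℝ] Rn m}
    (hF : HasFDerivWithinAt (e ∘ φ) F' s u) : IsMD φ s u (p.comp (F' : Rn k →ₗ[ℝ] Rn m)) := by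
  obtain ⟨C, hC, hb⟩ := seminorm_bound p
  have h1 := hF.isLittleO
  unfold IsMD
  rw [isLittleO_iff] at h1 ⊢
  intro c hc
  filter_upwards [h1 (div_pos hc hC)] with v hv
  rw [Real.norm_eq_abs, he]
  refine (abs_sub_map_le_sub p _ _).trans ((hb _).trans ?_)
  calc C * ‖e (φ v) - e (φ u) - F' (v - u)‖ ≤ C * (c / C * ‖v - u‖) := by gcongr; exact hv
    _ = c * ‖v - u‖ := by field_simp

/-- chain rule for metric derivatives -/
theorem IsMD.comp {E : Type} [PseudoMetricSpace E] {l : ℕ} {φ : Rn k → E} {ψ : Rn l → E}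
    {s : Set (Rn k)} {B : Set (Rn l)} {u : Rn k} {G : Rn k → Rn l} {G' : Rn k →L[ℝ] Rn l}
    {N : Seminorm ℝ (Rn l)} (hG : HasFDerivWithinAt G G' s u) (hu : u ∈ s)
    (hmap : ∀ v ∈ s, G v ∈ B) (hφ : ∀ v ∈ s, φ v = ψ (G v)) (hN : IsMD ψ B (G u) N) :
    IsMD φ s u (N.comp (G' : Rn k →ₗ[ℝ] Rn l)) := by
  obtain ⟨C, hC, hb⟩ := seminorm_bound N
  have h1 := hG.isLittleO
  have hO : (fun w => G w - G u) =O[𝓝[s] u] (fun w => w - u) := hG.isBigO_sub
  have ht : Tendsto G (𝓝[s] u) (𝓝[B] (G u)) :=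
    tendsto_nhdsWithin_iff.2 ⟨hG.continuousWithinAt, by
      filter_upwards [self_mem_nhdsWithin] with v hv using hmap v hv⟩
  have h2 : (fun w => dist (ψ (G w)) (ψ (G u)) - N (G w - G u)) =o[𝓝[s] u] (fun w => w - u) :=
    (Asymptotics.IsLittleO.comp_tendsto hN ht).trans_isBigO hO
  have h3 : (fun w => N (G w - G u) - N (G' (w - u))) =o[𝓝[s] u] (fun w => w - u) := by
    rw [isLittleO_iff] at h1 ⊢
    intro c hc
    filter_upwards [h1 (div_pos hc hC)] with v hv
    rw [Real.norm_eq_abs]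
    refine (abs_sub_map_le_sub N _ _).trans ((hb _).trans ?_)
    calc C * ‖G v - G u - G' (v - u)‖ ≤ C * (c / C * ‖v - u‖) := by gcongr
      _ = c * ‖v - u‖ := by field_simp
  have h4 := h2.add h3
  refine h4.congr' ?_ EventuallyEq.rfl
  filter_upwards [self_mem_nhdsWithin] with v hv
  rw [hφ v hv, hφ u hu]
  show _ = dist (ψ (G v)) (ψ (G u)) - N (G' (v - u))
  ring

theorem Good.isMD_le {E E' : Type} [PseudoMetricSpace E] [PseudoMetricSpace E'] {φ : Rn k → E}
    {ψ : Rn k → E'} {s : Set (Rn k)} {u : Rn k} (hg : Good s u) {N N' : Seminorm ℝ (Rn k)}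
    (hN : IsMD φ s u N) (hN' : IsMD ψ s u N')
    (h : ∀ w ∈ s, dist (φ w) (φ u) ≤ dist (ψ w) (ψ u)) : N ≤ N' := by
  intro w
  refine hg.core (a := N) (b := N') (α := fun w => dist (φ w) (φ u))
    (β := fun w => dist (ψ w) (ψ u)) (seminorm_continuous N) (seminorm_continuous N')
    (fun r w hr => by rw [map_smul_eq_mul, Real.norm_of_nonneg hr.le])
    (fun r w hr => by rw [map_smul_eq_mul, Real.norm_of_nonneg hr.le]) hN hN' h w

theorem Good.isMD_unique {E : Type} [PseudoMetricSpace E] {φ : Rn k → E}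
    {s : Set (Rn k)} {u : Rn k} (hg : Good s u) {N N' : Seminorm ℝ (Rn k)}
    (hN : IsMD φ s u N) (hN' : IsMD φ s u N') : N = N' :=
  le_antisymm (hg.isMD_le hN hN' fun _ _ => le_rfl) (hg.isMD_le hN' hN fun _ _ => le_rfl)

/-- the metric derivative of a bi-Lipschitz map is a norm -/
theorem Good.isNrm {E : Type} [PseudoMetricSpace E] {φ : Rn k → E}
    {s : Set (Rn k)} {u : Rn k} (hg : Good s u) (hu : u ∈ s) {N : Seminorm ℝ (Rn k)}
    (hN : IsMD φ s u N) (hb : BiLipOn φ s) : IsNrm N := by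
  obtain ⟨K, hK⟩ := hb
  have key : ∀ w, ‖w‖ ≤ (K : ℝ) * N w := by
    refine hg.core (a := fun w => ‖w‖) (b := fun w => (K : ℝ) * N w)
      (α := fun w => ‖w - u‖) (β := fun w => K * dist (φ w) (φ u))
      (by fun_prop) (continuous_const.mul (seminorm_continuous N))
      (fun r w hr => by rw [norm_smul, Real.norm_of_nonneg hr.le])
      (fun r w hr => by rw [map_smul_eq_mul, Real.norm_of_nonneg hr.le]; ring) ?_ ?_ ?_
    · simp
    · have h1 : (fun w => (K : ℝ) * (dist (φ w) (φ u) - N (w - u))) =o[𝓝[s] u] (fun w => w - u) :=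
        hN.const_mul_left _
      refine h1.congr_left fun w => ?_
      ring
    · intro w hw
      have := (hK w hw u hu).2
      rwa [dist_eq_norm] at this
  intro w hw
  have := key w
  rw [hw, mul_zero] at this
  exact norm_le_zero_iff.1 this

end

end Pool.Agent.W674.LVF
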