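import Pool.Agent.W674.LVF.Mat

/-! # Lipschitz functions on `X` factor through the body, with bounded weak derivative -/

set_option autoImplicit false
set_option linter.unusedSectionVars false

open MeasureTheory Set Filter Topology
open scoped ENNReal NNReal ContDiff
open Pool.Agent.W674.LVR

namespace Pool.Agent.W674.LVF

variable {n : ℕ} {X Y : Type} [MetricSpace X] [MeasurableSpace X] [BorelSpace X]
  [MetricSpace Y] [MeasurableSpace Y] [BorelSpace Y]

variable {p : Seminorm ℝ (Rn (n + 1))} {e : Y → Rn (n + 1)} {f : X → Y} {TX : Fnl (n + 1) X}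
  {J : Seminorm ℝ (Rn (n + 1)) → ℝ≥0∞} {D : Param (n + 1) X}
  {Q : Fin (n + 1) → D.ι → Rn (n + 1) → ℝ}

/-- the boundary has no mass over the interior -/
def NoBd (e : Y → Rn (n + 1)) (f : X → Y) (TX : Fnl (n + 1) X) : Prop :=
  ∀ (q : X → ℝ) (π : Fin n → X → ℝ), BLip q → (∀ x, q x ≠ 0 → e (f x) ∈ interior (range e)) →
    (∀ j, Lip (π j)) → TX (fun _ => 1) (Fin.cons q π) = 0

/-- bounded Lipschitz extensions -/
theorem exists_bext {k : ℕ} {φ : Rn k → X} {A : Set (Rn k)}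
    (hφ : ∃ K : ℝ≥0, LipschitzOnWith K φ A) {q : X → ℝ} (hq : Lip q) {B : ℝ} (hB : ∀ x, |q x| ≤ B)
    (hB0 : 0 ≤ B) :
    ∃ Q : Rn k → ℝ, BLip Q ∧ (∀ u, |Q u| ≤ B) ∧ ∀ u ∈ A, q (φ u) = Q u := by
  obtain ⟨Q, hQ, hQe⟩ := exists_ext hφ hq
  have h := clamp_blip hQ B hB0
  refine ⟨_, h, fun u => ?_, fun u hu => ?_⟩
  · rw [abs_le]
    exact ⟨le_max_left _ _, max_le (by linarith) (min_le_left _ _)⟩
  · rw [← hQe u hu, clamp_eq (hB _)]

/-- the matrix of partial derivatives -/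
noncomputable def pm {m : ℕ} (Q : Fin m → Rn m → ℝ) (u : Rn m) : Matrix (Fin m) (Fin m) ℝ :=
  Matrix.of fun a b => fderiv ℝ (Q a) u (Pi.single b 1)

/-- the row of partial derivatives -/
noncomputable def row {m : ℕ} (q : Rn m → ℝ) (u : Rn m) : Fin m → ℝ :=
  fun b => fderiv ℝ q u (Pi.single b 1)

theorem row_dot {m : ℕ} (q : Rn m → ℝ) (u w : Rn m) : ∑ b, row q u b * w b = fderiv ℝ q u w :=
  sum_fderiv _ w

theorem pm_mulVec {m : ℕ} {Q : Fin m → Rn m → ℝ} {u : Rn m}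
    (h : ∀ j, DifferentiableAt ℝ (Q j) u) (w : Rn m) :
    (pm Q u).mulVec w = fderiv ℝ (vec Q) u w := by
  have h1 : HasFDerivAt (vec Q) (ContinuousLinearMap.pi fun j => fderiv ℝ (Q j) u) u :=
    hasFDerivAt_pi.2 fun j => (h j).hasFDerivAt
  rw [h1.fderiv]
  ext a
  exact sum_fderiv _ w

theorem pm_det {m : ℕ} {Q : Fin m → Rn m → ℝ} {u : Rn m}
    (h : ∀ j, DifferentiableAt ℝ (Q j) u) : (pm Q u).det = (fderiv ℝ (vec Q) u).det :=
  jac_eq_det h

/-- the functional with one coordinate replaced -/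
theorem Setup.update_zero (s : Setup p e f TX J D Q) (hnb : NoBd e f TX) {q : X → ℝ} (hq : BLip q)
    (hq0 : ∀ x, q x ≠ 0 → e (f x) ∈ interior (range e)) {R : D.ι → Rn (n + 1) → ℝ}
    (hR : ∀ i, Lip (R i)) (hRe : ∀ i, ∀ u ∈ D.A i, q (D.φ i u) = R i u) (j : Fin (n + 1)) :
    Integrable (fun z : D.ι × Rn (n + 1) => (D.θ z.1 z.2 : ℝ) *
      ((pm (fun a => Q a z.1) z.2).updateRow j (row (R z.1) z.2)).det) D.μ ∧
    ∫ z, (D.θ z.1 z.2 : ℝ) *
      ((pm (fun a => Q a z.1) z.2).updateRow j (row (R z.1) z.2)).det ∂D.μ = 0 := by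
  set π : Fin n → X → ℝ := fun i x => e (f x) (j.succAbove i) with hπ
  have hπl : ∀ i, Lip (π i) := fun i => s.lip_c _
  have hc : ∀ a, Lip ((Fin.cons q π : Fin (n + 1) → X → ℝ) a) := lip_cons hq.1 hπl
  have h0 := hnb q π hq hq0 hπl
  have hone : BLip (fun _ : X => (1 : ℝ)) :=
    ⟨⟨0, LipschitzWith.const _⟩, 1, fun _ => by simp⟩
  have hint := integrable_dens s.dens s.vol s.isLip s.finite hc
  rw [Represents.eq_integral s.dens s.vol s.isLip s.finite s.rep hone hc] at h0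
  simp only [one_mul] at h0
  set σ : ℝ := ((Equiv.Perm.sign j.cycleRange : ℤ) : ℝ) with hσ
  have hae : ∀ᵐ z ∂D.μ, σ * LVF.dens D (Fin.cons q π) z = (D.θ z.1 z.2 : ℝ) *
      ((pm (fun a => Q a z.1) z.2).updateRow j (row (R z.1) z.2)).det := by
    rw [ae_om D s.isLip.countable]
    intro i
    set P : Fin (n + 1) → Rn (n + 1) → ℝ :=
      Fin.cons (R i) (fun a => Q (j.succAbove a) i) with hP
    have hPl : ∀ a, Lip (P a) := lip_cons (hR i) fun a => s.lipQ _ i
    have hPe : ∀ a, ∀ u ∈ D.A i, (Fin.cons q π : Fin (n + 1) → X → ℝ) a (D.φ i u) = P a u := by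
      intro a
      refine Fin.cases ?_ (fun b => ?_) a
      · exact hRe i
      · exact s.eqQ _ i
    filter_upwards [LVF.ae_jac s.dens s.isLip i hc hPl hPe] with u hu
    unfold LVF.dens
    simp only
    rw [hu, det_cons]
    have h1 : jac P u = (Matrix.of (Fin.cons (row (R i) u)
        (fun a => (pm (fun a => Q a i) u) (j.succAbove a)) :
        Fin (n + 1) → Fin (n + 1) → ℝ)).det := by
      unfold jac
      congr 1
      ext a b
      simp only [Matrix.of_apply]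
      refine Fin.cases ?_ (fun c => ?_) a
      · rfl
      · rfl
    rw [h1]
    ring
  refine ⟨(hint.const_mul σ).congr hae, ?_⟩
  rw [← integral_congr_ae hae, integral_const_mul, h0, mul_zero]

/-- the weak derivative bound -/
theorem Setup.weak (s : Setup p e f TX J D Q) (hnb : NoBd e f TX) {h : X → ℝ}
    (hh : LipschitzWith 1 h) {B : ℝ} (hB : ∀ x, |h x| ≤ B) (hB0 : 0 ≤ B)
    {R : D.ι → Rn (n + 1) → ℝ} (hR : ∀ i, BLip (R i)) (hRB : ∀ i u, |R i u| ≤ B)
    (hRe : ∀ i, ∀ u ∈ D.A i, h (D.φ i u) = R i u)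
    {H : Rn (n + 1) → ℝ} (hH : Measurable H) {C : ℝ} (hHb : ∀ y, |H y| ≤ C)
    (hfac : ∀ᵐ z ∂D.μ, D.θ z.1 z.2 ≠ 0 → del Q z ≠ 0 → H (Ps Q z) = R z.1 z.2)
    (v : Rn (n + 1)) {g : Rn (n + 1) → ℝ} (hg : ContDiff ℝ ∞ g) (hgc : HasCompactSupport g)
    (hgs : tsupport g ⊆ interior (range e)) (hg0 : ∀ y, 0 ≤ g y) :
    |∫ y, H y * fderiv ℝ g y v| ≤ p v * ∫ y, g y := by
  have hcount := s.isLip.countable
  obtain ⟨L, hL⟩ : ∃ L : ℝ≥0, LipschitzWith L g :=
    ContDiff.lipschitzWith_of_hasCompactSupport hgc hg (by simp)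
  obtain ⟨G0, hG0⟩ : ∃ G0, ∀ y, ‖g y‖ ≤ G0 := hgc.exists_bound_of_continuous hg.continuous
  have hgb : BLip g := ⟨⟨L, hL⟩, G0, hG0⟩
  have hgd : Differentiable ℝ g := hg.differentiable (by simp)
  -- the derivative of `g`
  have hdb : ∀ y, |fderiv ℝ g y v| ≤ L * ‖v‖ := by
    intro y
    have h1 := (fderiv ℝ g y).le_opNorm v
    rw [Real.norm_eq_abs] at h1
    exact h1.trans (mul_le_mul_of_nonneg_right (norm_fderiv_le_of_lipschitz ℝ hL) (norm_nonneg _))
  have hdm : Measurable fun y => fderiv ℝ g y v := measurable_fderiv_apply_const ℝ g v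
  have hzero : ∀ y, y ∉ range e → g y = 0 ∧ fderiv ℝ g y v = 0 := by
    intro y hy
    have h1 : y ∉ tsupport g := fun h => hy (interior_subset (hgs h))
    refine ⟨image_eq_zero_of_notMem_tsupport h1, ?_⟩
    have h2 : y ∉ tsupport (fderiv ℝ g) := fun h => h1 (tsupport_fderiv_subset ℝ h)
    rw [image_eq_zero_of_notMem_tsupport h2]
    rfl
  -- the product `q = h (g ∘ e ∘ f)`
  have hhb : BLip h := ⟨⟨1, hh⟩, B, hB⟩
  have hgf : BLip (fun x => g (e (f x))) := by
    obtain ⟨⟨K, hK⟩, C, hC⟩ := s.body.blip_comp hgb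
    exact ⟨⟨_, hK.comp s.lip⟩, C, fun x => hC _⟩
  have hq : BLip (fun x => h x * g (e (f x))) := blip_mul hhb hgf
  have hq0 : ∀ x, h x * g (e (f x)) ≠ 0 → e (f x) ∈ interior (range e) := by
    intro x hx
    have h1 : g (e (f x)) ≠ 0 := fun h0 => hx (by rw [h0, mul_zero])
    exact hgs (subset_tsupport g h1)
  set Rq : D.ι → Rn (n + 1) → ℝ := fun i u => R i u * g (vec (fun j => Q j i) u) with hRq
  have hgv : ∀ i, BLip (fun u => g (vec (fun j => Q j i) u)) := by
    intro i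
    obtain ⟨K, hK⟩ := vec_lip (s.lipQ · i)
    exact ⟨⟨_, hL.comp hK⟩, G0, fun u => hG0 _⟩
  have hRql : ∀ i, Lip (Rq i) := fun i => (blip_mul (hR i) (hgv i)).1
  have hRqe : ∀ i, ∀ u ∈ D.A i, h (D.φ i u) * g (e (f (D.φ i u))) = Rq i u := by
    intro i u hu
    have h1 : e (f (D.φ i u)) = vec (fun j => Q j i) u := by
      ext j
      exact s.eqQ j i u hu
    show _ = R i u * g (vec (fun j => Q j i) u)
    rw [← hRe i u hu, h1]
  have hup := fun j => s.update_zero hnb hq hq0 hRql hRqe j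
  set A0 : D.ι × Rn (n + 1) → ℝ := fun z => ∑ j, v j * ((D.θ z.1 z.2 : ℝ) *
      ((pm (fun a => Q a z.1) z.2).updateRow j (row (Rq z.1) z.2)).det) with hA0
  have hA0i : Integrable A0 D.μ := integrable_finsetSum _ fun j _ => (hup j).1.const_mul (v j)
  have hA0z : ∫ z, A0 z ∂D.μ = 0 := by
    rw [hA0, integral_finsetSum _ fun j _ => (hup j).1.const_mul (v j)]
    refine Finset.sum_eq_zero fun j _ => ?_
    rw [integral_const_mul, (hup j).2, mul_zero]
  set w : D.ι × Rn (n + 1) → ℝ := fun z => (D.θ z.1 z.2 : ℝ) * del Q z with hw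
  have hwi : Integrable w D.μ := s.integrable
  set P : D.ι × Rn (n + 1) → ℝ := fun z => (R z.1 z.2 * fderiv ℝ g (Ps Q z) v) * w z with hP
  have hRm : Measurable fun z : D.ι × Rn (n + 1) => R z.1 z.2 :=
    measurable_om D hcount fun i => (hR i).measurable
  have hPi : Integrable P D.μ := by
    refine hwi.bdd_mul (c := B * (L * ‖v‖)) ?_ (Filter.Eventually.of_forall fun z => ?_)
    · exact (hRm.mul (hdm.comp s.measurable_Ps)).aestronglyMeasurable
    · rw [norm_mul]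
      exact mul_le_mul (hRB _ _) (hdb _) (norm_nonneg _) hB0
  -- the value of the integral of `P`
  have hPint : ∫ z, P z ∂D.μ = ∫ y, H y * fderiv ℝ g y v := by
    have e1 := s.integral_eq (q := fun y => H y * fderiv ℝ g y v) (hH.mul hdm)
      (B := C * (L * ‖v‖)) (fun y => by
        rw [abs_mul]
        exact mul_le_mul (hHb y) (hdb y) (abs_nonneg _) ((abs_nonneg _).trans (hHb y)))
    have e2 : ∫ u in range e, H u * fderiv ℝ g u v = ∫ u, H u * fderiv ℝ g u v :=
      setIntegral_eq_integral_of_forall_compl_eq_zero fun u hu => by rw [(hzero u hu).2, mul_zero]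
    rw [← e2, ← e1]
    refine integral_congr_ae ?_
    filter_upwards [hfac, s.equality.2] with z h1 h2
    by_cases hθ : D.θ z.1 z.2 = 0
    · simp [hP, hw, hθ]
    · rw [h1 hθ (h2 hθ).1]
  -- the pointwise bound
  have hbound : ∀ᵐ z ∂D.μ, ‖P z - A0 z‖ ≤ p v * (g (Ps Q z) * w z) := by
    have hdiff : ∀ᵐ z ∂D.μ, (∀ j, DifferentiableAt ℝ (Q j z.1) z.2) ∧
        DifferentiableAt ℝ (R z.1) z.2 := by
      rw [ae_om D hcount]
      intro i
      have h1 : ∀ᵐ u, ∀ j, DifferentiableAt ℝ (Q j i) u :=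
        ae_all_iff.2 fun j => Lip.ae_diff (s.lipQ j i)
      filter_upwards [ae_restrict_of_ae h1, ae_restrict_of_ae (Lip.ae_diff (hR i).1)] with u a b
      exact ⟨a, b⟩
    have hder : ∀ᵐ z ∂D.μ, ∀ w, |fderiv ℝ (R z.1) z.2 w| ≤ D.N z.1 z.2 w := by
      rw [ae_om D hcount]
      intro i
      filter_upwards [ae_facts s.dens s.isLip i hh (hR i).1 (hRe i)] with u hu
      intro w
      have := hu.2.2 w
      rwa [NNReal.coe_one, one_mul] at this
    filter_upwards [hdiff, hder, s.equality.1, s.equality.2] with z h1 h2 h3 h4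
    by_cases hθ : D.θ z.1 z.2 = 0
    · have e1 : P z = 0 := by simp [hP, hw, hθ]
      have e2 : A0 z = 0 := by simp [hA0, hθ]
      have e3 : w z = 0 := by simp [hw, hθ]
      rw [e1, e2, e3]
      simp
    obtain ⟨hδ, hN⟩ := h4 hθ
    -- the preimage of `v`
    set T := fderiv ℝ (vec fun j => Q j z.1) z.2 with hT
    obtain ⟨x, hx⟩ : ∃ x, T x = v :=
      (LinearMap.equivOfDetNeZero (T : Rn (n + 1) →ₗ[ℝ] Rn (n + 1)) hδ).surjective v
    have hM : (pm (fun a => Q a z.1) z.2).mulVec x = v := by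
      rw [pm_mulVec h1.1, ← hx]
    have hdet : (pm (fun a => Q a z.1) z.2).det = del Q z := pm_det h1.1
    have e1 : A0 z = w z * fderiv ℝ (Rq z.1) z.2 x := by
      have e2 := sum_updateRow (pm (fun a => Q a z.1) z.2) (row (Rq z.1) z.2) x
      rw [hM, hdet, row_dot] at e2
      rw [hA0, hw]
      simp only
      rw [mul_assoc, ← e2, Finset.mul_sum]
      refine Finset.sum_congr rfl fun j _ => ?_
      ring
    have hvd : DifferentiableAt ℝ (vec fun j => Q j z.1) z.2 := differentiableAt_pi.2 h1.1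
    have e3 : fderiv ℝ (Rq z.1) z.2 x =
        R z.1 z.2 * fderiv ℝ g (Ps Q z) v + g (Ps Q z) * fderiv ℝ (R z.1) z.2 x := by
      have d1 : HasFDerivAt (fun u => g (vec (fun j => Q j z.1) u))
          ((fderiv ℝ g (vec (fun j => Q j z.1) z.2)).comp T) z.2 :=
        (hgd _).hasFDerivAt.comp z.2 hvd.hasFDerivAt
      have d2 := h1.2.hasFDerivAt.mul d1
      have d3 : fderiv ℝ (Rq z.1) z.2 = _ := d2.fderiv
      rw [d3]
      show R z.1 z.2 * ((fderiv ℝ g (vec (fun j => Q j z.1) z.2)) (T x)) +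
        g (vec (fun j => Q j z.1) z.2) * fderiv ℝ (R z.1) z.2 x = _
      rw [hx]
      rfl
    have e4 : P z - A0 z = -(w z * (g (Ps Q z) * fderiv ℝ (R z.1) z.2 x)) := by
      rw [e1, e3, hP]
      simp only
      ring
    have e5 : |fderiv ℝ (R z.1) z.2 x| ≤ p v := by
      have := h2 x
      rw [← hN] at this
      have e6 : (p.comp (T : Rn (n + 1) →ₗ[ℝ] Rn (n + 1))) x = p v := by
        show p (T x) = p v
        rw [hx]
      rwa [e6] at this
    have h3' : 0 ≤ w z := h3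
    rw [e4, norm_neg, Real.norm_eq_abs, abs_mul (w z), abs_mul (g (Ps Q z)), abs_of_nonneg h3',
      abs_of_nonneg (hg0 _)]
    calc w z * (g (Ps Q z) * |fderiv ℝ (R z.1) z.2 x|) ≤ w z * (g (Ps Q z) * p v) := by
          refine mul_le_mul_of_nonneg_left ?_ h3
          exact mul_le_mul_of_nonneg_left e5 (hg0 _)
      _ = p v * (g (Ps Q z) * w z) := by ring
  have hgi : Integrable (fun z => g (Ps Q z) * w z) D.μ := by
    refine hwi.bdd_mul (c := G0) ?_ (Filter.Eventually.of_forall fun z => hG0 _)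
    exact (hgb.measurable.comp s.measurable_Ps).aestronglyMeasurable
  have hgint : ∫ z, g (Ps Q z) * w z ∂D.μ = ∫ y, g y := by
    rw [s.integral_eq hgb.measurable (B := G0) (fun u => hG0 u)]
    exact setIntegral_eq_integral_of_forall_compl_eq_zero fun u hu => (hzero u hu).1
  rw [← hPint]
  calc |∫ z, P z ∂D.μ| = ‖∫ z, (P z - A0 z) ∂D.μ‖ := by
        rw [integral_sub hPi hA0i, hA0z, sub_zero, Real.norm_eq_abs]
    _ ≤ ∫ z, p v * (g (Ps Q z) * w z) ∂D.μ :=
        norm_integral_le_of_norm_le (hgi.const_mul _) hbound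
    _ = p v * ∫ y, g y := by rw [integral_const_mul, hgint]

end Pool.Agent.W674.LVF
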